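import Pool.Agent.H231.R3.Flux

set_option autoImplicit false

namespace Pool.Agent.H231.R3

open MeasureTheory Set Filter Topology

theorem d_cl {s : ℝ} (h1 : s ≠ 1) (h2 : s ≠ -1) : HasDerivAt cl (al s) s := by
  rcases lt_or_gt_of_ne h2 with h | h
  · have e : cl =ᶠ[𝓝 s] fun _ => -1 := by
      filter_upwards [Iio_mem_nhds h] with x hx
      exact cl_of_le (le_of_lt hx)
    have : al s = 0 := by
      unfold al; rw [if_neg]; intro hc; rw [abs_lt] at hc; linarith
    rw [this]
    exact (hasDerivAt_const s (-1:ℝ)).congr_of_eventuallyEq e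
  rcases lt_or_gt_of_ne h1 with h' | h'
  · have e : cl =ᶠ[𝓝 s] fun x => x := by
      filter_upwards [Ioo_mem_nhds h h'] with x hx
      exact cl_of_mem (le_of_lt hx.1) (le_of_lt hx.2)
    have : al s = 1 := by
      unfold al; rw [if_pos]; rw [abs_lt]; exact ⟨h, h'⟩
    rw [this]
    exact (hasDerivAt_id' s).congr_of_eventuallyEq e
  · have e : cl =ᶠ[𝓝 s] fun _ => 1 := by
      filter_upwards [Ioi_mem_nhds h'] with x hx
      exact cl_of_ge (le_of_lt hx)
    have : al s = 0 := by
      unfold al; rw [if_neg]; intro hc; rw [abs_lt] at hc; linarith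
    rw [this]
    exact (hasDerivAt_const s (1:ℝ)).congr_of_eventuallyEq e

theorem d_nn {s : ℝ} (h1 : s ≠ 1) (h2 : s ≠ -1) : HasDerivAt nn (1 - al s) s :=
  (hasDerivAt_id' s).fun_sub (d_cl h1 h2)

theorem cl_cont : Continuous cl := by unfold cl; fun_prop
theorem nn_cont : Continuous nn := by unfold nn; exact continuous_id.sub cl_cont

theorem al_nn (s : ℝ) : al s * nn s = 0 := by
  unfold al nn
  split_ifs with h
  · rw [abs_lt] at h
    rw [cl_of_mem h.1.le h.2.le]; ring
  · ring

/-- the parametrization -/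
noncomputable def PsiT (t p r : ℝ) : Fin 3 → ℝ := ![P0 t p r, P1 t p r, P2 t p r]

/-- the parametrization as a self map of `Fin 3 → ℝ` -/
noncomputable def Psi (m : Fin 3 → ℝ) : Fin 3 → ℝ := PsiT (m 0) (m 1) (m 2)

theorem hd_t (t p r : ℝ) :
    HasDerivAt (fun t => PsiT t p r) (dt (al p) (al r) t (cl p) (cl r) (nn p) (nn r)) t := by
  rw [hasDerivAt_pi]
  have h : HasDerivAt (fun t : ℝ => t) 1 t := hasDerivAt_id' t
  intro i
  fin_cases i
  · refine HasDerivAt.congr_deriv (((h.mul_const (cl r)).fun_neg).sub_const (nn p)) ?_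
    simp [dt]
  · refine HasDerivAt.congr_deriv (((h.mul_const (cl p)).fun_neg).add_const (nn r)) ?_
    simp [dt]
  · refine HasDerivAt.congr_deriv ((h.mul_const (1 + (cl p ^ 2 + cl r ^ 2) / 100)).add_const
      ((cl r * nn p - cl p * nn r) / 50)) ?_
    simp [dt]

theorem hd_p (t p r : ℝ) (h1 : p ≠ 1) (h2 : p ≠ -1) :
    HasDerivAt (fun p => PsiT t p r) (dp (al p) (al r) t (cl p) (cl r) (nn p) (nn r)) p := by
  rw [hasDerivAt_pi]
  have hc := d_cl h1 h2
  have hn := d_nn h1 h2
  intro i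
  fin_cases i
  · refine HasDerivAt.congr_deriv (hn.const_sub (-(t * cl r))) ?_
    simp [dp]
  · refine HasDerivAt.congr_deriv (((hc.const_mul t).fun_neg).add_const (nn r)) ?_
    simp [dp]
  · refine HasDerivAt.congr_deriv ((((((hc.fun_pow 2).add_const (cl r ^ 2)).div_const 100).const_add 1).const_mul t).fun_add
      (((hn.const_mul (cl r)).fun_sub (hc.mul_const (nn r))).div_const 50)) ?_
    simp [dp]; ring

theorem hd_r (t p r : ℝ) (h1 : r ≠ 1) (h2 : r ≠ -1) :
    HasDerivAt (fun r => PsiT t p r) (dr (al p) (al r) t (cl p) (cl r) (nn p) (nn r)) r := by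
  rw [hasDerivAt_pi]
  have hc := d_cl h1 h2
  have hn := d_nn h1 h2
  intro i
  fin_cases i
  · refine HasDerivAt.congr_deriv (((hc.const_mul t).fun_neg).sub_const (nn p)) ?_
    simp [dr]
  · refine HasDerivAt.congr_deriv (hn.const_add (-(t * cl p))) ?_
    simp [dr]
  · refine HasDerivAt.congr_deriv ((((((hc.fun_pow 2).const_add (cl p ^ 2)).div_const 100).const_add 1).const_mul t).fun_add
      (((hc.mul_const (nn p)).fun_sub (hn.const_mul (cl p))).div_const 50)) ?_
    simp [dr]; ring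

theorem dV1 (t r s : ℝ) (h1 : s ≠ 1) (h2 : s ≠ -1) :
    HasDerivAt (fun s => V1 (al s) (al r) t (cl s) (cl r) (nn s) (nn r))
      (E1 (al s) (al r) t (cl s) (cl r) (nn s) (nn r)) s := by
  have hc := d_cl h1 h2
  have hn := d_nn h1 h2
  have k1 := (d_la_b (cl r) (cl s)).scomp s hc
  have k2 := (d_laa_b (cl r) (cl s)).scomp s hc
  have k3 := (d_la_a (cl s) (cl r)).scomp s hc
  have k4 := ((((k1.const_mul t).fun_neg).fun_sub (hn.fun_mul k2)).const_mul (al r)).fun_sub
    (k3.const_mul (1 - al r))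
  refine k4.congr_deriv ?_
  have e := al_nn s
  simp only [smul_eq_mul, Function.comp, E1]
  rw [lab_symm (cl s) (cl r)]
  linear_combination (-(al r) * laab (cl r) (cl s)) * e

theorem dV2 (t p s : ℝ) (h1 : s ≠ 1) (h2 : s ≠ -1) :
    HasDerivAt (fun s => V2 (al p) (al s) t (cl p) (cl s) (nn p) (nn s))
      (E2 (al p) (al s) t (cl p) (cl s) (nn p) (nn s)) s := by
  have hc := d_cl h1 h2
  have hn := d_nn h1 h2
  have k1 := (d_la_b (cl p) (cl s)).scomp s hc
  have k2 := (d_laa_b (cl p) (cl s)).scomp s hc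
  have k3 := (d_la_a (cl s) (cl p)).scomp s hc
  have k4 := ((((k1.const_mul t).fun_neg).fun_add (hn.fun_mul k2)).const_mul (al p)).fun_add
    (k3.const_mul (1 - al p))
  refine k4.congr_deriv ?_
  have e := al_nn s
  simp only [smul_eq_mul, Function.comp, E2]
  linear_combination ((al p) * laab (cl p) (cl s)) * e

theorem dV0 (p r s : ℝ) :
    HasDerivAt (fun s => V0 (al p) (al r) s (cl p) (cl r) (nn p) (nn r))
      (E0 (al p) (al r) s (cl p) (cl r) (nn p) (nn r)) s := by
  have h : HasDerivAt (fun t : ℝ => t) 1 s := hasDerivAt_id' s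
  have k := ((((((h.fun_pow 2).const_mul (al p * al r)).add_const ((1 - al p) * (1 - al r))).mul_const
    (lab (cl p) (cl r))).add_const (al p * (1 - al r) * nn r * laaa (cl p) (cl r))).add_const
    ((1 - al p) * al r * nn p * laaa (cl r) (cl p)))
  refine k.congr_deriv ?_
  unfold E0
  have e : s ^ (2 - 1) = s := by norm_num
  rw [e]
  push_cast
  ring

end Pool.Agent.H231.R3
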