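import Pool.Agent.H231.R3.Div

set_option autoImplicit false

namespace Pool.Agent.H231.R3

open MeasureTheory Set Filter Topology

/-- the good set of parameters -/
def M0 : Set (Fin 3 → ℝ) := {m | m 0 ≠ 0 ∧ |m 1| ≠ 1 ∧ |m 2| ≠ 1}

theorem M0_open : IsOpen M0 := by
  have h0 : IsOpen {m : Fin 3 → ℝ | m 0 ≠ 0} := isOpen_ne_fun (by fun_prop) continuous_const
  have h1 : IsOpen {m : Fin 3 → ℝ | |m 1| ≠ 1} := isOpen_ne_fun (by fun_prop) continuous_const
  have h2 : IsOpen {m : Fin 3 → ℝ | |m 2| ≠ 1} := isOpen_ne_fun (by fun_prop) continuous_const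
  exact h0.inter (h1.inter h2)

/-- Jacobian at a point -/
noncomputable def Jm (m : Fin 3 → ℝ) : Matrix (Fin 3) (Fin 3) ℝ :=
  Mat (al (m 1)) (al (m 2)) (m 0) (cl (m 1)) (cl (m 2)) (nn (m 1)) (nn (m 2))

/-- derivative of the parametrization -/
noncomputable def Jd (m : Fin 3 → ℝ) : (Fin 3 → ℝ) →L[ℝ] (Fin 3 → ℝ) :=
  LinearMap.toContinuousLinearMap (Matrix.toLin' (Jm m))

theorem ne_of_abs {s : ℝ} (h : |s| ≠ 1) : s ≠ 1 ∧ s ≠ -1 := by
  constructor
  · rintro rfl; simp at h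
  · rintro rfl; simp at h

theorem Psi_hasFDerivAt {m : Fin 3 → ℝ} (hm : m ∈ M0) : HasFDerivAt Psi (Jd m) m := by
  obtain ⟨h0, h1, h2⟩ := hm
  obtain ⟨h1a, h1b⟩ := ne_of_abs h1
  obtain ⟨h2a, h2b⟩ := ne_of_abs h2
  have ht : HasFDerivAt (fun m : Fin 3 → ℝ => m 0) (ContinuousLinearMap.proj (R := ℝ) 0) m := hasFDerivAt_apply 0 m
  have hp : HasFDerivAt (fun m : Fin 3 → ℝ => m 1) (ContinuousLinearMap.proj (R := ℝ) 1) m := hasFDerivAt_apply 1 m
  have hr : HasFDerivAt (fun m : Fin 3 → ℝ => m 2) (ContinuousLinearMap.proj (R := ℝ) 2) m := hasFDerivAt_apply 2 m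
  have hcp := (d_cl h1a h1b).comp_hasFDerivAt m hp
  have hcr := (d_cl h2a h2b).comp_hasFDerivAt m hr
  have hnp := (d_nn h1a h1b).comp_hasFDerivAt m hp
  have hnr := (d_nn h2a h2b).comp_hasFDerivAt m hr
  rw [hasFDerivAt_pi']
  intro i
  fin_cases i
  · have k := ((ht.mul hcr).neg).sub hnp
    refine HasFDerivAt.congr_fderiv k ?_
    ext v
    simp [Jd, Jm, Mat, dt, dp, dr, Matrix.mulVec, dotProduct, Fin.sum_univ_three]
    ring
  · have k := ((ht.mul hcp).neg).add hnr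
    refine HasFDerivAt.congr_fderiv k ?_
    ext v
    simp [Jd, Jm, Mat, dt, dp, dr, Matrix.mulVec, dotProduct, Fin.sum_univ_three]
    ring
  · have k := (ht.mul ((((hcp.mul hcp).add (hcr.mul hcr)).mul_const (1 / 100 : ℝ)).const_add 1)).add
      (((hcr.mul hnp).sub (hcp.mul hnr)).mul_const (1 / 50 : ℝ))
    have e : (fun m : Fin 3 → ℝ => Psi m 2) = (fun m : Fin 3 → ℝ => m 0 * (1 + ((cl (m 1)) * (cl (m 1))
        + (cl (m 2)) * (cl (m 2))) * (1 / 100)) + ((cl (m 2)) * nn (m 1) - (cl (m 1)) * nn (m 2)) * (1 / 50)) := by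
      funext m
      simp only [Psi, PsiT, P2, Matrix.cons_val]
      ring
    simp only [Fin.reduceFinMk]
    rw [e]
    refine HasFDerivAt.congr_fderiv k ?_
    ext v
    simp [Jd, Jm, Mat, dt, dp, dr, Matrix.mulVec, dotProduct, Fin.sum_univ_three]
    ring

theorem Psi_injOn : InjOn Psi M0 := by
  intro m hm m' hm' h
  have e0 := congrFun h 0
  have e1 := congrFun h 1
  have e2 := congrFun h 2
  simp only [Psi, PsiT, Matrix.cons_val] at e0 e1 e2
  obtain ⟨k0, k1, k2⟩ := P_inj e0 e1 e2 (P_pos hm.1)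
  funext i
  fin_cases i
  · exact k0
  · exact k1
  · exact k2

theorem Psi_surj (x : Fin 3 → ℝ) : ∃ m, Psi m = x := by
  obtain ⟨t, p, r, h0, h1, h2⟩ := P_surj (x 0) (x 1) (x 2)
  refine ⟨![t, p, r], ?_⟩
  funext i
  fin_cases i
  · simpa [Psi, PsiT] using h0
  · simpa [Psi, PsiT] using h1
  · simpa [Psi, PsiT] using h2

/-- the weight at a point -/
noncomputable def Wm (m : Fin 3 → ℝ) : ℝ :=
  W (al (m 1)) (al (m 2)) (m 0) (cl (m 1)) (cl (m 2)) (nn (m 1)) (nn (m 2))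

theorem al_one_or (s : ℝ) : al s = 1 ∨ al s = 0 := al_cases s

theorem al_mem {s : ℝ} (hs : |s| ≠ 1) : (al s = 1 ∧ |cl s| < 1) ∨ (al s = 0 ∧ ¬ |cl s| < 1) := by
  unfold al
  split_ifs with h
  · left
    refine ⟨rfl, ?_⟩
    have h' := abs_lt.mp h
    rw [cl_of_mem h'.1.le h'.2.le]; exact h
  · right
    refine ⟨rfl, ?_⟩
    have h1 : 1 < |s| := lt_of_le_of_ne (not_lt.mp h) (Ne.symm hs)
    rcases lt_abs.mp h1 with h2 | h2
    · rw [cl_of_ge h2.le]; simp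
    · rw [cl_of_le (by linarith)]; simp

theorem cl_mul_nn (s : ℝ) : 0 ≤ cl s * nn s := by
  unfold nn
  rcases le_total s (-1) with h | h
  · rw [cl_of_le h]; nlinarith
  rcases le_total s 1 with h' | h'
  · rw [cl_of_mem h h']; simp
  · rw [cl_of_ge h']; nlinarith

theorem Wm_nonneg (m : Fin 3 → ℝ) : 0 ≤ Wm m := by
  have hK := K_ge (cl_abs (m 1)) (cl_abs (m 2))
  have h1 := cl_mul_nn (m 1)
  have h2 := cl_mul_nn (m 2)
  unfold Wm W
  rcases al_cases (m 1) with ha | ha <;> rcases al_cases (m 2) with hb | hb <;> rw [ha, hb]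
  · have := mul_nonneg (sq_nonneg (m 0)) (by linarith : 0 ≤ 1 - (cl (m 1) ^ 2 + cl (m 2) ^ 2) / 100)
    linarith
  · linarith
  · linarith
  · linarith

theorem Jd_det (m : Fin 3 → ℝ) : |(Jd m).det| = Wm m := by
  have h : (Jd m).det = -Wm m := by
    unfold Jd
    rw [LinearMap.det_toContinuousLinearMap, LinearMap.det_toLin']
    exact Mat_det _ _ _ _ _ _ _ (al_cases _) (al_cases _) (al_nn _) (al_nn _)
  rw [h, abs_neg, abs_of_nonneg (Wm_nonneg m)]

theorem M0_compl_null : volume (M0ᶜ) = 0 := by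
  have h : M0ᶜ ⊆ ({m : Fin 3 → ℝ | m 0 = 0} ∪ ({m | m 1 = 1} ∪ {m | m 1 = -1})) ∪
      ({m | m 2 = 1} ∪ {m | m 2 = -1}) := by
    intro m hm
    by_contra hc
    simp only [mem_union, mem_ofPred_eq, not_or] at hc
    obtain ⟨⟨c0, c1, c2⟩, c3, c4⟩ := hc
    apply hm
    refine ⟨c0, ?_, ?_⟩
    · intro h
      rcases (abs_eq (by norm_num : (0:ℝ) ≤ 1)).mp h with h | h
      · exact c1 h
      · exact c2 h
    · intro h
      rcases (abs_eq (by norm_num : (0:ℝ) ≤ 1)).mp h with h | h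
      · exact c3 h
      · exact c4 h
  have hyp : ∀ (i : Fin 3) (c : ℝ), volume {m : Fin 3 → ℝ | m i = c} = 0 := by
    intro i c
    exact Measure.pi_hyperplane (fun _ : Fin 3 => (volume : Measure ℝ)) i c
  refine measure_mono_null h ?_
  rw [measure_union_null_iff, measure_union_null_iff, measure_union_null_iff, measure_union_null_iff]
  exact ⟨⟨hyp 0 0, hyp 1 1, hyp 1 (-1)⟩, hyp 2 1, hyp 2 (-1)⟩

/-- the three branches of the clamp -/
noncomputable def br (k : Fin 3) : ℝ → ℝ := fun s => ![-1, s, 1] k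

theorem br_diff (k : Fin 3) : Differentiable ℝ (br k) := by
  fin_cases k
  · exact differentiable_const (-1:ℝ)
  · exact differentiable_id
  · exact differentiable_const (1:ℝ)

theorem cl_br (s : ℝ) : ∃ k, cl s = br k s := by
  rcases le_total s (-1) with h | h
  · exact ⟨0, cl_of_le h⟩
  rcases le_total s 1 with h' | h'
  · exact ⟨1, cl_of_mem h h'⟩
  · exact ⟨2, cl_of_ge h'⟩

/-- smooth extension of a branch of the parametrization -/
noncomputable def PsiG (c1 c2 : ℝ → ℝ) (m : Fin 3 → ℝ) : Fin 3 → ℝ :=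
  ![-(m 0 * c2 (m 2)) - (m 1 - c1 (m 1)), -(m 0 * c1 (m 1)) + (m 2 - c2 (m 2)),
    m 0 * (1 + (c1 (m 1) ^ 2 + c2 (m 2) ^ 2) / 100)
      + (c2 (m 2) * (m 1 - c1 (m 1)) - c1 (m 1) * (m 2 - c2 (m 2))) / 50]

theorem PsiG_diff {c1 c2 : ℝ → ℝ} (h1 : Differentiable ℝ c1) (h2 : Differentiable ℝ c2) :
    Differentiable ℝ (PsiG c1 c2) := by
  rw [differentiable_pi]
  intro i
  have k1 : Differentiable ℝ (fun m : Fin 3 → ℝ => c1 (m 1)) := h1.comp (differentiable_apply 1)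
  have k2 : Differentiable ℝ (fun m : Fin 3 → ℝ => c2 (m 2)) := h2.comp (differentiable_apply 2)
  unfold PsiG
  fin_cases i
  · simp only [Fin.zero_eta, Matrix.cons_val]; fun_prop
  · simp only [Fin.mk_one, Matrix.cons_val]; fun_prop
  · simp only [Fin.reduceFinMk, Matrix.cons_val]; fun_prop

theorem Psi_image_null {s : Set (Fin 3 → ℝ)} (hs : volume s = 0) : volume (Psi '' s) = 0 := by
  have h : Psi '' s ⊆ ⋃ k : Fin 3, ⋃ l : Fin 3,
      Psi '' (s ∩ {m | cl (m 1) = br k (m 1) ∧ cl (m 2) = br l (m 2)}) := by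
    rintro _ ⟨m, hm, rfl⟩
    obtain ⟨k, hk⟩ := cl_br (m 1)
    obtain ⟨l, hl⟩ := cl_br (m 2)
    simp only [mem_iUnion]
    exact ⟨k, l, m, ⟨hm, hk, hl⟩, rfl⟩
  refine measure_mono_null h ?_
  rw [measure_iUnion_null_iff]
  intro k
  rw [measure_iUnion_null_iff]
  intro l
  apply addHaar_image_eq_zero_of_differentiableOn_of_addHaar_eq_zero
  · have hG : DifferentiableOn ℝ (PsiG (br k) (br l))
        (s ∩ {m | cl (m 1) = br k (m 1) ∧ cl (m 2) = br l (m 2)}) :=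
      (PsiG_diff (br_diff k) (br_diff l)).differentiableOn
    refine hG.congr ?_
    rintro m ⟨_, h1, h2⟩
    funext i
    fin_cases i
    · simp only [Psi, PsiT, PsiG, P0, nn, h1, h2, Fin.zero_eta, Matrix.cons_val]
    · simp only [Psi, PsiT, PsiG, P1, nn, h1, h2, Fin.mk_one, Matrix.cons_val]
    · simp only [Psi, PsiT, PsiG, P2, nn, h1, h2, Fin.reduceFinMk, Matrix.cons_val]
  · exact measure_mono_null inter_subset_left hs

theorem ae_mem_image : ∀ᵐ x : Fin 3 → ℝ, x ∈ Psi '' M0 := by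
  have h := Psi_image_null M0_compl_null
  rw [ae_iff]
  refine measure_mono_null ?_ h
  intro x hx
  obtain ⟨m, rfl⟩ := Psi_surj x
  refine ⟨m, ?_, rfl⟩
  intro hm
  exact hx ⟨m, hm, rfl⟩

theorem ae_mem_M0 : ∀ᵐ m : Fin 3 → ℝ, m ∈ M0 := by
  rw [ae_iff]; exact M0_compl_null

/-- the momentum field -/
noncomputable def PF (x : Fin 3 → ℝ) : Fin 3 → ℝ :=
  mom (qa (x 0) (x 1) (x 2)) (qb (x 0) (x 1) (x 2))

theorem PF_Psi {m : Fin 3 → ℝ} (hm : m ∈ M0) : PF (Psi m) = mom (cl (m 1)) (cl (m 2)) := by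
  have h := sol_unique (Sol_P (m 0) (m 1) (m 2)) (q_sol (P0 (m 0) (m 1) (m 2)) (P1 (m 0) (m 1) (m 2))
    (P2 (m 0) (m 1) (m 2))) (P_pos hm.1)
  unfold PF
  change mom (qa (P0 (m 0) (m 1) (m 2)) (P1 (m 0) (m 1) (m 2)) (P2 (m 0) (m 1) (m 2)))
    (qb (P0 (m 0) (m 1) (m 2)) (P1 (m 0) (m 1) (m 2)) (P2 (m 0) (m 1) (m 2))) = _
  rw [h.1, h.2]

/-- The momentum field is weakly divergence free. -/
theorem div_free (φ : (Fin 3 → ℝ) → ℝ) (hφ : ContDiff ℝ 1 φ) (hc : HasCompactSupport φ) :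
    ∫ x, fderiv ℝ φ x (PF x) = 0 := by
  have r1 : (volume : Measure (Fin 3 → ℝ)).restrict (Psi '' M0) = volume :=
    Measure.restrict_eq_self_of_ae_mem ae_mem_image
  have r2 : (volume : Measure (Fin 3 → ℝ)).restrict M0 = volume :=
    Measure.restrict_eq_self_of_ae_mem ae_mem_M0
  have h1 : ∫ x, fderiv ℝ φ x (PF x) = ∫ x in Psi '' M0, fderiv ℝ φ x (PF x) := by rw [r1]
  rw [h1, integral_image_eq_integral_abs_det_fderiv_smul volume M0_open.measurableSet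
    (fun m hm => (Psi_hasFDerivAt hm).hasFDerivWithinAt) Psi_injOn]
  have h2 : ∫ m in M0, |(Jd m).det| • fderiv ℝ φ (Psi m) (PF (Psi m)) =
      ∫ m in M0, (F0 φ (al (m 1)) (al (m 2)) m + F1 φ (al (m 1)) (al (m 2)) m
        + F2 φ (al (m 1)) (al (m 2)) m) := by
    apply setIntegral_congr_fun M0_open.measurableSet
    intro m hm
    simp only
    rw [Jd_det, PF_Psi hm]
    have hflux : Wm m • mom (cl (m 1)) (cl (m 2)) =
        V0 (al (m 1)) (al (m 2)) (m 0) (cl (m 1)) (cl (m 2)) (nn (m 1)) (nn (m 2))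
          • dt (al (m 1)) (al (m 2)) (m 0) (cl (m 1)) (cl (m 2)) (nn (m 1)) (nn (m 2))
        + V1 (al (m 1)) (al (m 2)) (m 0) (cl (m 1)) (cl (m 2)) (nn (m 1)) (nn (m 2))
          • dp (al (m 1)) (al (m 2)) (m 0) (cl (m 1)) (cl (m 2)) (nn (m 1)) (nn (m 2))
        + V2 (al (m 1)) (al (m 2)) (m 0) (cl (m 1)) (cl (m 2)) (nn (m 1)) (nn (m 2))
          • dr (al (m 1)) (al (m 2)) (m 0) (cl (m 1)) (cl (m 2)) (nn (m 1)) (nn (m 2)) := by
      funext i
      simp only [Pi.add_apply, Pi.smul_apply, smul_eq_mul, Wm]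
      exact flux_identity (cl_abs _) (cl_abs _) (al_mem hm.2.1) (al_mem hm.2.2) (al_nn _) (al_nn _) i
    rw [← ContinuousLinearMap.map_smul, hflux, map_add, map_add, map_smul, map_smul, map_smul]
    unfold F0 F1 F2
    have hE := E_sum (al (m 1)) (al (m 2)) (m 0) (cl (m 1)) (cl (m 2)) (nn (m 1)) (nn (m 2))
    simp only [smul_eq_mul]
    linear_combination (-(φ (Psi m))) * hE
  rw [h2, r2, integral_add, integral_add, F0_zero φ hφ hc, F1_zero φ hφ hc, F2_zero φ hφ hc]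
  · norm_num
  · exact F0_int φ hφ hc
  · exact F1_int φ hφ hc
  · exact (F0_int φ hφ hc).add (F1_int φ hφ hc)
  · exact F2_int φ hφ hc

end Pool.Agent.H231.R3
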