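import Mathlib

/-!
# Data of a non-`C¹` Lipschitz minimizer of a strictly convex functional in dimension three

`(a, b)` ranges over the square `[-1, 1]²`; `(g1, g2, g3)` is the gradient surface, `el` is the value
of the Lagrangian on it, `(c1, c2, c3)` is the subgradient at interior points and corners,
`(s1 a, j * s2 a, j * s3 a)` the one on the open edge `b = j`.
-/

set_option autoImplicit false

namespace Pool.Agent.H231.R3

/-- first component of the gradient surface -/
noncomputable def g1 (a b : ℝ) : ℝ := a + (a * b ^ 2 - a ^ 3 / 3) / 100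
/-- second component of the gradient surface -/
noncomputable def g2 (a b : ℝ) : ℝ := b + (a ^ 2 * b - b ^ 3 / 3) / 100
/-- third component of the gradient surface -/
noncomputable def g3 (a b : ℝ) : ℝ := a * b

/-- the Lagrangian on the gradient surface -/
noncomputable def el (a b : ℝ) : ℝ :=
  (a ^ 2 + b ^ 2) / 2 + (a ^ 4 - 6 * a ^ 2 * b ^ 2 + b ^ 4) / 600 - (a ^ 2 + b ^ 2) ^ 3 / 36000
    + a ^ 2 * b ^ 2 / 25

/-- first component of the interior momentum -/
noncomputable def c1 (a b : ℝ) : ℝ := a + (a ^ 3 / 3 - a * b ^ 2) / 20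
/-- second component of the interior momentum -/
noncomputable def c2 (a b : ℝ) : ℝ := b + (b ^ 3 / 3 - a ^ 2 * b) / 20
/-- third component of the interior momentum -/
noncomputable def c3 (a b : ℝ) : ℝ := 2 / 25 * (a * b)

/-- first component of the edge momentum -/
noncomputable def s1 (a : ℝ) : ℝ := a ^ 3 / 6 - 19 / 10 * a
/-- second component of the edge momentum -/
noncomputable def s2 (a : ℝ) : ℝ := a ^ 4 / 8 - 19 / 20 * a ^ 2 + 6359 / 120
/-- third component of the edge momentum -/
noncomputable def s3 (a : ℝ) : ℝ := -(a ^ 5 / 1000) - 81 / 500 * a ^ 3 + 1919 / 1000 * a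

/-- derivative in `a` of `x · (g1, g2, g3)` -/
noncomputable def Fa (x y z a b : ℝ) : ℝ :=
  (1 + (b ^ 2 - a ^ 2) / 100) * x + a * b / 50 * y + b * z

/-- derivative in `b` of `x · (g1, g2, g3)` -/
noncomputable def Fb (x y z a b : ℝ) : ℝ :=
  a * b / 50 * x + (1 + (a ^ 2 - b ^ 2) / 100) * y + a * z

/-- `x · (g1, g2, g3)` -/
noncomputable def FF (x y z a b : ℝ) : ℝ := x * g1 a b + y * g2 a b + z * g3 a b

/-- The variational inequality: `(a, b)` is a saddle critical point of `FF x y z` over the square. -/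
structure Sol (x y z a b : ℝ) : Prop where
  a1 : -1 ≤ a
  a2 : a ≤ 1
  b1 : -1 ≤ b
  b2 : b ≤ 1
  fa1 : 0 ≤ Fa x y z a b * (1 - a)
  fa2 : Fa x y z a b * (1 + a) ≤ 0
  fb1 : Fb x y z a b * (1 - b) ≤ 0
  fb2 : 0 ≤ Fb x y z a b * (1 + b)

end Pool.Agent.H231.R3
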