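import Pool.Agent.H231.R3.Change

set_option autoImplicit false

namespace Pool.Agent.H231.R3

open MeasureTheory Set Filter Topology

/-! ### the three directional integrals -/

variable (φ : (Fin 3 → ℝ) → ℝ)

/-- integrand in direction `t` -/
noncomputable def F0 (α β : ℝ) (m : Fin 3 → ℝ) : ℝ :=
  E0 α β (m 0) (cl (m 1)) (cl (m 2)) (nn (m 1)) (nn (m 2)) * φ (Psi m)
  + V0 α β (m 0) (cl (m 1)) (cl (m 2)) (nn (m 1)) (nn (m 2))
    * fderiv ℝ φ (Psi m) (dt α β (m 0) (cl (m 1)) (cl (m 2)) (nn (m 1)) (nn (m 2)))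
/-- integrand in direction `p` -/
noncomputable def F1 (α β : ℝ) (m : Fin 3 → ℝ) : ℝ :=
  E1 α β (m 0) (cl (m 1)) (cl (m 2)) (nn (m 1)) (nn (m 2)) * φ (Psi m)
  + V1 α β (m 0) (cl (m 1)) (cl (m 2)) (nn (m 1)) (nn (m 2))
    * fderiv ℝ φ (Psi m) (dp α β (m 0) (cl (m 1)) (cl (m 2)) (nn (m 1)) (nn (m 2)))
/-- integrand in direction `r` -/
noncomputable def F2 (α β : ℝ) (m : Fin 3 → ℝ) : ℝ :=
  E2 α β (m 0) (cl (m 1)) (cl (m 2)) (nn (m 1)) (nn (m 2)) * φ (Psi m)
  + V2 α β (m 0) (cl (m 1)) (cl (m 2)) (nn (m 1)) (nn (m 2))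
    * fderiv ℝ φ (Psi m) (dr α β (m 0) (cl (m 1)) (cl (m 2)) (nn (m 1)) (nn (m 2)))

theorem Psi_cont : Continuous Psi := by
  have h1 := cl_cont
  have h2 := nn_cont
  unfold Psi PsiT P0 P1 P2
  refine continuous_pi fun i => ?_
  fin_cases i
  · simp only [Fin.zero_eta, Matrix.cons_val]; fun_prop
  · simp only [Fin.mk_one, Matrix.cons_val]; fun_prop
  · simp only [Fin.reduceFinMk, Matrix.cons_val]; fun_prop

theorem exists_radius (hc : HasCompactSupport φ) : ∃ R : ℝ, 0 ≤ R ∧ ∀ m : Fin 3 → ℝ, ∀ i, R < |m i| →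
    Psi m ∉ tsupport φ := by
  obtain ⟨R, hR⟩ := hc.isCompact.isBounded.exists_norm_le
  refine ⟨1 + 9 * |R|, by positivity, fun m i hi hm => ?_⟩
  have hn := hR _ hm
  have hn' := hn.trans (le_abs_self R)
  have b := P_bound (m 0) (m 1) (m 2)
  have n0 := norm_le_pi_norm (Psi m) 0
  have n1 := norm_le_pi_norm (Psi m) 1
  have n2 := norm_le_pi_norm (Psi m) 2
  simp only [Psi, PsiT, Real.norm_eq_abs, Matrix.cons_val] at n0 n1 n2
  have c1 : |m 1| ≤ 1 + |nn (m 1)| := by
    have h : m 1 = cl (m 1) + nn (m 1) := by unfold nn; ring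
    have h2 := abs_add_le (cl (m 1)) (nn (m 1))
    rw [← h] at h2
    linarith [cl_abs (m 1)]
  have c2 : |m 2| ≤ 1 + |nn (m 2)| := by
    have h : m 2 = cl (m 2) + nn (m 2) := by unfold nn; ring
    have h2 := abs_add_le (cl (m 2)) (nn (m 2))
    rw [← h] at h2
    linarith [cl_abs (m 2)]
  have hn0 : ‖Psi m‖ ≤ |R| := hn'
  change |P0 (m 0) (m 1) (m 2)| ≤ ‖Psi m‖ at n0
  change |P1 (m 0) (m 1) (m 2)| ≤ ‖Psi m‖ at n1
  change |P2 (m 0) (m 1) (m 2)| ≤ ‖Psi m‖ at n2
  have b0 := abs_nonneg (m 0)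
  fin_cases i
  · simp only [Fin.zero_eta] at hi; linarith [b.1]
  · simp only [Fin.mk_one] at hi; linarith [b.2.1]
  · simp only [Fin.reduceFinMk] at hi; linarith [b.2.2]

theorem fderiv_zero_of_notMem {x : Fin 3 → ℝ} (hx : x ∉ tsupport φ) : fderiv ℝ φ x = 0 := by
  have : φ =ᶠ[𝓝 x] fun _ => 0 := notMem_tsupport_iff_eventuallyEq.mp hx
  rw [this.fderiv_eq]
  simp

theorem F_zero {x : Fin 3 → ℝ} (hx : x ∉ tsupport φ) (c d : ℝ) (v : Fin 3 → ℝ) :
    c * φ x + d * fderiv ℝ φ x v = 0 := by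
  rw [image_eq_zero_of_notMem_tsupport hx, fderiv_zero_of_notMem φ hx]
  simp

theorem cpt_of_radius {F : (Fin 3 → ℝ) → ℝ} {R : ℝ} (hR0 : 0 ≤ R)
    (h : ∀ m : Fin 3 → ℝ, ∀ i, R < |m i| → F m = 0) : HasCompactSupport F := by
  apply HasCompactSupport.intro (isCompact_closedBall (0 : Fin 3 → ℝ) R)
  intro m hm
  rw [mem_closedBall_zero_iff, pi_norm_le_iff_of_nonneg hR0] at hm
  push Not at hm
  obtain ⟨i, hi⟩ := hm
  exact h m i hi

theorem F_cont (hφ : ContDiff ℝ 1 φ) (c d : ℝ → (Fin 3 → ℝ) → ℝ) (α : ℝ) (v : (Fin 3 → ℝ) → (Fin 3 → ℝ))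
    (hc : Continuous (c α)) (hd : Continuous (d α)) (hv : Continuous v) :
    Continuous (fun m => c α m * φ (Psi m) + d α m * fderiv ℝ φ (Psi m) (v m)) := by
  have h1 : Continuous (fun m => φ (Psi m)) := hφ.continuous.comp Psi_cont
  have h2 : Continuous (fun m => fderiv ℝ φ (Psi m)) :=
    (hφ.continuous_fderiv (by norm_num)).comp Psi_cont
  exact (hc.mul h1).add (hd.mul (h2.clm_apply hv))

theorem F0_int (hφ : ContDiff ℝ 1 φ) (hc : HasCompactSupport φ) :
    Integrable (fun m => F0 φ (al (m 1)) (al (m 2)) m) := by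
  obtain ⟨R, hR0, hR⟩ := exists_radius φ hc
  have k1 := cl_cont
  have k2 := nn_cont
  apply integrable_pat (F0 φ)
  · intro α β
    unfold F0
    apply F_cont φ hφ (fun α m => E0 α β (m 0) (cl (m 1)) (cl (m 2)) (nn (m 1)) (nn (m 2)))
      (fun α m => V0 α β (m 0) (cl (m 1)) (cl (m 2)) (nn (m 1)) (nn (m 2))) α
    · unfold E0 lab; fun_prop
    · unfold V0 lab laaa; fun_prop
    · unfold dt
      refine continuous_pi fun i => ?_
      fin_cases i
      · simp only [Fin.zero_eta, Matrix.cons_val]; fun_prop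
      · simp only [Fin.mk_one, Matrix.cons_val]; fun_prop
      · simp only [Fin.reduceFinMk, Matrix.cons_val]; fun_prop
  · intro α β
    exact cpt_of_radius hR0 fun m i hi => F_zero φ (hR m i hi) _ _ _

theorem F1_int (hφ : ContDiff ℝ 1 φ) (hc : HasCompactSupport φ) :
    Integrable (fun m => F1 φ (al (m 1)) (al (m 2)) m) := by
  obtain ⟨R, hR0, hR⟩ := exists_radius φ hc
  have k1 := cl_cont
  have k2 := nn_cont
  apply integrable_pat (F1 φ)
  · intro α β
    unfold F1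
    apply F_cont φ hφ (fun α m => E1 α β (m 0) (cl (m 1)) (cl (m 2)) (nn (m 1)) (nn (m 2)))
      (fun α m => V1 α β (m 0) (cl (m 1)) (cl (m 2)) (nn (m 1)) (nn (m 2))) α
    · unfold E1 lab laa; fun_prop
    · unfold V1 la laa; fun_prop
    · unfold dp
      refine continuous_pi fun i => ?_
      fin_cases i
      · simp only [Fin.zero_eta, Matrix.cons_val]; fun_prop
      · simp only [Fin.mk_one, Matrix.cons_val]; fun_prop
      · simp only [Fin.reduceFinMk, Matrix.cons_val]; fun_prop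
  · intro α β
    exact cpt_of_radius hR0 fun m i hi => F_zero φ (hR m i hi) _ _ _

theorem F2_int (hφ : ContDiff ℝ 1 φ) (hc : HasCompactSupport φ) :
    Integrable (fun m => F2 φ (al (m 1)) (al (m 2)) m) := by
  obtain ⟨R, hR0, hR⟩ := exists_radius φ hc
  have k1 := cl_cont
  have k2 := nn_cont
  apply integrable_pat (F2 φ)
  · intro α β
    unfold F2
    apply F_cont φ hφ (fun α m => E2 α β (m 0) (cl (m 1)) (cl (m 2)) (nn (m 1)) (nn (m 2)))
      (fun α m => V2 α β (m 0) (cl (m 1)) (cl (m 2)) (nn (m 1)) (nn (m 2))) α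
    · unfold E2 lab laa; fun_prop
    · unfold V2 la laa; fun_prop
    · unfold dr
      refine continuous_pi fun i => ?_
      fin_cases i
      · simp only [Fin.zero_eta, Matrix.cons_val]; fun_prop
      · simp only [Fin.mk_one, Matrix.cons_val]; fun_prop
      · simp only [Fin.reduceFinMk, Matrix.cons_val]; fun_prop
  · intro α β
    exact cpt_of_radius hR0 fun m i hi => F_zero φ (hR m i hi) _ _ _

theorem PsiT_cont (f g h : ℝ → ℝ) (hf : Continuous f) (hg : Continuous g) (hh : Continuous h) :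
    Continuous (fun s => PsiT (f s) (g s) (h s)) := by
  have e : (fun s => PsiT (f s) (g s) (h s)) = Psi ∘ (fun s => ![f s, g s, h s]) := by
    funext s; simp [Psi, Function.comp]
  rw [e]
  apply Psi_cont.comp
  refine continuous_pi fun i => ?_
  fin_cases i
  · exact hf
  · exact hg
  · exact hh

theorem F0_zero (hφ : ContDiff ℝ 1 φ) (hc : HasCompactSupport φ) :
    ∫ m, F0 φ (al (m 1)) (al (m 2)) m = 0 := by
  obtain ⟨R, hR0, hR⟩ := exists_radius φ hc
  have k1 := cl_cont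
  have k2 := nn_cont
  apply slice_zero _ (F0_int φ hφ hc) 0
    (fun y s => V0 (al (y 0)) (al (y 1)) s (cl (y 0)) (cl (y 1)) (nn (y 0)) (nn (y 1))
      * φ (PsiT s (y 0) (y 1))) R
  · intro y
    apply Continuous.mul
    · unfold V0 lab laaa; fun_prop
    · exact hφ.continuous.comp (PsiT_cont _ _ _ continuous_id continuous_const continuous_const)
  · intro y s hs1 hs2
    have h1 := dV0 (y 0) (y 1) s
    have h2 := ((hφ.differentiable (by norm_num)) (PsiT s (y 0) (y 1))).hasFDerivAt.comp_hasDerivAt s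
      (hd_t s (y 0) (y 1))
    exact h1.mul h2
  · intro y s hs
    have hm := hR ((0 : Fin 3).insertNth (α := fun _ => ℝ) s y) 0 hs
    refine ⟨F_zero φ hm _ _ _, ?_⟩
    have : φ (PsiT s (y 0) (y 1)) = 0 := image_eq_zero_of_notMem_tsupport hm
    simp only [this, mul_zero]

theorem F1_zero (hφ : ContDiff ℝ 1 φ) (hc : HasCompactSupport φ) :
    ∫ m, F1 φ (al (m 1)) (al (m 2)) m = 0 := by
  obtain ⟨R, hR0, hR⟩ := exists_radius φ hc
  have k1 := cl_cont
  have k2 := nn_cont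
  apply slice_zero _ (F1_int φ hφ hc) 1
    (fun y s => V1 (al s) (al (y 1)) (y 0) (cl s) (cl (y 1)) (nn s) (nn (y 1))
      * φ (PsiT (y 0) s (y 1))) R
  · intro y
    apply Continuous.mul
    · unfold V1 la laa; fun_prop
    · exact hφ.continuous.comp (PsiT_cont _ _ _ continuous_const continuous_id continuous_const)
  · intro y s hs1 hs2
    have h1 := dV1 (y 0) (y 1) s hs1 hs2
    have h2 := ((hφ.differentiable (by norm_num)) (PsiT (y 0) s (y 1))).hasFDerivAt.comp_hasDerivAt s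
      (hd_p (y 0) s (y 1) hs1 hs2)
    exact h1.mul h2
  · intro y s hs
    have hm := hR ((1 : Fin 3).insertNth (α := fun _ => ℝ) s y) 1 hs
    refine ⟨F_zero φ hm _ _ _, ?_⟩
    have : φ (PsiT (y 0) s (y 1)) = 0 := image_eq_zero_of_notMem_tsupport hm
    simp only [this, mul_zero]

theorem F2_zero (hφ : ContDiff ℝ 1 φ) (hc : HasCompactSupport φ) :
    ∫ m, F2 φ (al (m 1)) (al (m 2)) m = 0 := by
  obtain ⟨R, hR0, hR⟩ := exists_radius φ hc
  have k1 := cl_cont
  have k2 := nn_cont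
  apply slice_zero _ (F2_int φ hφ hc) 2
    (fun y s => V2 (al (y 1)) (al s) (y 0) (cl (y 1)) (cl s) (nn (y 1)) (nn s)
      * φ (PsiT (y 0) (y 1) s)) R
  · intro y
    apply Continuous.mul
    · unfold V2 la laa; fun_prop
    · exact hφ.continuous.comp (PsiT_cont _ _ _ continuous_const continuous_const continuous_id)
  · intro y s hs1 hs2
    have h1 := dV2 (y 0) (y 1) s hs1 hs2
    have h2 := ((hφ.differentiable (by norm_num)) (PsiT (y 0) (y 1) s)).hasFDerivAt.comp_hasDerivAt s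
      (hd_r (y 0) (y 1) s hs1 hs2)
    exact h1.mul h2
  · intro y s hs
    have hm := hR ((2 : Fin 3).insertNth (α := fun _ => ℝ) s y) 2 hs
    refine ⟨F_zero φ hm _ _ _, ?_⟩
    have : φ (PsiT (y 0) (y 1) s) = 0 := image_eq_zero_of_notMem_tsupport hm
    simp only [this, mul_zero]

end Pool.Agent.H231.R3
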