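import Pool.Agent.H231.R3.Defs

set_option autoImplicit false

namespace Pool.Agent.H231.R3

theorem ivt_up {f : ℝ → ℝ} (hf : Continuous f) {p q : ℝ} (hpq : p ≤ q) (h1 : f p ≤ 0) (h2 : 0 ≤ f q) :
    ∃ c, p ≤ c ∧ c ≤ q ∧ f c = 0 := by
  have := intermediate_value_Icc hpq hf.continuousOn
  obtain ⟨c, hc, hc'⟩ := this ⟨h1, h2⟩
  exact ⟨c, hc.1, hc.2, hc'⟩

theorem ivt_down {f : ℝ → ℝ} (hf : Continuous f) {p q : ℝ} (hpq : p ≤ q) (h1 : 0 ≤ f p) (h2 : f q ≤ 0) :
    ∃ c, p ≤ c ∧ c ≤ q ∧ f c = 0 := by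
  have := intermediate_value_Icc' hpq hf.continuousOn
  obtain ⟨c, hc, hc'⟩ := this ⟨h2, h1⟩
  exact ⟨c, hc.1, hc.2, hc'⟩

theorem Sol.of_zero {x y z a b : ℝ} (a1 : -1 ≤ a) (a2 : a ≤ 1) (b1 : -1 ≤ b) (b2 : b ≤ 1)
    (ha : Fa x y z a b = 0) (hb : Fb x y z a b = 0) : Sol x y z a b :=
  ⟨a1, a2, b1, b2, by rw [ha]; simp, by rw [ha]; simp, by rw [hb]; simp, by rw [hb]; simp⟩

theorem cap_sol {y z b : ℝ} (b1 : -1 ≤ b) (b2 : b ≤ 1) (yb1 : -1 ≤ y * b) (yb2 : y * b ≤ 1)
    (h : (1 + y ^ 2) / 100 * b ^ 2 - z * b + 1 = 0) : Sol (-1) y z (-(y * b)) b := by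
  apply Sol.of_zero (by linarith) (by linarith) b1 b2
  · unfold Fa
    linear_combination (-1) * h
  · unfold Fb
    linear_combination y * h

theorem edge_b1 {y z a : ℝ} (a1 : -1 ≤ a) (a2 : a ≤ 1) (hy : 0 ≤ a + y)
    (h : a ^ 2 / 100 + 2 * y * a / 100 + (z - 1 - 1 / 100) = 0) : Sol (-1) y z a 1 := by
  have hF : Fa (-1) y z a 1 = 0 := by unfold Fa; linear_combination h
  have hG : 0 ≤ Fb (-1) y z a 1 := by
    have : Fb (-1) y z a 1 = (a + y) * (1 - 1 / 100 - a ^ 2 / 100) := by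
      unfold Fb; linear_combination a * h
    rw [this]
    apply mul_nonneg hy
    nlinarith
  exact ⟨a1, a2, by norm_num, le_rfl, by rw [hF]; simp, by rw [hF]; simp, by simp, by linarith⟩

theorem edge_b0 {y z a : ℝ} (a1 : -1 ≤ a) (a2 : a ≤ 1) (hy : y ≤ a)
    (h : a ^ 2 / 100 - 2 * y * a / 100 - (z + 1 + 1 / 100) = 0) : Sol (-1) y z a (-1) := by
  have hF : Fa (-1) y z a (-1) = 0 := by unfold Fa; linear_combination h
  have hG : Fb (-1) y z a (-1) ≤ 0 := by
    have : Fb (-1) y z a (-1) = -((a - y) * (1 - 1 / 100 - a ^ 2 / 100)) := by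
      unfold Fb; linear_combination (-a) * h
    rw [this]
    have : 0 ≤ (a - y) * (1 - 1 / 100 - a ^ 2 / 100) := by
      apply mul_nonneg (by linarith)
      nlinarith
    linarith
  exact ⟨a1, a2, le_rfl, by norm_num, by rw [hF]; simp, by rw [hF]; simp, by linarith, by simp⟩

theorem edge_a1 {y z b : ℝ} (b1 : -1 ≤ b) (b2 : b ≤ 1) (hy : 0 ≤ 1 + b * y)
    (h : (1 + 1 / 100 - b ^ 2 / 100) * y + z - 2 * b / 100 = 0) : Sol (-1) y z 1 b := by
  have hF : Fb (-1) y z 1 b = 0 := by unfold Fb; linear_combination h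
  have hG : Fa (-1) y z 1 b ≤ 0 := by
    have : Fa (-1) y z 1 b = -((1 + b * y) * (1 - 1 / 100 - b ^ 2 / 100)) := by
      unfold Fa; linear_combination b * h
    rw [this]
    have : 0 ≤ (1 + b * y) * (1 - 1 / 100 - b ^ 2 / 100) := by
      apply mul_nonneg hy
      nlinarith
    linarith
  exact ⟨by norm_num, le_rfl, b1, b2, by simp, by linarith, by rw [hF]; simp, by rw [hF]; simp⟩

theorem edge_a0 {y z b : ℝ} (b1 : -1 ≤ b) (b2 : b ≤ 1) (hy : 1 ≤ b * y)
    (h : (1 + 1 / 100 - b ^ 2 / 100) * y - z + 2 * b / 100 = 0) : Sol (-1) y z (-1) b := by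
  have hF : Fb (-1) y z (-1) b = 0 := by unfold Fb; linear_combination h
  have hG : 0 ≤ Fa (-1) y z (-1) b := by
    have : Fa (-1) y z (-1) b = (b * y - 1) * (1 - 1 / 100 - b ^ 2 / 100) := by
      unfold Fa; linear_combination (-b) * h
    rw [this]
    apply mul_nonneg (by linarith)
    nlinarith
  exact ⟨le_rfl, by norm_num, b1, b2, by linarith, by simp, by rw [hF]; simp, by rw [hF]; simp⟩

theorem col1 {y z : ℝ} (hy0 : 0 ≤ y) (hy1 : y ≤ 1) : ∃ a b, Sol (-1) y z a b := by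
  rcases le_total (1 + 1 / 100 + y ^ 2 / 100) z with h1 | h1
  · obtain ⟨b, hb0, hb1, hb⟩ := ivt_down (f := fun b => (1 + y ^ 2) / 100 * b ^ 2 - z * b + 1)
      (by fun_prop) (zero_le_one) (by norm_num) (by linarith)
    exact ⟨_, b, cap_sol (by linarith) hb1 (by nlinarith) (by nlinarith) hb⟩
  rcases le_total (1 - 2 * y / 100) z with h2 | h2
  · obtain ⟨a, ha0, ha1, ha⟩ := ivt_up (f := fun a => a ^ 2 / 100 + 2 * y * a / 100 + (z - 1 - 1 / 100))
      (by fun_prop) (show -y ≤ 1 by linarith) (by nlinarith) (by linarith)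
    exact ⟨a, 1, edge_b1 (by linarith) ha1 (by linarith) ha⟩
  rcases le_total (2 / 100 - y) z with h3 | h3
  · refine ⟨1, 1, by norm_num, le_rfl, by norm_num, le_rfl, by simp, ?_, by simp, ?_⟩
    · unfold Fa; linarith
    · unfold Fb; linarith
  rcases le_total (-(2 / 100) - y) z with h4 | h4
  · obtain ⟨b, hb0, hb1, hb⟩ := ivt_down (f := fun b => (1 + 1 / 100 - b ^ 2 / 100) * y + z - 2 * b / 100)
      (by fun_prop) (show (-1:ℝ) ≤ 1 by norm_num) (by linarith) (by linarith)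
    exact ⟨1, b, edge_a1 hb0 hb1 (by nlinarith) hb⟩
  rcases le_total (-1 - 2 * y / 100) z with h5 | h5
  · refine ⟨1, -1, by norm_num, le_rfl, le_rfl, by norm_num, by simp, ?_, ?_, by simp⟩
    · unfold Fa; linarith
    · unfold Fb; linarith
  rcases le_total (-(1 + 1 / 100 + y ^ 2 / 100)) z with h6 | h6
  · obtain ⟨a, ha0, ha1, ha⟩ := ivt_up (f := fun a => a ^ 2 / 100 - 2 * y * a / 100 - (z + 1 + 1 / 100))
      (by fun_prop) hy1 (by nlinarith) (by linarith)
    exact ⟨a, -1, edge_b0 (by linarith) ha1 ha0 ha⟩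
  · obtain ⟨b, hb0, hb1, hb⟩ := ivt_up (f := fun b => (1 + y ^ 2) / 100 * b ^ 2 - z * b + 1)
      (by fun_prop) (show (-1:ℝ) ≤ 0 by norm_num) (by linarith) (by norm_num)
    exact ⟨_, b, cap_sol hb0 (by linarith) (by nlinarith) (by nlinarith) hb⟩

theorem col2 {y z : ℝ} (hy1 : 1 ≤ y) : ∃ a b, Sol (-1) y z a b := by
  have hy0 : 0 < y := by linarith
  have hyi : 0 < 1 / y := by positivity
  have hyi1 : 1 / y ≤ 1 := by rw [div_le_one hy0]; exact hy1
  have hyy : y * (1 / y) = 1 := by field_simp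
  rcases le_total ((1 + 1 / 100) * y + 1 / y / 100) z with h1 | h1
  · obtain ⟨b, hb0, hb1, hb⟩ := ivt_down (f := fun b => (1 + y ^ 2) / 100 * b ^ 2 - z * b + 1)
      (by fun_prop) (show (0:ℝ) ≤ 1 / y by positivity) (by norm_num) (by
        have : (1 + y ^ 2) / 100 * (1 / y) ^ 2 - z * (1 / y) + 1
          = -((z - ((1 + 1 / 100) * y + 1 / y / 100)) * (1 / y)) := by
            field_simp; ring
        rw [this]
        have := mul_nonneg (sub_nonneg.mpr h1) hyi.le
        linarith)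
    have e1 : y * b ≤ 1 := by
      have := mul_le_mul_of_nonneg_left hb1 hy0.le; linarith
    exact ⟨_, b, cap_sol (by linarith) (by linarith) (by nlinarith) e1 hb⟩
  rcases le_total (y + 2 / 100) z with h2 | h2
  · obtain ⟨b, hb0, hb1, hb⟩ := ivt_down (f := fun b => (1 + 1 / 100 - b ^ 2 / 100) * y - z + 2 * b / 100)
      (by fun_prop) hyi1 (by
        have : (1 + 1 / 100 - (1 / y) ^ 2 / 100) * y - z + 2 * (1 / y) / 100
          = ((1 + 1 / 100) * y + 1 / y / 100) - z := by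
            field_simp; ring
        rw [this]; linarith) (by linarith)
    have e1 : 1 ≤ b * y := by
      have := mul_le_mul_of_nonneg_left hb0 hy0.le; linarith
    exact ⟨-1, b, edge_a0 (by linarith) hb1 e1 hb⟩
  rcases le_total (1 + 2 * y / 100) z with h3 | h3
  · refine ⟨-1, 1, le_rfl, by norm_num, by norm_num, le_rfl, ?_, by simp, by simp, ?_⟩
    · unfold Fa; linarith
    · unfold Fb; linarith
  rcases le_total (1 - 2 * y / 100) z with h4 | h4
  · obtain ⟨a, ha0, ha1, ha⟩ := ivt_up (f := fun a => a ^ 2 / 100 + 2 * y * a / 100 + (z - 1 - 1 / 100))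
      (by fun_prop) (show (-1:ℝ) ≤ 1 by norm_num) (by linarith) (by linarith)
    exact ⟨a, 1, edge_b1 (by linarith) ha1 (by linarith) ha⟩
  rcases le_total (2 / 100 - y) z with h5 | h5
  · refine ⟨1, 1, by norm_num, le_rfl, by norm_num, le_rfl, by simp, ?_, by simp, ?_⟩
    · unfold Fa; linarith
    · unfold Fb; linarith
  rcases le_total (-((1 + 1 / 100) * y + 1 / y / 100)) z with h6 | h6
  · obtain ⟨b, hb0, hb1, hb⟩ := ivt_down (f := fun b => (1 + 1 / 100 - b ^ 2 / 100) * y + z - 2 * b / 100)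
      (by fun_prop) (show -(1 / y) ≤ 1 by linarith) (by
        have : (1 + 1 / 100 - (-(1 / y)) ^ 2 / 100) * y + z - 2 * (-(1 / y)) / 100
          = ((1 + 1 / 100) * y + 1 / y / 100) + z := by
            field_simp; ring
        rw [this]; linarith) (by linarith)
    have e1 : 0 ≤ 1 + b * y := by
      have := mul_le_mul_of_nonneg_left hb0 hy0.le; linarith
    exact ⟨1, b, edge_a1 (by linarith) hb1 e1 hb⟩
  · obtain ⟨b, hb0, hb1, hb⟩ := ivt_up (f := fun b => (1 + y ^ 2) / 100 * b ^ 2 - z * b + 1)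
      (by fun_prop) (show -(1 / y) ≤ 0 by linarith) (by
        have : (1 + y ^ 2) / 100 * (-(1 / y)) ^ 2 - z * (-(1 / y)) + 1
          = -((-((1 + 1 / 100) * y + 1 / y / 100) - z) * (1 / y)) := by
            field_simp; ring
        rw [this]
        have := mul_nonneg (sub_nonneg.mpr h6) hyi.le
        linarith) (by norm_num)
    have e1 : -1 ≤ y * b := by
      have := mul_le_mul_of_nonneg_left hb0 hy0.le; linarith
    exact ⟨_, b, cap_sol (by linarith) (by linarith) e1 (by nlinarith) hb⟩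

theorem Sol.refl_R {x y z a b : ℝ} (h : Sol x y z a b) : Sol x (-y) (-z) a (-b) := by
  have e1 : Fa x (-y) (-z) a (-b) = Fa x y z a b := by unfold Fa; ring
  have e2 : Fb x (-y) (-z) a (-b) = -Fb x y z a b := by unfold Fb; ring
  refine ⟨h.a1, h.a2, by linarith [h.b2], by linarith [h.b1], ?_, ?_, ?_, ?_⟩
  · rw [e1]; exact h.fa1
  · rw [e1]; exact h.fa2
  · rw [e2]; linarith [h.fb2]
  · rw [e2]; linarith [h.fb1]

theorem Sol.rot {x y z a b : ℝ} (h : Sol x y z a b) : Sol y (-x) z (-b) a := by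
  have e1 : Fa y (-x) z (-b) a = Fb x y z a b := by unfold Fa Fb; ring
  have e2 : Fb y (-x) z (-b) a = -Fa x y z a b := by unfold Fa Fb; ring
  refine ⟨by linarith [h.b2], by linarith [h.b1], h.a1, h.a2, ?_, ?_, ?_, ?_⟩
  · rw [e1]; linarith [h.fb2]
  · rw [e1]; linarith [h.fb1]
  · rw [e2]; linarith [h.fa1]
  · rw [e2]; linarith [h.fa2]

theorem Sol.smul {x y z a b c : ℝ} (hc : 0 ≤ c) (h : Sol x y z a b) : Sol (c * x) (c * y) (c * z) a b := by
  have e1 : Fa (c * x) (c * y) (c * z) a b = c * Fa x y z a b := by unfold Fa; ring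
  have e2 : Fb (c * x) (c * y) (c * z) a b = c * Fb x y z a b := by unfold Fb; ring
  refine ⟨h.a1, h.a2, h.b1, h.b2, ?_, ?_, ?_, ?_⟩
  · rw [e1]; nlinarith [mul_nonneg hc h.fa1]
  · rw [e1]; nlinarith [mul_nonneg hc (neg_nonneg.mpr h.fa2)]
  · rw [e2]; nlinarith [mul_nonneg hc (neg_nonneg.mpr h.fb1)]
  · rw [e2]; nlinarith [mul_nonneg hc h.fb2]

theorem chart (y z : ℝ) : ∃ a b, Sol (-1) y z a b := by
  have pos : ∀ y z : ℝ, 0 ≤ y → ∃ a b, Sol (-1) y z a b := by
    intro y z hy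
    rcases le_total y 1 with h | h
    · exact col1 hy h
    · exact col2 h
  rcases le_total 0 y with h | h
  · exact pos y z h
  · obtain ⟨a, b, hs⟩ := pos (-y) (-z) (by linarith)
    have := hs.refl_R
    rw [neg_neg, neg_neg] at this
    exact ⟨_, _, this⟩

theorem sol_neg {x y z : ℝ} (hx : x < 0) : ∃ a b, Sol x y z a b := by
  obtain ⟨a, b, h⟩ := chart (y / (-x)) (z / (-x))
  have h' := h.smul (c := -x) (by linarith)
  have hx' : -x ≠ 0 := by linarith
  rw [show -x * -1 = x by ring, mul_div_cancel₀ _ hx', mul_div_cancel₀ _ hx'] at h'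
  exact ⟨a, b, h'⟩

/-- Existence for the variational inequality. -/
theorem exists_sol (x y z : ℝ) : ∃ a b, Sol x y z a b := by
  rcases lt_trichotomy x 0 with hx | hx | hx
  · exact sol_neg hx
  · subst hx
    rcases lt_trichotomy y 0 with hy | hy | hy
    · -- (0, y, z) = rotation of (y, 0, z) three times; use y < 0 directly
      obtain ⟨a, b, h⟩ := sol_neg (x := y) (y := 0) (z := z) hy
      have := h.rot.rot.rot
      simp only [neg_zero, neg_neg] at this
      exact ⟨_, _, this⟩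
    · subst hy
      exact ⟨0, 0, Sol.of_zero (by norm_num) (by norm_num) (by norm_num) (by norm_num)
        (by unfold Fa; ring) (by unfold Fb; ring)⟩
    · obtain ⟨a, b, h⟩ := sol_neg (x := -y) (y := 0) (z := z) (by linarith)
      have := h.rot
      rw [neg_neg] at this
      exact ⟨_, _, this⟩
  · obtain ⟨a, b, h⟩ := sol_neg (x := -x) (y := -y) (z := z) (by linarith)
    have := h.rot.rot
    rw [neg_neg, neg_neg] at this
    exact ⟨_, _, this⟩

end Pool.Agent.H231.R3
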