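import Pool.Agent.H231.R3.Holder
import Pool.Agent.H231.R3.Exist

set_option autoImplicit false

namespace Pool.Agent.H231.R3

open Filter Topology

/-- first coordinate of the selected saddle point -/
noncomputable def qa (x y z : ℝ) : ℝ := Classical.choose (exists_sol x y z)
/-- second coordinate of the selected saddle point -/
noncomputable def qb (x y z : ℝ) : ℝ := Classical.choose (Classical.choose_spec (exists_sol x y z))

theorem q_sol (x y z : ℝ) : Sol x y z (qa x y z) (qb x y z) :=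
  Classical.choose_spec (Classical.choose_spec (exists_sol x y z))

theorem sol_unique {x y z a b A B : ℝ} (h1 : Sol x y z a b) (h2 : Sol x y z A B)
    (h0 : 0 < |x| + |y| + |z|) : A = a ∧ B = b := by
  have h := holder_full h1 h2
  simp only [sub_self, abs_zero, add_zero, mul_zero] at h
  have h3 : (|A - a| + |B - b|) ^ 2 ≤ 0 := by
    by_contra hc
    have := mul_pos h0 (not_le.mp hc)
    linarith
  have h4 : |A - a| + |B - b| = 0 := by
    have := le_antisymm h3 (sq_nonneg _)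
    exact pow_eq_zero_iff (two_ne_zero) |>.mp this
  have h5 := abs_nonneg (A - a)
  have h6 := abs_nonneg (B - b)
  have h7 : |A - a| = 0 := by linarith
  have h8 : |B - b| = 0 := by linarith
  exact ⟨by linarith [abs_eq_zero.mp h7], by linarith [abs_eq_zero.mp h8]⟩

/-- the three dimensional space -/
abbrev E3 : Type := EuclideanSpace ℝ (Fin 3)

theorem abs_coord_le (X : E3) (i : Fin 3) : |X i| ≤ ‖X‖ := by
  have := PiLp.norm_apply_le X i
  simpa using this

/-- coordinates of the saddle point -/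
noncomputable def QA (X : E3) : ℝ := qa (X 0) (X 1) (X 2)
/-- coordinates of the saddle point -/
noncomputable def QB (X : E3) : ℝ := qb (X 0) (X 1) (X 2)

theorem Q_sol (X : E3) : Sol (X 0) (X 1) (X 2) (QA X) (QB X) := q_sol _ _ _

/-- the vector `(g1, g2, g3)` -/
noncomputable def Gam (a b : ℝ) : E3 := !₂[g1 a b, g2 a b, g3 a b]

/-- the minimizer -/
noncomputable def U (X : E3) : ℝ := FF (X 0) (X 1) (X 2) (QA X) (QB X)

theorem inner_eq3 (X Y : E3) : inner ℝ X Y = X 0 * Y 0 + X 1 * Y 1 + X 2 * Y 2 := by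
  rw [PiLp.inner_apply, Fin.sum_univ_three]
  simp only [RCLike.inner_apply, conj_trivial]
  ring

theorem inner_Gam (a b : ℝ) (X : E3) : inner ℝ (Gam a b) X = FF (X 0) (X 1) (X 2) a b := by
  rw [inner_eq3]
  simp only [Gam, FF]
  simp
  ring

theorem norm_ge (X : E3) (hX : X ≠ 0) : 0 < |X 0| + |X 1| + |X 2| := by
  by_contra hc
  have h0 := abs_nonneg (X 0)
  have h1 := abs_nonneg (X 1)
  have h2 := abs_nonneg (X 2)
  have e0 : X 0 = 0 := abs_eq_zero.mp (by linarith)
  have e1 : X 1 = 0 := abs_eq_zero.mp (by linarith)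
  have e2 : X 2 = 0 := abs_eq_zero.mp (by linarith)
  apply hX
  ext i
  fin_cases i
  · exact e0
  · exact e1
  · exact e2

theorem U_sub (X Y : E3) :
    |U Y - U X - inner ℝ (Gam (QA X) (QB X)) (Y - X)|
      ≤ 90 * ‖Y - X‖ * (|QA Y - QA X| + |QB Y - QB X|) := by
  have h := master (Q_sol X) (Q_sol Y)
  rw [inner_Gam]
  have e : U Y - U X - FF ((Y - X) 0) ((Y - X) 1) ((Y - X) 2) (QA X) (QB X)
      = FF (Y 0) (Y 1) (Y 2) (QA Y) (QB Y) - FF (Y 0) (Y 1) (Y 2) (QA X) (QB X) := by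
    simp only [PiLp.sub_apply]
    unfold U FF; ring
  rw [e]
  refine h.trans ?_
  have c0 := abs_coord_le (Y - X) 0
  have c1 := abs_coord_le (Y - X) 1
  have c2 := abs_coord_le (Y - X) 2
  simp only [PiLp.sub_apply] at c0 c1 c2
  apply mul_le_mul_of_nonneg_right _ (by positivity)
  linarith

theorem Q_holder (X Y : E3) :
    (|X 0| + |X 1| + |X 2|) * (|QA Y - QA X| + |QB Y - QB X|) ^ 2 ≤ 15000 * ‖Y - X‖ := by
  have h := holder_full (Q_sol X) (Q_sol Y)
  refine h.trans ?_
  have c0 := abs_coord_le (Y - X) 0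
  have c1 := abs_coord_le (Y - X) 1
  have c2 := abs_coord_le (Y - X) 2
  simp only [PiLp.sub_apply] at c0 c1 c2
  linarith

theorem Q_tendsto (X : E3) (hX : X ≠ 0) :
    Tendsto (fun Y => |QA Y - QA X| + |QB Y - QB X|) (𝓝 X) (𝓝 0) := by
  have hN := norm_ge X hX
  set N := |X 0| + |X 1| + |X 2| with hNdef
  have h1 : Tendsto (fun Y : E3 => Real.sqrt (15000 / N * ‖Y - X‖)) (𝓝 X) (𝓝 0) := by
    have : Tendsto (fun Y : E3 => Real.sqrt (15000 / N * ‖Y - X‖)) (𝓝 X)
        (𝓝 (Real.sqrt (15000 / N * ‖X - X‖))) := by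
      apply Continuous.tendsto
      fun_prop
    simpa using this
  refine squeeze_zero (fun Y => by positivity) (fun Y => ?_) h1
  apply Real.le_sqrt_of_sq_le
  have h := Q_holder X Y
  rw [← hNdef] at h
  rw [div_mul_eq_mul_div, le_div_iff₀ hN]
  linarith

theorem QA_cont (X : E3) (hX : X ≠ 0) : ContinuousAt QA X := by
  rw [ContinuousAt, tendsto_iff_norm_sub_tendsto_zero]
  refine squeeze_zero (fun Y => norm_nonneg _) (fun Y => ?_) (Q_tendsto X hX)
  rw [Real.norm_eq_abs]; linarith [abs_nonneg (QB Y - QB X)]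

theorem QB_cont (X : E3) (hX : X ≠ 0) : ContinuousAt QB X := by
  rw [ContinuousAt, tendsto_iff_norm_sub_tendsto_zero]
  refine squeeze_zero (fun Y => norm_nonneg _) (fun Y => ?_) (Q_tendsto X hX)
  rw [Real.norm_eq_abs]; linarith [abs_nonneg (QA Y - QA X)]

theorem U_grad (X : E3) (hX : X ≠ 0) : HasGradientAt U (Gam (QA X) (QB X)) X := by
  rw [hasGradientAt_iff_isLittleO, Asymptotics.isLittleO_iff]
  intro c hc
  have h := (Q_tendsto X hX).eventually (gt_mem_nhds (show 0 < c / 90 by positivity))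
  filter_upwards [h] with Y hY
  have h1 := U_sub X Y
  rw [Real.norm_eq_abs]
  refine h1.trans ?_
  have := mul_le_mul_of_nonneg_left hY.le (show 0 ≤ 90 * ‖Y - X‖ by positivity)
  linarith

theorem gradient_U (X : E3) (hX : X ≠ 0) : gradient U X = Gam (QA X) (QB X) :=
  (U_grad X hX).gradient

theorem QA_abs (X : E3) : |QA X| ≤ 1 := (Q_sol X).abs_a
theorem QB_abs (X : E3) : |QB X| ≤ 1 := (Q_sol X).abs_b

theorem g_abs {a b : ℝ} (ha : |a| ≤ 1) (hb : |b| ≤ 1) : |g1 a b| ≤ 2 ∧ |g2 a b| ≤ 2 ∧ |g3 a b| ≤ 2 := by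
  obtain ⟨x1, x2⟩ := abs_le.mp ha
  obtain ⟨x3, x4⟩ := abs_le.mp hb
  have ha2 := sq_le_one_of_abs ha
  have hb2 := sq_le_one_of_abs hb
  have e1 : g1 a b = a * (1 + (b ^ 2 - a ^ 2 / 3) / 100) := by unfold g1; ring
  have e2 : g2 a b = b * (1 + (a ^ 2 - b ^ 2 / 3) / 100) := by unfold g2; ring
  have e3 : g3 a b = a * b := rfl
  refine ⟨?_, ?_, ?_⟩
  · rw [e1, abs_mul]
    have : |1 + (b ^ 2 - a ^ 2 / 3) / 100| ≤ 2 := by
      rw [abs_le]; constructor <;> nlinarith [sq_nonneg a, sq_nonneg b]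
    calc |a| * _ ≤ 1 * 2 := mul_le_mul ha this (abs_nonneg _) zero_le_one
      _ = 2 := by norm_num
  · rw [e2, abs_mul]
    have : |1 + (a ^ 2 - b ^ 2 / 3) / 100| ≤ 2 := by
      rw [abs_le]; constructor <;> nlinarith [sq_nonneg a, sq_nonneg b]
    calc |b| * _ ≤ 1 * 2 := mul_le_mul hb this (abs_nonneg _) zero_le_one
      _ = 2 := by norm_num
  · rw [e3, abs_mul]
    calc |a| * |b| ≤ 1 * 1 := mul_le_mul ha hb (abs_nonneg _) zero_le_one
      _ ≤ 2 := by norm_num

theorem U_lip : LipschitzWith 400 U := by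
  apply LipschitzWith.of_dist_le_mul
  intro Y X
  rw [Real.dist_eq, dist_eq_norm]
  have h1 := U_sub X Y
  have h2 : |QA Y - QA X| + |QB Y - QB X| ≤ 4 := by
    have a1 := abs_sub (QA Y) (QA X)
    have a2 := abs_sub (QB Y) (QB X)
    linarith [QA_abs X, QA_abs Y, QB_abs X, QB_abs Y]
  have h3 : 90 * ‖Y - X‖ * (|QA Y - QA X| + |QB Y - QB X|) ≤ 90 * ‖Y - X‖ * 4 :=
    mul_le_mul_of_nonneg_left h2 (by positivity)
  have h4 : |inner ℝ (Gam (QA X) (QB X)) (Y - X)| ≤ 6 * ‖Y - X‖ := by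
    rw [inner_Gam]
    obtain ⟨k1, k2, k3⟩ := g_abs (QA_abs X) (QB_abs X)
    have := lin3 ((Y - X) 0) ((Y - X) 1) ((Y - X) 2) k1 k2 k3
    have e : FF ((Y - X) 0) ((Y - X) 1) ((Y - X) 2) (QA X) (QB X)
      = g1 (QA X) (QB X) * (Y - X) 0 + g2 (QA X) (QB X) * (Y - X) 1 + g3 (QA X) (QB X) * (Y - X) 2 := by
        unfold FF; ring
    rw [e]
    refine this.trans ?_
    have c0 := abs_coord_le (Y - X) 0
    have c1 := abs_coord_le (Y - X) 1
    have c2 := abs_coord_le (Y - X) 2
    linarith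
  have h5 : |U Y - U X| ≤ |U Y - U X - inner ℝ (Gam (QA X) (QB X)) (Y - X)|
      + |inner ℝ (Gam (QA X) (QB X)) (Y - X)| := by
    have := abs_add_le (U Y - U X - inner ℝ (Gam (QA X) (QB X)) (Y - X))
      (inner ℝ (Gam (QA X) (QB X)) (Y - X))
    rwa [sub_add_cancel] at this
  have h6 := norm_nonneg (Y - X)
  have : ((400 : NNReal) : ℝ) = 400 := rfl
  rw [this]
  linarith

/-- Along the first axis `U` is `-(299/300) |t|`. -/
theorem U_axis (t : ℝ) : U (EuclideanSpace.single 0 t) = -(299 / 300) * |t| := by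
  rcases eq_or_ne t 0 with rfl | ht
  · have : (EuclideanSpace.single 0 (0:ℝ) : E3) = 0 := by simp
    rw [this]; unfold U FF; simp
  have hpos : 0 < |t| + |(0:ℝ)| + |(0:ℝ)| := by
    have := abs_pos.mpr ht; simpa using this
  have e0 : (EuclideanSpace.single 0 t : E3) 0 = t := by simp
  have e1 : (EuclideanSpace.single 0 t : E3) 1 = 0 := by simp
  have e2 : (EuclideanSpace.single 0 t : E3) 2 = 0 := by simp
  have hs := Q_sol (EuclideanSpace.single 0 t)
  rw [e0, e1, e2] at hs
  rcases lt_or_gt_of_ne ht with h | h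
  · have s1 : Sol t 0 0 1 0 := by
      refine ⟨by norm_num, le_rfl, by norm_num, by norm_num, by simp, ?_, ?_, ?_⟩
      · unfold Fa; linarith
      · unfold Fb; simp
      · unfold Fb; simp
    obtain ⟨u1, u2⟩ := sol_unique s1 hs hpos
    unfold U
    rw [e0, e1, e2, u1, u2, abs_of_neg h]
    unfold FF g1; ring
  · have s1 : Sol t 0 0 (-1) 0 := by
      refine ⟨le_rfl, by norm_num, by norm_num, by norm_num, ?_, by simp, ?_, ?_⟩
      · unfold Fa; linarith
      · unfold Fb; simp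
      · unfold Fb; simp
    obtain ⟨u1, u2⟩ := sol_unique s1 hs hpos
    unfold U
    rw [e0, e1, e2, u1, u2, abs_of_pos h]
    unfold FF g1; ring

theorem U_not_diff : ¬ DifferentiableAt ℝ U 0 := by
  intro h
  have h1 : DifferentiableAt ℝ (fun t : ℝ => U (EuclideanSpace.single 0 t)) 0 := by
    have e : (fun t : ℝ => U (EuclideanSpace.single 0 t))
        = U ∘ (fun t : ℝ => t • (EuclideanSpace.single 0 (1:ℝ) : E3)) := by
      funext t
      simp only [Function.comp]
      congr 1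
      ext i
      fin_cases i <;> simp
    rw [e]
    apply DifferentiableAt.comp
    · simpa using h
    · fun_prop
  have h2 : (fun t : ℝ => U (EuclideanSpace.single 0 t)) = fun t => -(299 / 300) * |t| := by
    funext t; exact U_axis t
  rw [h2] at h1
  have h3 : DifferentiableAt ℝ (fun t : ℝ => -(300 / 299) * (-(299 / 300) * |t|)) 0 :=
    h1.const_mul _
  have h4 : (fun t : ℝ => -(300 / 299) * (-(299 / 300) * |t|)) = abs := by
    funext t; ring
  rw [h4] at h3
  exact not_differentiableAt_abs_zero h3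

end Pool.Agent.H231.R3
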