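import Mathlib

set_option autoImplicit false

namespace Pool.Agent.H231.R3

open MeasureTheory

/-- fourth power inequality -/
private lemma quartic_aux {a b : EuclideanSpace ℝ (Fin 3)} {s t : ℝ} (hs : 0 ≤ s) (ht : 0 ≤ t)
    (hst : s + t = 1) :
    ‖s • a + t • b‖ ^ 4 + (s * t * ‖a - b‖ ^ 2) ^ 2 ≤ s * ‖a‖ ^ 4 + t * ‖b‖ ^ 4 := by
  have e1 : ‖s • a + t • b‖ ^ 2 = s * ‖a‖ ^ 2 + t * ‖b‖ ^ 2 - s * t * ‖a - b‖ ^ 2 := by
    rw [@norm_add_sq_real, @norm_sub_sq_real, inner_smul_left, inner_smul_right, norm_smul,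
      norm_smul, mul_pow, mul_pow, Real.norm_eq_abs, Real.norm_eq_abs, sq_abs, sq_abs]
    have : t = 1 - s := by linarith
    subst this
    simp
    ring
  have h4 : ‖s • a + t • b‖ ^ 4 = (s * ‖a‖ ^ 2 + t * ‖b‖ ^ 2 - s * t * ‖a - b‖ ^ 2) ^ 2 := by
    rw [← e1]; ring
  have hA : 0 ≤ s * ‖a‖ ^ 2 + t * ‖b‖ ^ 2 - s * t * ‖a - b‖ ^ 2 := by
    rw [← e1]; positivity
  have hD : 0 ≤ s * t * ‖a - b‖ ^ 2 := by positivity
  set A := s * ‖a‖ ^ 2 + t * ‖b‖ ^ 2 with hAdef
  set D := s * t * ‖a - b‖ ^ 2 with hDdef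
  have hA2 : A ^ 2 ≤ s * ‖a‖ ^ 4 + t * ‖b‖ ^ 4 := by
    have : s * ‖a‖ ^ 4 + t * ‖b‖ ^ 4 - A ^ 2 = s * t * (‖a‖ ^ 2 - ‖b‖ ^ 2) ^ 2 := by
      rw [hAdef]
      have : t = 1 - s := by linarith
      subst this
      ring
    nlinarith [mul_nonneg (mul_nonneg hs ht) (sq_nonneg (‖a‖ ^ 2 - ‖b‖ ^ 2))]
  rw [h4]
  nlinarith [mul_nonneg hD hA]

/-- Abstract construction of a strictly convex Lagrangian from a bounded family of supporting data. -/
theorem exists_lagrangian {ι : Type} [Nonempty ι]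
    (G p : ι → EuclideanSpace ℝ (Fin 3)) (e : ι → ℝ) (B c : ℝ) (hc : 0 < c)
    (hG : ∀ i, ‖G i‖ ≤ B) (hp : ∀ i, ‖p i‖ ≤ B) (he : ∀ i, |e i| ≤ B)
    (h : ∀ i j, e i + inner ℝ (p i) (G j - G i) + c * ‖G j - G i‖ ^ 4 ≤ e j) :
    ∃ L : EuclideanSpace ℝ (Fin 3) → ℝ, StrictConvexOn ℝ Set.univ L ∧ Continuous L ∧
      (∀ i, L (G i) = e i) ∧ ∀ i y, L (G i) + inner ℝ (p i) (y - G i) ≤ L y := by
  classical
  set f : ι → EuclideanSpace ℝ (Fin 3) → ℝ := fun i y =>
    e i + inner ℝ (p i) (y - G i) + c * ‖y - G i‖ ^ 4 with hf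
  have hB : 0 ≤ B := (norm_nonneg _).trans (hG (Classical.arbitrary ι))
  have hbdd : ∀ y, BddAbove (Set.range fun i => f i y) := by
    intro y
    refine ⟨B + B * (‖y‖ + B) + c * (‖y‖ + B) ^ 4, ?_⟩
    rintro _ ⟨i, rfl⟩
    have h1 : ‖y - G i‖ ≤ ‖y‖ + B := (norm_sub_le _ _).trans (by linarith [hG i])
    have h2 : inner ℝ (p i) (y - G i) ≤ B * (‖y‖ + B) :=
      (real_inner_le_norm _ _).trans
        (mul_le_mul (hp i) h1 (norm_nonneg _) hB)
    have h3 : ‖y - G i‖ ^ 4 ≤ (‖y‖ + B) ^ 4 := pow_le_pow_left₀ (norm_nonneg _) h1 4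
    have h4 : c * ‖y - G i‖ ^ 4 ≤ c * (‖y‖ + B) ^ 4 := mul_le_mul_of_nonneg_left h3 hc.le
    have h5 := (abs_le.1 (he i)).2
    show e i + inner ℝ (p i) (y - G i) + c * ‖y - G i‖ ^ 4 ≤ _
    linarith
  set L : EuclideanSpace ℝ (Fin 3) → ℝ := fun y => ⨆ i, f i y with hL
  have hle : ∀ i y, f i y ≤ L y := fun i y => le_ciSup (hbdd y) i
  have hLG : ∀ j, L (G j) = e j := by
    intro j
    apply le_antisymm
    · exact ciSup_le fun i => h i j
    · have := hle j (G j)
      simpa [hf] using this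
  have hsc : StrictConvexOn ℝ Set.univ L := by
    refine ⟨convex_univ, ?_⟩
    intro y _ z _ hyz s t hs ht hst
    have hpos : 0 < c * (s * t * ‖y - z‖ ^ 2) ^ 2 := by
      have : 0 < ‖y - z‖ := norm_pos_iff.2 (sub_ne_zero.2 hyz)
      positivity
    have key : ∀ i, f i (s • y + t • z) ≤ s * L y + t * L z - c * (s * t * ‖y - z‖ ^ 2) ^ 2 := by
      intro i
      have e1 : s • y + t • z - G i = s • (y - G i) + t • (z - G i) := by
        rw [smul_sub, smul_sub]
        have : G i = s • G i + t • G i := by rw [← add_smul, hst, one_smul]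
        nth_rewrite 1 [this]
        abel
      have e2 : (y - G i) - (z - G i) = y - z := by abel
      have q := quartic_aux (a := y - G i) (b := z - G i) hs.le ht.le hst
      rw [e2] at q
      have i1 : inner ℝ (p i) (s • y + t • z - G i) =
          s * inner ℝ (p i) (y - G i) + t * inner ℝ (p i) (z - G i) := by
        rw [e1, inner_add_right, inner_smul_right, inner_smul_right]
      have e3 : e i = s * e i + t * e i := by rw [← add_mul, hst, one_mul]
      have u1 := mul_le_mul_of_nonneg_left (hle i y) hs.le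
      have u2 := mul_le_mul_of_nonneg_left (hle i z) ht.le
      simp only [hf] at u1 u2 ⊢
      rw [i1, e1]
      have q' := mul_le_mul_of_nonneg_left q hc.le
      nlinarith
    have := ciSup_le key
    show L (s • y + t • z) < s • L y + t • L z
    simp only [smul_eq_mul]
    have h6 : L (s • y + t • z) ≤ s * L y + t * L z - c * (s * t * ‖y - z‖ ^ 2) ^ 2 := this
    linarith
  refine ⟨L, hsc, (hsc.convexOn.locallyLipschitz).continuous, hLG, ?_⟩
  intro i y
  rw [hLG]
  have := hle i y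
  simp only [hf] at this
  have h0 : 0 ≤ c * ‖y - G i‖ ^ 4 := by positivity
  linarith

private lemma norm_gradient_le {u : EuclideanSpace ℝ (Fin 3) → ℝ} {K : NNReal}
    (hu : LipschitzWith K u) (x : EuclideanSpace ℝ (Fin 3)) : ‖gradient u x‖ ≤ K := by
  unfold gradient
  rw [LinearIsometryEquiv.norm_map]
  exact norm_fderiv_le_of_lipschitz ℝ hu

private lemma measurable_gradient (u : EuclideanSpace ℝ (Fin 3) → ℝ) :
    Measurable (gradient u) := by
  unfold gradient
  exact (LinearIsometryEquiv.continuous _).measurable.comp (measurable_fderiv ℝ u)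

/-- Minimality of a Lipschitz function whose gradient admits a bounded, weakly divergence free selection of
subgradients. -/
theorem minimal_of_calibration (L : EuclideanSpace ℝ (Fin 3) → ℝ) (hL : Continuous L)
    (P : EuclideanSpace ℝ (Fin 3) → EuclideanSpace ℝ (Fin 3))
    (hPm : Measurable P) (C : ℝ) (hPb : ∀ x, ‖P x‖ ≤ C)
    (hdiv : ∀ (φ : EuclideanSpace ℝ (Fin 3) → ℝ) (M : NNReal), LipschitzWith M φ →
      HasCompactSupport φ → ∫ x, fderiv ℝ φ x (P x) = 0)
    (u : EuclideanSpace ℝ (Fin 3) → ℝ) (K : NNReal) (hu : LipschitzWith K u)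
    (hsub : ∀ᵐ x, ∀ y, L (gradient u x) + inner ℝ (P x) (y - gradient u x) ≤ L y)
    (Ω : Set (EuclideanSpace ℝ (Fin 3))) (hΩ : IsOpen Ω) (hb : Bornology.IsBounded Ω)
    (φ : EuclideanSpace ℝ (Fin 3) → ℝ) (M : NNReal) (hφ : LipschitzWith M φ)
    (hc : HasCompactSupport φ) (hs : tsupport φ ⊆ Ω) :
    ∫ x in Ω, L (gradient u x) ≤ ∫ x in Ω, L (gradient (u + φ) x) := by
  have hfin : volume Ω < ⊤ := hb.measure_lt_top
  have : IsFiniteMeasure (volume.restrict Ω) := ⟨by simpa using hfin⟩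
  have huφ : LipschitzWith (K + M) (u + φ) := hu.add hφ
  have hint : ∀ (v : EuclideanSpace ℝ (Fin 3) → ℝ) (K' : NNReal), LipschitzWith K' v →
      Integrable (fun x => L (gradient v x)) (volume.restrict Ω) := by
    intro v K' hv
    obtain ⟨D, hD⟩ := ((isCompact_closedBall (0 : EuclideanSpace ℝ (Fin 3)) K').image
      hL).isBounded.exists_norm_le
    refine Integrable.of_bound ((hL.measurable.comp (measurable_gradient v)).aestronglyMeasurable)
      D (Filter.Eventually.of_forall fun x => ?_)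
    refine hD _ ⟨gradient v x, ?_, rfl⟩
    simpa using norm_gradient_le hv x
  have hint1 := hint u K hu
  have hint2 := hint (u + φ) (K + M) huφ
  have hPg : ∀ x, fderiv ℝ φ x (P x) = inner ℝ (P x) (gradient φ x) := by
    intro x
    rw [real_inner_comm]
    unfold gradient
    rw [InnerProductSpace.toDual_symm_apply]
  have hint3 : Integrable (fun x => fderiv ℝ φ x (P x)) (volume.restrict Ω) := by
    refine Integrable.of_bound ?_ (M * C) (Filter.Eventually.of_forall fun x => ?_)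
    · have : Measurable fun x => (inner ℝ (P x) (gradient φ x) : ℝ) :=
        hPm.inner (measurable_gradient φ)
      refine Measurable.aestronglyMeasurable ?_
      have he : (fun x => fderiv ℝ φ x (P x)) = fun x => (inner ℝ (P x) (gradient φ x) : ℝ) :=
        funext hPg
      rw [he]
      exact this
    · refine (ContinuousLinearMap.le_opNorm _ _).trans ?_
      exact mul_le_mul (norm_fderiv_le_of_lipschitz ℝ hφ) (hPb x) (norm_nonneg _) M.2
  have hzero : ∫ x in Ω, fderiv ℝ φ x (P x) = 0 := by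
    rw [setIntegral_eq_integral_of_forall_compl_eq_zero, hdiv φ M hφ hc]
    intro x hx
    have : x ∉ tsupport φ := fun h => hx (hs h)
    have h2 : fderiv ℝ φ x = 0 := by
      by_contra h3
      exact this (support_fderiv_subset ℝ (Function.mem_support.2 h3))
    rw [h2]; simp
  have hsum : ∫ x in Ω, (L (gradient u x) + fderiv ℝ φ x (P x)) = ∫ x in Ω, L (gradient u x) := by
    rw [integral_add hint1 hint3, hzero, add_zero]
  rw [← hsum]
  refine integral_mono_ae (hint1.add hint3) hint2 ?_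
  have hd1 := hu.ae_differentiableAt (μ := (volume : Measure (EuclideanSpace ℝ (Fin 3))))
  have hd2 := hφ.ae_differentiableAt (μ := (volume : Measure (EuclideanSpace ℝ (Fin 3))))
  refine ae_restrict_of_ae ?_
  filter_upwards [hd1, hd2, hsub] with x h1 h2 h3
  have hg : gradient (u + φ) x = gradient u x + gradient φ x := by
    unfold gradient
    rw [fderiv_add h1 h2, map_add]
  have := h3 (gradient (u + φ) x)
  rw [hg, add_sub_cancel_left] at this
  show L (gradient u x) + fderiv ℝ φ x (P x) ≤ L (gradient (u + φ) x)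
  rw [hPg, hg]
  exact this

end Pool.Agent.H231.R3
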