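import Mathlib

set_option autoImplicit false

namespace Pool.Agent.H231.R3

open MeasureTheory Filter Topology Convolution Set Pointwise

/-- Derivative of a mollification of a Lipschitz function. -/
theorem conv_deriv {E : Type*} [NormedAddCommGroup E] [NormedSpace ℝ E] [FiniteDimensional ℝ E]
    [MeasurableSpace E] [BorelSpace E] (μ : Measure E) [μ.IsAddHaarMeasure] (η : E → ℝ)
    (hη : ContDiff ℝ 1 η) (hcη : HasCompactSupport η) (φ : E → ℝ) (M : NNReal)
    (hφ : LipschitzWith M φ) (x v : E) :
    fderiv ℝ (η ⋆[ContinuousLinearMap.lsmul ℝ ℝ, μ] φ) x v =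
      (η ⋆[ContinuousLinearMap.lsmul ℝ ℝ, μ] (fun y => lineDeriv ℝ φ y v)) x := by
  have hcφ : Continuous φ := hφ.continuous
  have h1 := hcη.hasFDerivAt_convolution_left (μ := μ) (ContinuousLinearMap.lsmul ℝ ℝ) hη
    hcφ.locallyIntegrable x
  rw [h1.fderiv]
  obtain ⟨D, hD⟩ := hη.lipschitzWith_of_hasCompactSupport hcη (by norm_num)
  have hG : LipschitzWith M (fun t => φ (x - t)) := by
    have h2 : LipschitzWith 1 (fun t : E => x - t) := by
      apply LipschitzWith.of_dist_le_mul
      intro a b
      simp [dist_eq_norm, norm_sub_rev]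
    have h3 := hφ.comp h2
    rw [mul_one] at h3
    exact h3
  have h3 := LipschitzWith.integral_lineDeriv_mul_eq (μ := μ) hG hD hcη (-v)
  have h4 : ∀ t, lineDeriv ℝ (fun t => φ (x - t)) t (-v) = lineDeriv ℝ φ (x - t) v := by
    intro t
    unfold lineDeriv
    have h5 : (fun s : ℝ => φ (x - (t + s • (-v)))) = fun s : ℝ => φ (x - t + s • v) := by
      funext s
      congr 1
      module
    rw [h5]
  have h6 : Continuous (fderiv ℝ η) := hη.continuous_fderiv (by norm_num)
  have hint := HasCompactSupport.convolutionExists_left (μ := μ)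
    (L := (ContinuousLinearMap.lsmul ℝ ℝ).precompL E) (hcη.fderiv (𝕜 := ℝ)) h6
    hcφ.locallyIntegrable x
  rw [convolution_def, ContinuousLinearMap.integral_apply hint, convolution_def]
  have h7 : ∀ t, ((((ContinuousLinearMap.lsmul ℝ ℝ).precompL E) (fderiv ℝ η t)) (φ (x - t))) v =
      lineDeriv ℝ η t v * φ (x - t) := by
    intro t
    rw [((hη.differentiable (by norm_num)) t).lineDeriv_eq_fderiv]
    simp [ContinuousLinearMap.precompL_apply]
  simp_rw [h7]
  simp only [neg_neg, h4] at h3
  rw [← h3]
  congr 1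
  funext t
  simp [mul_comm]

/-- A bounded measurable vector field that is divergence free against all smooth compactly supported
test functions is divergence free against all Lipschitz compactly supported test functions. -/
theorem weak_div_lipschitz (P : EuclideanSpace ℝ (Fin 3) → EuclideanSpace ℝ (Fin 3))
    (hPm : Measurable P) (C : ℝ) (hPb : ∀ x, ‖P x‖ ≤ C)
    (hsm : ∀ φ : EuclideanSpace ℝ (Fin 3) → ℝ, ContDiff ℝ (⊤ : ℕ∞) φ → HasCompactSupport φ →
      ∫ x, fderiv ℝ φ x (P x) = 0)
    (φ : EuclideanSpace ℝ (Fin 3) → ℝ) (M : NNReal) (hφ : LipschitzWith M φ)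
    (hc : HasCompactSupport φ) :
    ∫ x, fderiv ℝ φ x (P x) = 0 := by
  classical
  let ρ : ℕ → ContDiffBump (0 : EuclideanSpace ℝ (Fin 3)) := fun n =>
    { rIn := 1 / (n + 1 : ℝ) / 2
      rOut := 1 / (n + 1 : ℝ)
      rIn_pos := by positivity
      rIn_lt_rOut := half_lt_self (by positivity) }
  let φn : ℕ → EuclideanSpace ℝ (Fin 3) → ℝ := fun n =>
    (ρ n).normed volume ⋆[ContinuousLinearMap.lsmul ℝ ℝ, volume] φ
  have hcφ : Continuous φ := hφ.continuous
  have hsmooth : ∀ n, ContDiff ℝ (⊤ : ℕ∞) (φn n) := fun n =>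
    (ρ n).hasCompactSupport_normed.contDiff_convolution_left _ (ρ n).contDiff_normed
      hcφ.locallyIntegrable
  have hcs : ∀ n, HasCompactSupport (φn n) := fun n =>
    (ρ n).hasCompactSupport_normed.convolution _ hc
  -- the derivative formula
  have hder : ∀ n x v, fderiv ℝ (φn n) x v =
      ((ρ n).normed volume ⋆[ContinuousLinearMap.lsmul ℝ ℝ, volume]
        (fun y => lineDeriv ℝ φ y v)) x := by
    intro n x v
    exact conv_deriv volume _ ((ρ n).contDiff_normed (n := 1)) (ρ n).hasCompactSupport_normed φ M hφ x v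
  have hMb : ∀ n x v, |fderiv ℝ (φn n) x v| ≤ M * ‖v‖ := by
    intro n x v
    rw [hder, convolution_def]
    have hi : Integrable (fun t => (M * ‖v‖) * (ρ n).normed volume t) volume :=
      ((ρ n).integrable_normed).const_mul _
    have h1 := norm_integral_le_of_norm_le hi (f := fun t =>
      ((ContinuousLinearMap.lsmul ℝ ℝ) ((ρ n).normed volume t)) (lineDeriv ℝ φ (x - t) v))
      (Filter.Eventually.of_forall fun t => by
        simp only [ContinuousLinearMap.lsmul_apply, norm_smul, Real.norm_eq_abs]
        rw [abs_of_nonneg ((ρ n).nonneg_normed t), mul_comm]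
        gcongr
        · exact (ρ n).nonneg_normed t
        · exact norm_lineDeriv_le_of_lipschitz ℝ hφ)
    rw [integral_const_mul, (ρ n).integral_normed, mul_one] at h1
    exact h1
  -- the support
  let K : Set (EuclideanSpace ℝ (Fin 3)) :=
    Metric.closedBall (0 : EuclideanSpace ℝ (Fin 3)) 1 + tsupport φ
  have hK : IsCompact K := (isCompact_closedBall _ _).add hc
  have hsup : ∀ n x, x ∉ K → fderiv ℝ (φn n) x = 0 := by
    intro n x hx
    by_contra hne
    have h1 : x ∈ tsupport (φn n) := support_fderiv_subset ℝ hne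
    apply hx
    refine closure_minimal ?_ hK.isClosed h1
    refine (support_convolution_subset (ContinuousLinearMap.lsmul ℝ ℝ)).trans ?_
    apply Set.add_subset_add
    · rw [(ρ n).support_normed_eq]
      intro y hy
      have h2 : dist y 0 < 1 / (n + 1 : ℝ) := hy
      have h3 : 1 / (n + 1 : ℝ) ≤ 1 := by
        rw [div_le_one (by positivity)]
        linarith [(Nat.cast_nonneg n : (0 : ℝ) ≤ n)]
      exact (h2.trans_le h3).le
    · exact subset_tsupport φ
  have hexp : ∀ (L : EuclideanSpace ℝ (Fin 3) →L[ℝ] ℝ) (w : EuclideanSpace ℝ (Fin 3)),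
      L w = ∑ i, w i * L (EuclideanSpace.single i 1) := by
    intro L w
    conv_lhs => rw [← (EuclideanSpace.basisFun (Fin 3) ℝ).sum_repr w]
    simp [map_sum]
  have hlim : Tendsto (fun n => ∫ x, fderiv ℝ (φn n) x (P x)) atTop
      (𝓝 (∫ x, fderiv ℝ φ x (P x))) := by
    apply tendsto_integral_of_dominated_convergence (K.indicator fun _ => M * C)
    · intro n
      simp_rw [fun x => hexp (fderiv ℝ (φn n) x) (P x)]
      have h6 : Continuous (fderiv ℝ (φn n)) := (hsmooth n).continuous_fderiv (by norm_num)
      apply Measurable.aestronglyMeasurable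
      apply Finset.measurable_sum
      intro i _
      apply Measurable.mul
      · exact ((EuclideanSpace.proj (𝕜 := ℝ) i).continuous.measurable).comp hPm
      · exact (h6.clm_apply continuous_const).measurable
    · rw [integrable_indicator_iff hK.measurableSet]
      exact integrableOn_const (hs := hK.measure_lt_top.ne)
    · intro n
      apply Filter.Eventually.of_forall
      intro x
      by_cases hx : x ∈ K
      · rw [indicator_of_mem hx]
        refine (hMb n x (P x)).trans ?_
        gcongr
        exact hPb x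
      · rw [indicator_of_notMem hx, hsup n x hx]
        simp
    · have hρ0 : Tendsto (fun n => (ρ n).rOut) atTop (𝓝 0) :=
        tendsto_one_div_add_atTop_nhds_zero_nat
      have hρ1 : ∀ᶠ n in atTop, (ρ n).rOut ≤ 2 * (ρ n).rIn := by
        apply Filter.Eventually.of_forall
        intro n
        show 1 / (n + 1 : ℝ) ≤ 2 * (1 / (n + 1 : ℝ) / 2)
        linarith
      have h1 : ∀ i : Fin 3, ∀ᵐ x : EuclideanSpace ℝ (Fin 3), Tendsto (fun n =>
          fderiv ℝ (φn n) x (EuclideanSpace.single i 1)) atTop
          (𝓝 (lineDeriv ℝ φ x (EuclideanSpace.single i 1))) := by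
        intro i
        have h2 := ContDiffBump.ae_convolution_tendsto_right_of_locallyIntegrable
          (μ := (volume : Measure (EuclideanSpace ℝ (Fin 3)))) hρ0 hρ1
          (hφ.locallyIntegrable_lineDeriv (μ := volume) (EuclideanSpace.single i 1))
        filter_upwards [h2] with x hx
        simp_rw [hder]
        exact hx
      filter_upwards [ae_all_iff.2 h1, hφ.ae_differentiableAt (μ := volume)] with x hx hd
      simp_rw [fun n => hexp (fderiv ℝ (φn n) x) (P x), hexp (fderiv ℝ φ x) (P x)]
      apply tendsto_finsetSum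
      intro i _
      have h3 := hx i
      rw [hd.lineDeriv_eq_fderiv] at h3
      exact h3.const_mul _
  have h0 : ∀ n, ∫ x, fderiv ℝ (φn n) x (P x) = 0 := fun n => hsm _ (hsmooth n) (hcs n)
  simp_rw [h0] at hlim
  exact tendsto_nhds_unique hlim tendsto_const_nhds

end Pool.Agent.H231.R3
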