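import Pool.Agent.H231.R3.Cov
import Pool.Agent.H231.R3.Moll
import Pool.Agent.H231.R3.Lag

set_option autoImplicit false

namespace Pool.Agent.H231.R3

open MeasureTheory Set Filter Topology

/-- the momentum as a Euclidean vector -/
noncomputable def momE (a b : ℝ) : E3 := WithLp.toLp 2 (mom a b)

/-- the momentum field on Euclidean space -/
noncomputable def PE (X : E3) : E3 := momE (QA X) (QB X)

theorem QA_meas : Measurable QA :=
  measurable_of_continuousOn_compl_singleton 0 fun X hX => (QA_cont X hX).continuousWithinAt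
theorem QB_meas : Measurable QB :=
  measurable_of_continuousOn_compl_singleton 0 fun X hX => (QB_cont X hX).continuousWithinAt

theorem m_meas : Measurable (fun X : E3 => m1 (QA X) (QB X)) ∧
    Measurable (fun X : E3 => m2 (QA X) (QB X)) ∧ Measurable (fun X : E3 => m3 (QA X) (QB X)) := by
  have ha := QA_meas
  have hb := QB_meas
  have sa : MeasurableSet {X : E3 | |QA X| < 1} := measurableSet_lt (by fun_prop) measurable_const
  have sb : MeasurableSet {X : E3 | |QB X| < 1} := measurableSet_lt (by fun_prop) measurable_const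
  have s1' : MeasurableSet {X : E3 | |QA X| < 1 ∧ ¬ |QB X| < 1} := sa.inter sb.compl
  have s2' : MeasurableSet {X : E3 | ¬ |QA X| < 1 ∧ |QB X| < 1} := sa.compl.inter sb
  unfold m1 m2 m3 s1 s2 s3 c1 c2 c3
  refine ⟨?_, ?_, ?_⟩
  · exact Measurable.ite s1' (by fun_prop) (Measurable.ite s2' (by fun_prop) (by fun_prop))
  · exact Measurable.ite s1' (by fun_prop) (Measurable.ite s2' (by fun_prop) (by fun_prop))
  · exact Measurable.ite s1' (by fun_prop) (Measurable.ite s2' (by fun_prop) (by fun_prop))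

theorem PE_meas : Measurable PE := by
  obtain ⟨h1, h2, h3⟩ := m_meas
  have : Measurable (fun X : E3 => mom (QA X) (QB X)) := by
    rw [measurable_pi_iff]
    intro i
    fin_cases i
    · exact h1
    · exact h2
    · exact h3
  exact (PiLp.volume_preserving_toLp (Fin 3)).measurable.comp this

theorem s_bounds {a : ℝ} (ha : |a| ≤ 1) : |s1 a| ≤ 100 ∧ |s2 a| ≤ 100 ∧ |s3 a| ≤ 100 := by
  have h1 := abs_le.mp ha
  have h2 : |a ^ 2| ≤ 1 := by rw [abs_pow]; exact pow_le_one₀ (abs_nonneg _) ha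
  have h3 : |a ^ 3| ≤ 1 := by rw [abs_pow]; exact pow_le_one₀ (abs_nonneg _) ha
  have h4 : |a ^ 4| ≤ 1 := by rw [abs_pow]; exact pow_le_one₀ (abs_nonneg _) ha
  have h5 : |a ^ 5| ≤ 1 := by rw [abs_pow]; exact pow_le_one₀ (abs_nonneg _) ha
  have k2 := abs_le.mp h2
  have k3 := abs_le.mp h3
  have k4 := abs_le.mp h4
  have k5 := abs_le.mp h5
  unfold s1 s2 s3
  refine ⟨?_, ?_, ?_⟩ <;> rw [abs_le] <;> constructor <;> linarith [h1.1, h1.2, k2.1, k2.2, k3.1, k3.2,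
    k4.1, k4.2, k5.1, k5.2]

theorem c_bounds {a b : ℝ} (ha : |a| ≤ 1) (hb : |b| ≤ 1) :
    |c1 a b| ≤ 100 ∧ |c2 a b| ≤ 100 ∧ |c3 a b| ≤ 100 := by
  have h1 := abs_le.mp ha
  have h2 := abs_le.mp hb
  have k := fun i j => abs_le.mp (mono ha hb ha hb i j 0 0)
  have k1 := k 3 0
  have k2 := k 0 3
  have k3 := k 1 2
  have k4 := k 2 1
  have k5 := k 1 1
  simp only [pow_zero, pow_one, one_mul, mul_one] at k1 k2 k3 k4 k5
  unfold c1 c2 c3
  refine ⟨?_, ?_, ?_⟩ <;> rw [abs_le] <;> constructor <;> linarith [h1.1, h1.2, h2.1, h2.2, k1.1, k1.2,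
    k2.1, k2.2, k3.1, k3.2, k4.1, k4.2, k5.1, k5.2]

theorem m_bounds {a b : ℝ} (ha : |a| ≤ 1) (hb : |b| ≤ 1) :
    |m1 a b| ≤ 100 ∧ |m2 a b| ≤ 100 ∧ |m3 a b| ≤ 100 := by
  obtain ⟨a1, a2, a3⟩ := s_bounds ha
  obtain ⟨b1, b2, b3⟩ := s_bounds hb
  obtain ⟨d1, d2, d3⟩ := c_bounds ha hb
  have q : ∀ x y : ℝ, |x| ≤ 1 → |y| ≤ 100 → |x * y| ≤ 100 := by
    intro x y hx hy
    rw [abs_mul]
    calc |x| * |y| ≤ 1 * 100 := mul_le_mul hx hy (abs_nonneg _) zero_le_one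
      _ = 100 := by norm_num
  unfold m1 m2 m3
  split_ifs
  · exact ⟨a1, q _ _ hb a2, q _ _ hb a3⟩
  · exact ⟨q _ _ ha b2, b1, q _ _ ha b3⟩
  · exact ⟨d1, d2, d3⟩

theorem norm_sq3 (X : E3) : ‖X‖ ^ 2 = X 0 ^ 2 + X 1 ^ 2 + X 2 ^ 2 := by
  rw [← real_inner_self_eq_norm_sq, inner_eq3]; ring

theorem norm_le_of_coords {X : E3} {c : ℝ} (hc : 0 ≤ c) (h0 : |X 0| ≤ c) (h1 : |X 1| ≤ c) (h2 : |X 2| ≤ c) :
    ‖X‖ ≤ 2 * c := by
  have k := norm_sq3 X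
  have e0 : X 0 ^ 2 ≤ c ^ 2 := by rw [← sq_abs]; exact pow_le_pow_left₀ (abs_nonneg _) h0 2
  have e1 : X 1 ^ 2 ≤ c ^ 2 := by rw [← sq_abs]; exact pow_le_pow_left₀ (abs_nonneg _) h1 2
  have e2 : X 2 ^ 2 ≤ c ^ 2 := by rw [← sq_abs]; exact pow_le_pow_left₀ (abs_nonneg _) h2 2
  have : ‖X‖ ^ 2 ≤ (2 * c) ^ 2 := by nlinarith [sq_nonneg c]
  exact (pow_le_pow_iff_left₀ (norm_nonneg _) (by positivity) two_ne_zero).mp this

theorem momE_bound {a b : ℝ} (ha : |a| ≤ 1) (hb : |b| ≤ 1) : ‖momE a b‖ ≤ 200 := by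
  obtain ⟨h1, h2, h3⟩ := m_bounds ha hb
  have := norm_le_of_coords (X := momE a b) (c := 100) (by norm_num) h1 h2 h3
  linarith

theorem Gam_bound {a b : ℝ} (ha : |a| ≤ 1) (hb : |b| ≤ 1) : ‖Gam a b‖ ≤ 200 := by
  obtain ⟨h1, h2, h3⟩ := g_abs ha hb
  have := norm_le_of_coords (X := Gam a b) (c := 2) (by norm_num) h1 h2 h3
  linarith

theorem el_bound {a b : ℝ} (ha : |a| ≤ 1) (hb : |b| ≤ 1) : |el a b| ≤ 200 := by
  have k := fun i j => abs_le.mp (mono ha hb ha hb i j 0 0)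
  have k1 := k 2 0
  have k2 := k 0 2
  have k3 := k 4 0
  have k4 := k 2 2
  have k5 := k 0 4
  have k6 := k 6 0
  have k7 := k 4 2
  have k8 := k 2 4
  have k9 := k 0 6
  simp only [pow_zero, one_mul, mul_one] at k1 k2 k3 k4 k5 k6 k7 k8 k9
  unfold el
  rw [abs_le]
  constructor <;> linarith [k1.1, k1.2, k2.1, k2.2, k3.1, k3.2, k4.1, k4.2, k5.1, k5.2,
    k6.1, k6.2, k7.1, k7.2, k8.1, k8.2, k9.1, k9.2]

/-- The index set of the data. -/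
abbrev Idx : Type := {q : ℝ × ℝ // |q.1| ≤ 1 ∧ |q.2| ≤ 1}

theorem data_ineq (i j : Idx) :
    el i.1.1 i.1.2 + inner ℝ (momE i.1.1 i.1.2) (Gam j.1.1 j.1.2 - Gam i.1.1 i.1.2)
      + 1 / 1000000 * ‖Gam j.1.1 j.1.2 - Gam i.1.1 i.1.2‖ ^ 4 ≤ el j.1.1 j.1.2 := by
  have h := main_ineq i.2.1 i.2.2 j.2.1 j.2.2
  have e1 : ‖Gam j.1.1 j.1.2 - Gam i.1.1 i.1.2‖ ^ 4 = dg i.1.1 i.1.2 j.1.1 j.1.2 ^ 2 := by
    have : ‖Gam j.1.1 j.1.2 - Gam i.1.1 i.1.2‖ ^ 4 = (‖Gam j.1.1 j.1.2 - Gam i.1.1 i.1.2‖ ^ 2) ^ 2 := by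
      ring
    rw [this, norm_sq3]
    rfl
  have e2 : inner ℝ (momE i.1.1 i.1.2) (Gam j.1.1 j.1.2 - Gam i.1.1 i.1.2)
      = m1 i.1.1 i.1.2 * (g1 j.1.1 j.1.2 - g1 i.1.1 i.1.2) + m2 i.1.1 i.1.2 * (g2 j.1.1 j.1.2 - g2 i.1.1 i.1.2)
        + m3 i.1.1 i.1.2 * (g3 j.1.1 j.1.2 - g3 i.1.1 i.1.2) := by
    rw [inner_eq3]
    rfl
  rw [e1, e2]
  exact h

theorem PE_div_smooth (φ : E3 → ℝ) (hφ : ContDiff ℝ (⊤ : ℕ∞) φ) (hc : HasCompactSupport φ) :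
    ∫ X, fderiv ℝ φ X (PE X) = 0 := by
  have hφ1 : ContDiff ℝ 1 φ := hφ.of_le (by exact_mod_cast le_top)
  let e : (Fin 3 → ℝ) ≃L[ℝ] E3 := (EuclideanSpace.equiv (Fin 3) ℝ).symm
  have he : ∀ x, e x = WithLp.toLp 2 x := fun x => rfl
  have h1 : ContDiff ℝ 1 (φ ∘ e) := hφ1.comp e.contDiff
  have h2 : HasCompactSupport (φ ∘ e) := hc.comp_homeomorph e.toHomeomorph
  have h3 := div_free (φ ∘ e) h1 h2
  have h4 : ∀ x, fderiv ℝ (φ ∘ e) x (PF x) = fderiv ℝ φ (WithLp.toLp 2 x) (PE (WithLp.toLp 2 x)) := by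
    intro x
    rw [fderiv_comp x ((hφ1.differentiable (by norm_num)) (e x)) e.differentiableAt, e.fderiv]
    rfl
  simp only [h4] at h3
  rw [← h3]
  exact ((PiLp.volume_preserving_toLp (Fin 3)).integral_comp
    (MeasurableEquiv.toLp 2 (Fin 3 → ℝ)).measurableEmbedding (fun X => fderiv ℝ φ X (PE X))).symm

/-- The counterexample in dimension three. -/
theorem counterexample :
    ∃ L : E3 → ℝ, StrictConvexOn ℝ Set.univ L ∧ LipschitzWith 400 U ∧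
      (∀ Ω : Set E3, IsOpen Ω → Bornology.IsBounded Ω → ∀ (φ : E3 → ℝ) (M : NNReal),
        LipschitzWith M φ → HasCompactSupport φ → tsupport φ ⊆ Ω →
        ∫ x in Ω, L (gradient U x) ≤ ∫ x in Ω, L (gradient (U + φ) x)) ∧
      ¬ DifferentiableAt ℝ U 0 := by
  have : Nonempty Idx := ⟨⟨(0, 0), by simp⟩⟩
  obtain ⟨L, hL1, hL2, hL3, hL4⟩ := exists_lagrangian (ι := Idx) (fun i => Gam i.1.1 i.1.2)
    (fun i => momE i.1.1 i.1.2) (fun i => el i.1.1 i.1.2) 200 (1 / 1000000) (by norm_num)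
    (fun i => Gam_bound i.2.1 i.2.2) (fun i => momE_bound i.2.1 i.2.2) (fun i => el_bound i.2.1 i.2.2)
    data_ineq
  have hb : ∀ X, ‖PE X‖ ≤ 200 := fun X => momE_bound (QA_abs X) (QB_abs X)
  refine ⟨L, hL1, U_lip, ?_, U_not_diff⟩
  intro Ω hΩ hΩb φ M hφ hc hs
  refine minimal_of_calibration L hL2 PE PE_meas 200 hb ?_ U 400 U_lip ?_ Ω hΩ hΩb φ M hφ hc hs
  · intro ψ N hψ hψc
    exact weak_div_lipschitz PE PE_meas 200 hb (fun χ h1 h2 => PE_div_smooth χ h1 h2) ψ N hψ hψc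
  · have h0 : ∀ᵐ X : E3, X ≠ 0 := by
      rw [ae_iff]
      simp only [ne_eq, not_not, ofPred_eq_eq_singleton]
      exact measure_singleton 0
    filter_upwards [h0] with X hX Y
    rw [gradient_U X hX]
    exact hL4 ⟨(QA X, QB X), QA_abs X, QB_abs X⟩ Y

end Pool.Agent.H231.R3
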