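import Pool.Agent.H231.R3.Slice

set_option autoImplicit false

namespace Pool.Agent.H231.R3

open MeasureTheory Set

/-! ### polynomials -/

/-- `∂ₐ el` -/
noncomputable def la (a b : ℝ) : ℝ :=
  a + (4 * a ^ 3 - 12 * a * b ^ 2) / 600 - a * (a ^ 2 + b ^ 2) ^ 2 / 6000 + 2 * a * b ^ 2 / 25
/-- `∂ₐ∂ₐ el` -/
noncomputable def laa (a b : ℝ) : ℝ :=
  1 + (12 * a ^ 2 - 12 * b ^ 2) / 600 - ((a ^ 2 + b ^ 2) ^ 2 + 4 * a ^ 2 * (a ^ 2 + b ^ 2)) / 6000
    + 2 * b ^ 2 / 25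
/-- `∂ₐ∂_b el` -/
noncomputable def lab (a b : ℝ) : ℝ :=
  -(24 * a * b) / 600 - 4 * a * b * (a ^ 2 + b ^ 2) / 6000 + 4 * a * b / 25
/-- `∂ₐ∂ₐ∂ₐ el` -/
noncomputable def laaa (a b : ℝ) : ℝ :=
  24 * a / 600 - (12 * a * (a ^ 2 + b ^ 2) + 8 * a ^ 3) / 6000
/-- `∂ₐ∂ₐ∂_b el` -/
noncomputable def laab (a b : ℝ) : ℝ :=
  -(24 * b) / 600 - (4 * b * (a ^ 2 + b ^ 2) + 8 * a ^ 2 * b) / 6000 + 4 * b / 25

theorem d_la_a (a b : ℝ) : HasDerivAt (fun a => la a b) (laa a b) a := by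
  unfold la laa
  have h : HasDerivAt (fun a : ℝ => a) 1 a := hasDerivAt_id' a
  have h1 := ((h.fun_add (((((h.fun_pow 3).const_mul 4).fun_sub ((h.const_mul 12).mul_const (b ^ 2))).div_const 600))).fun_sub
    ((h.fun_mul (((h.fun_pow 2).add_const (b ^ 2)).fun_pow 2)).div_const 6000)).fun_add
    (((h.const_mul 2).mul_const (b ^ 2)).div_const 25)
  refine h1.congr_deriv ?_
  norm_num
  ring

theorem d_la_b (a b : ℝ) : HasDerivAt (fun b => la a b) (lab a b) b := by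
  unfold la lab
  have h : HasDerivAt (fun b : ℝ => b) 1 b := hasDerivAt_id' b
  have h1 := ((((((h.fun_pow 2).const_mul (12 * a)).const_sub (4 * a ^ 3)).div_const 600).const_add a).fun_sub
    (((((h.fun_pow 2).const_add (a ^ 2)).fun_pow 2).const_mul a).div_const 6000)).fun_add
    (((h.fun_pow 2).const_mul (2 * a)).div_const 25)
  refine h1.congr_deriv ?_
  norm_num
  ring

theorem d_laa_b (a b : ℝ) : HasDerivAt (fun b => laa a b) (laab a b) b := by
  unfold laa laab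
  have h : HasDerivAt (fun b : ℝ => b) 1 b := hasDerivAt_id' b
  have h1 := ((((((h.fun_pow 2).const_mul 12).const_sub (12 * a ^ 2)).div_const 600).const_add 1).fun_sub
    (((((h.fun_pow 2).const_add (a ^ 2)).fun_pow 2).fun_add
      (((h.fun_pow 2).const_add (a ^ 2)).const_mul (4 * a ^ 2))).div_const 6000)).fun_add
    (((h.fun_pow 2).const_mul 2).div_const 25)
  refine h1.congr_deriv ?_
  norm_num
  ring

theorem lab_symm (a b : ℝ) : lab b a = lab a b := by unfold lab; ring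

/-! ### the flux field in the parameters -/

/-- flux, first component -/
noncomputable def V0 (α β t a b n1 n2 : ℝ) : ℝ :=
  (α * β * t ^ 2 + (1 - α) * (1 - β)) * lab a b + α * (1 - β) * n2 * laaa a b
    + (1 - α) * β * n1 * laaa b a
/-- flux, second component -/
noncomputable def V1 (_α β t a b n1 _n2 : ℝ) : ℝ :=
  β * (-(t * la b a) - n1 * laa b a) - (1 - β) * la a b
/-- flux, third component -/
noncomputable def V2 (α _β t a b _n1 n2 : ℝ) : ℝ :=
  α * (-(t * la a b) + n2 * laa a b) + (1 - α) * la b a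

/-- derivative of the first component in `t` -/
noncomputable def E0 (α β t a b _n1 _n2 : ℝ) : ℝ := 2 * t * α * β * lab a b
/-- derivative of the second component in `p` -/
noncomputable def E1 (α β t a b _n1 _n2 : ℝ) : ℝ :=
  -(α * β * t * lab a b) - β * (1 - α) * laa b a - (1 - β) * α * laa a b
/-- derivative of the third component in `r` -/
noncomputable def E2 (α β t a b _n1 _n2 : ℝ) : ℝ :=
  -(α * β * t * lab a b) + α * (1 - β) * laa a b + (1 - α) * β * laa b a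

theorem E_sum (α β t a b n1 n2 : ℝ) :
    E0 α β t a b n1 n2 + E1 α β t a b n1 n2 + E2 α β t a b n1 n2 = 0 := by
  unfold E0 E1 E2; ring

/-- Jacobian weight -/
noncomputable def W (α β t a b n1 n2 : ℝ) : ℝ :=
  (α * β * t ^ 2 + (1 - α) * (1 - β)) * (1 - (a ^ 2 + b ^ 2) / 100)
    + (α * (1 - β) * (b * n2) + (1 - α) * β * (a * n1)) / 50

/-- `∂ₜ Ψ` -/
noncomputable def dt (_α _β _t a b _n1 _n2 : ℝ) : Fin 3 → ℝ := ![-b, -a, 1 + (a ^ 2 + b ^ 2) / 100]
/-- `∂ₚ Ψ` -/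
noncomputable def dp (α _β t a b _n1 n2 : ℝ) : Fin 3 → ℝ :=
  ![-(1 - α), -(t * α), (t * a * α - α * n2 + b * (1 - α)) / 50]
/-- `∂ᵣ Ψ` -/
noncomputable def dr (_α β t a b n1 _n2 : ℝ) : Fin 3 → ℝ :=
  ![-(t * β), 1 - β, (t * b * β - a * (1 - β) + β * n1) / 50]

/-- Jacobian matrix of the parametrization -/
noncomputable def Mat (α β t a b n1 n2 : ℝ) : Matrix (Fin 3) (Fin 3) ℝ :=
  Matrix.of fun i j => ![dt α β t a b n1 n2 i, dp α β t a b n1 n2 i, dr α β t a b n1 n2 i] j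

theorem Mat_det (α β t a b n1 n2 : ℝ) (hα : α = 1 ∨ α = 0) (hβ : β = 1 ∨ β = 0) (h1 : α * n1 = 0)
    (h2 : β * n2 = 0) : (Mat α β t a b n1 n2).det = -W α β t a b n1 n2 := by
  rw [Matrix.det_fin_three]
  rcases hα with rfl | rfl <;> rcases hβ with rfl | rfl
  · have e1 : n1 = 0 := by linarith
    have e2 : n2 = 0 := by linarith
    subst e1; subst e2
    simp [Mat, W, dt, dp, dr]; ring
  · have e1 : n1 = 0 := by linarith
    subst e1
    simp [Mat, W, dt, dp, dr]; ring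
  · have e2 : n2 = 0 := by linarith
    subst e2
    simp [Mat, W, dt, dp, dr]; ring
  · simp [Mat, W, dt, dp, dr]; ring

/-- the momentum as a vector of `Fin 3 → ℝ` -/
noncomputable def mom (a b : ℝ) : Fin 3 → ℝ := ![m1 a b, m2 a b, m3 a b]

theorem flux_identity {α β t a b n1 n2 : ℝ} (ha : |a| ≤ 1) (hb : |b| ≤ 1)
    (hα : (α = 1 ∧ |a| < 1) ∨ (α = 0 ∧ ¬ |a| < 1)) (hβ : (β = 1 ∧ |b| < 1) ∨ (β = 0 ∧ ¬ |b| < 1))
    (h1 : α * n1 = 0) (h2 : β * n2 = 0) (i : Fin 3) :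
    W α β t a b n1 n2 * mom a b i =
      V0 α β t a b n1 n2 * dt α β t a b n1 n2 i + V1 α β t a b n1 n2 * dp α β t a b n1 n2 i
        + V2 α β t a b n1 n2 * dr α β t a b n1 n2 i := by
  rcases hα with ⟨rfl, hα⟩ | ⟨rfl, hα⟩ <;> rcases hβ with ⟨rfl, hβ⟩ | ⟨rfl, hβ⟩
  · have e1 : n1 = 0 := by linarith
    have e2 : n2 = 0 := by linarith
    subst e1; subst e2
    have hn1 : ¬ (|a| < 1 ∧ ¬ |b| < 1) := fun h => h.2 hβ
    have hn2 : ¬ (¬ |a| < 1 ∧ |b| < 1) := fun h => h.1 hα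
    fin_cases i <;>
      simp only [mom, m1, m2, m3, if_neg hn1, if_neg hn2, dt, dp, dr, W, V0, V1, V2, c1, c2, c3, la, lab,
        laa, laaa, Fin.zero_eta, Fin.mk_one, Fin.reduceFinMk, Matrix.cons_val] <;> ring
  · have e1 : n1 = 0 := by linarith
    subst e1
    have hn1 : (|a| < 1 ∧ ¬ |b| < 1) := ⟨hα, hβ⟩
    rcases abs_cases_one hb hβ with rfl | rfl <;>
    fin_cases i <;>
      simp only [mom, m1, m2, m3, if_pos hn1, dt, dp, dr, W, V0, V1, V2, s1, s2, s3, la, lab,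
        laa, laaa, Fin.zero_eta, Fin.mk_one, Fin.reduceFinMk, Matrix.cons_val] <;> ring
  · have e2 : n2 = 0 := by linarith
    subst e2
    have hn1 : ¬ (|a| < 1 ∧ ¬ |b| < 1) := fun h => h.2 hβ
    have hn2 : (¬ |a| < 1 ∧ |b| < 1) := ⟨hα, hβ⟩
    rcases abs_cases_one ha hα with rfl | rfl <;>
    fin_cases i <;>
      simp only [mom, m1, m2, m3, if_neg hn1, if_pos hn2, dt, dp, dr, W, V0, V1, V2, s1, s2, s3, la, lab,
        laa, laaa, Fin.zero_eta, Fin.mk_one, Fin.reduceFinMk, Matrix.cons_val] <;> ring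
  · have hn1 : ¬ (|a| < 1 ∧ ¬ |b| < 1) := fun h => hα h.1
    have hn2 : ¬ (¬ |a| < 1 ∧ |b| < 1) := fun h => hβ h.2
    rcases abs_cases_one ha hα with rfl | rfl <;> rcases abs_cases_one hb hβ with rfl | rfl <;>
    fin_cases i <;>
      simp only [mom, m1, m2, m3, if_neg hn1, if_neg hn2, dt, dp, dr, W, V0, V1, V2, c1, c2, c3, la, lab,
        laa, laaa, Fin.zero_eta, Fin.mk_one, Fin.reduceFinMk, Matrix.cons_val] <;> ring

end Pool.Agent.H231.R3
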