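import Pool.Agent.H231.R3.Defs

set_option autoImplicit false

namespace Pool.Agent.H231.R3

variable {x y z a b x' y' z' A B : ℝ}

theorem Sol.abs_a (h : Sol x y z a b) : |a| ≤ 1 := abs_le.mpr ⟨h.a1, h.a2⟩
theorem Sol.abs_b (h : Sol x y z a b) : |b| ≤ 1 := abs_le.mpr ⟨h.b1, h.b2⟩

theorem Sol.vi_a (h : Sol x y z a b) {c : ℝ} (hc1 : -1 ≤ c) (hc2 : c ≤ 1) :
    0 ≤ Fa x y z a b * (c - a) := by
  have h1 := mul_nonneg (show 0 ≤ (1 + c) / 2 by linarith) h.fa1
  have h2 := mul_nonneg (show 0 ≤ (1 - c) / 2 by linarith) (neg_nonneg.mpr h.fa2)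
  have : Fa x y z a b * (c - a) = (1 + c) / 2 * (Fa x y z a b * (1 - a))
      + (1 - c) / 2 * -(Fa x y z a b * (1 + a)) := by ring
  rw [this]; linarith

theorem Sol.vi_b (h : Sol x y z a b) {c : ℝ} (hc1 : -1 ≤ c) (hc2 : c ≤ 1) :
    Fb x y z a b * (c - b) ≤ 0 := by
  have h1 := mul_nonneg (show 0 ≤ (1 + c) / 2 by linarith) (neg_nonneg.mpr h.fb1)
  have h2 := mul_nonneg (show 0 ≤ (1 - c) / 2 by linarith) h.fb2
  have : Fb x y z a b * (c - b) = -((1 + c) / 2 * -(Fb x y z a b * (1 - b)))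
      - (1 - c) / 2 * (Fb x y z a b * (1 + b)) := by ring
  rw [this]; linarith

theorem Sol.a_mul (h : Sol x y z a b) : a * Fa x y z a b = -|Fa x y z a b| := by
  rcases lt_trichotomy (Fa x y z a b) 0 with hF | hF | hF
  · have h1 : 1 - a ≤ 0 := by
      by_contra hc
      have := mul_neg_of_neg_of_pos hF (not_le.mp hc)
      linarith [h.fa1]
    have : a = 1 := le_antisymm h.a2 (by linarith)
    rw [abs_of_neg hF, this]; ring
  · rw [hF]; simp
  · have h1 : 1 + a ≤ 0 := by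
      by_contra hc
      have := mul_pos hF (not_le.mp hc)
      linarith [h.fa2]
    have : a = -1 := le_antisymm (by linarith) h.a1
    rw [abs_of_pos hF, this]; ring

theorem Sol.b_mul (h : Sol x y z a b) : b * Fb x y z a b = |Fb x y z a b| := by
  rcases lt_trichotomy (Fb x y z a b) 0 with hF | hF | hF
  · have h1 : 1 + b ≤ 0 := by
      by_contra hc
      have := mul_neg_of_neg_of_pos hF (not_le.mp hc)
      linarith [h.fb2]
    have : b = -1 := le_antisymm (by linarith) h.b1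
    rw [abs_of_neg hF, this]; ring
  · rw [hF]; simp
  · have h1 : 1 - b ≤ 0 := by
      by_contra hc
      have := mul_pos hF (not_le.mp hc)
      linarith [h.fb1]
    have : b = 1 := le_antisymm h.b2 (by linarith)
    rw [abs_of_pos hF, this]; ring

theorem Sol.S_bound (h : Sol x y z a b) :
    |Fa x y z a b| + |Fb x y z a b| ≤ -(a * x - b * y) := by
  have h1 : a * Fa x y z a b - b * Fb x y z a b
      = (1 - (a ^ 2 + b ^ 2) / 100) * (a * x - b * y) := by
    unfold Fa Fb; ring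
  rw [h.a_mul, h.b_mul] at h1
  have ha2 : a ^ 2 ≤ 1 := by nlinarith [h.a1, h.a2]
  have hb2 : b ^ 2 ≤ 1 := by nlinarith [h.b1, h.b2]
  have hp := abs_nonneg (Fa x y z a b)
  have hq := abs_nonneg (Fb x y z a b)
  have hk : 0 ≤ (a ^ 2 + b ^ 2) / 100 := by positivity
  have hS : 0 ≤ -(a * x - b * y) := by
    by_contra hc
    have hc' := not_le.mp hc
    have : 0 < (1 - (a ^ 2 + b ^ 2) / 100) * (a * x - b * y) := by
      apply mul_pos <;> linarith
    linarith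
  have := mul_nonneg hk hS
  linarith

theorem lin3 {p q r c : ℝ} (x y z : ℝ) (hp : |p| ≤ c) (hq : |q| ≤ c) (hr : |r| ≤ c) :
    |p * x + q * y + r * z| ≤ c * (|x| + |y| + |z|) := by
  have h1 : |p * x + q * y + r * z| ≤ |p| * |x| + |q| * |y| + |r| * |z| := by
    rw [← abs_mul, ← abs_mul, ← abs_mul]
    exact (abs_add_le _ _).trans (add_le_add (abs_add_le _ _) le_rfl)
  have h2 := mul_le_mul_of_nonneg_right hp (abs_nonneg x)
  have h3 := mul_le_mul_of_nonneg_right hq (abs_nonneg y)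
  have h4 := mul_le_mul_of_nonneg_right hr (abs_nonneg z)
  linarith

theorem sq_le_one_of_abs {a : ℝ} (h : |a| ≤ 1) : a ^ 2 ≤ 1 := by
  rw [← sq_abs]; exact pow_le_one₀ (abs_nonneg _) h

theorem Fa_abs (x y z : ℝ) (ha : |a| ≤ 1) (hb : |b| ≤ 1) : |Fa x y z a b| ≤ 2 * (|x| + |y| + |z|) := by
  have ha2 := sq_le_one_of_abs ha
  have hb2 := sq_le_one_of_abs hb
  unfold Fa
  apply lin3
  · rw [abs_le]; constructor <;> nlinarith [sq_nonneg a, sq_nonneg b]
  · rw [abs_le]; constructor <;> nlinarith [sq_nonneg (a + b), sq_nonneg (a - b)]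
  · linarith

theorem Fb_abs (x y z : ℝ) (ha : |a| ≤ 1) (hb : |b| ≤ 1) : |Fb x y z a b| ≤ 2 * (|x| + |y| + |z|) := by
  have ha2 := sq_le_one_of_abs ha
  have hb2 := sq_le_one_of_abs hb
  unfold Fb
  apply lin3
  · rw [abs_le]; constructor <;> nlinarith [sq_nonneg (a + b), sq_nonneg (a - b)]
  · rw [abs_le]; constructor <;> nlinarith [sq_nonneg a, sq_nonneg b]
  · linarith

/-- Package of the elementary estimates used below. -/
theorem core (hX : Sol x y z a b) (hY : Sol x' y' z' A B) :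
    ∃ α β S T : ℝ,
      α = Fa x y z A B - Fa x y z a b ∧ β = Fb x y z A B - Fb x y z a b ∧
      S = -(a + A) * x + (b + B) * y ∧
      α * (A - a) ≤ 2 * (|x' - x| + |y' - y| + |z' - z|) * |A - a| ∧
      -(2 * (|x' - x| + |y' - y| + |z' - z|) * |B - b|) ≤ β * (B - b) ∧
      Fa x y z a b * (A - a) ≤ 2 * (|x' - x| + |y' - y| + |z' - z|) * |A - a| - α * (A - a) ∧
      -(2 * (|x' - x| + |y' - y| + |z' - z|) * |B - b|) - β * (B - b) ≤ Fb x y z a b * (B - b) ∧
      α * (A - a) - β * (B - b) = S / 100 * ((A - a) ^ 2 + (B - b) ^ 2) ∧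
      |α| ≤ T + 2 * (|x' - x| + |y' - y| + |z' - z|) ∧
      |β| ≤ T + 2 * (|x' - x| + |y' - y| + |z' - z|) ∧
      T - (|x' - x| + |y' - y| + |z' - z|) ≤ S ∧
      S ≤ T + (|x' - x| + |y' - y| + |z' - z|) ∧
      |Fa x y z a b| + |Fb x y z a b| ≤ T := by
  set d := |x' - x| + |y' - y| + |z' - z| with hd
  have eA := Fa_abs (x' - x) (y' - y) (z' - z) hY.abs_a hY.abs_b
  have eB := Fb_abs (x' - x) (y' - y) (z' - z) hY.abs_a hY.abs_b
  rw [← hd] at eA eB
  set εa := Fa (x' - x) (y' - y) (z' - z) A B with hεa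
  set εb := Fb (x' - x) (y' - y) (z' - z) A B with hεb
  have la : Fa x y z A B = Fa x' y' z' A B - εa := by rw [hεa]; unfold Fa; ring
  have lb : Fb x y z A B = Fb x' y' z' A B - εb := by rw [hεb]; unfold Fb; ring
  have v1 := hX.vi_a hY.a1 hY.a2
  have v2 := hX.vi_b hY.b1 hY.b2
  have v3 := hY.vi_a hX.a1 hX.a2
  have v4 := hY.vi_b hX.b1 hX.b2
  have p1 : |εa * (A - a)| ≤ 2 * d * |A - a| := by
    rw [abs_mul]; exact mul_le_mul_of_nonneg_right eA (abs_nonneg _)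
  have p2 : |εb * (B - b)| ≤ 2 * d * |B - b| := by
    rw [abs_mul]; exact mul_le_mul_of_nonneg_right eB (abs_nonneg _)
  have p1' := abs_le.mp p1
  have p2' := abs_le.mp p2
  have sX := hX.S_bound
  have sY := hY.S_bound
  have n1 := abs_nonneg (Fa x y z a b)
  have n2 := abs_nonneg (Fb x y z a b)
  have n3 := abs_nonneg (Fa x' y' z' A B)
  have n4 := abs_nonneg (Fb x' y' z' A B)
  have q1 : |A * (x' - x)| ≤ |x' - x| := by
    rw [abs_mul]; nlinarith [abs_nonneg (x' - x), hY.abs_a]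
  have q2 : |B * (y' - y)| ≤ |y' - y| := by
    rw [abs_mul]; nlinarith [abs_nonneg (y' - y), hY.abs_b]
  have q1' := abs_le.mp q1
  have q2' := abs_le.mp q2
  have nz := abs_nonneg (z' - z)
  refine ⟨Fa x y z A B - Fa x y z a b, Fb x y z A B - Fb x y z a b, -(a + A) * x + (b + B) * y,
    -(a * x - b * y) + -(A * x' - B * y'), rfl, rfl, rfl, ?_, ?_, ?_, ?_, ?_, ?_, ?_, ?_, ?_, ?_⟩
  · rw [la]; linarith [p1'.1, p1'.2]
  · rw [lb]; linarith [p2'.1, p2'.2]
  · rw [la]; linarith [p1'.1, p1'.2]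
  · rw [lb]; linarith [p2'.1, p2'.2]
  · unfold Fa Fb; ring
  · rw [la]
    have : |Fa x' y' z' A B - εa - Fa x y z a b| ≤ |Fa x' y' z' A B| + |εa| + |Fa x y z a b| :=
      (abs_sub _ _).trans (add_le_add (abs_sub _ _) le_rfl)
    linarith
  · rw [lb]
    have : |Fb x' y' z' A B - εb - Fb x y z a b| ≤ |Fb x' y' z' A B| + |εb| + |Fb x y z a b| :=
      (abs_sub _ _).trans (add_le_add (abs_sub _ _) le_rfl)
    linarith
  · rw [hd]; linarith [q1'.1, q1'.2, q2'.1, q2'.2]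
  · rw [hd]; linarith [q1'.1, q1'.2, q2'.1, q2'.2]
  · linarith

/-- Real arithmetic part of the Hölder estimate. -/
theorem holder_aux {u v d T α β S G N X Y Z : ℝ} {h k : ℝ}
    (hu : u = |h|) (hv : v = |k|) (hu2 : u ≤ 2) (hv2 : v ≤ 2) (hd : 0 ≤ d) (hT : 0 ≤ T)
    (e1 : α * h ≤ 2 * d * u) (e2 : -(2 * d * v) ≤ β * k)
    (e3 : α * h - β * k = S / 100 * (h ^ 2 + k ^ 2))
    (e4 : |α| ≤ T + 2 * d) (e5 : |β| ≤ T + 2 * d) (e6 : T - d ≤ S) (e7 : S ≤ T + d)
    (e8 : G * k = α - S / 100 * h) (e9 : G * h = β + S / 100 * k)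
    (hN : N = X + Y + Z)
    (e10 : 97 / 100 * (X + Y) ≤ T + 2 * Z) (e11 : Z ≤ |G| + 2 / 100 * (X + Y)) :
    T * (u + v) ≤ 404 * d ∧ N * (u + v) ^ 2 ≤ 5000 * d := by
  have hu0 : 0 ≤ u := hu ▸ abs_nonneg h
  have hv0 : 0 ≤ v := hv ▸ abs_nonneg k
  have hu' : u ^ 2 = h ^ 2 := by rw [hu, sq_abs]
  have hv' : v ^ 2 = k ^ 2 := by rw [hv, sq_abs]
  have f1 : (T - d) * (u ^ 2 + v ^ 2) ≤ S * (u ^ 2 + v ^ 2) :=
    mul_le_mul_of_nonneg_right e6 (by positivity)
  have f2 : S * (u ^ 2 + v ^ 2) ≤ 200 * d * (u + v) := by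
    rw [hu', hv']; linarith
  have f3 : u ^ 2 + v ^ 2 ≤ 2 * (u + v) := by
    nlinarith only [mul_nonneg hu0 (sub_nonneg.mpr hu2), mul_nonneg hv0 (sub_nonneg.mpr hv2)]
  have f4 : T * (u ^ 2 + v ^ 2) ≤ 202 * d * (u + v) := by
    have := mul_le_mul_of_nonneg_left f3 hd
    linarith
  have f5 : T * (u + v) ^ 2 ≤ 404 * d * (u + v) := by
    have : (u + v) ^ 2 ≤ 2 * (u ^ 2 + v ^ 2) := by nlinarith only [sq_nonneg (u - v)]
    have := mul_le_mul_of_nonneg_left this hT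
    linarith
  have f6 : T * (u + v) ≤ 404 * d := by
    rcases eq_or_lt_of_le (add_nonneg hu0 hv0) with h0 | h0
    · rw [← h0]; linarith
    · have : T * (u + v) * (u + v) ≤ 404 * d * (u + v) := by linarith [f5, pow_two (u + v)]
      exact le_of_mul_le_mul_right this h0
  refine ⟨f6, ?_⟩
  have hS : |S| ≤ T + d := by rw [abs_le]; constructor <;> linarith
  have f7 : |G| * v ≤ T + 2 * d + (T + d) / 100 * 2 := by
    have : |G| * v = |α - S / 100 * h| := by rw [hv, ← abs_mul, e8]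
    rw [this]
    have h1 : |α - S / 100 * h| ≤ |α| + |S| / 100 * u := by
      refine (abs_sub _ _).trans (add_le_add le_rfl ?_)
      rw [abs_mul, abs_div, hu, abs_of_pos (by norm_num : (0:ℝ) < 100)]
    have h2 : |S| / 100 * u ≤ (T + d) / 100 * 2 := by
      apply mul_le_mul _ hu2 hu0 (by positivity)
      linarith
    linarith
  have f8 : |G| * u ≤ T + 2 * d + (T + d) / 100 * 2 := by
    have : |G| * u = |β + S / 100 * k| := by rw [hu, ← abs_mul, e9]
    rw [this]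
    have h1 : |β + S / 100 * k| ≤ |β| + |S| / 100 * v := by
      refine (abs_add_le _ _).trans (add_le_add le_rfl ?_)
      rw [abs_mul, abs_div, hv, abs_of_pos (by norm_num : (0:ℝ) < 100)]
    have h2 : |S| / 100 * v ≤ (T + d) / 100 * 2 := by
      apply mul_le_mul _ hv2 hv0 (by positivity)
      linarith
    linarith
  have f9 : |G| * (u + v) ≤ 204 / 100 * T + 404 / 100 * d := by linarith
  have f10 : |G| * (u + v) ^ 2 ≤ 841 * d := by
    have h1 := mul_le_mul_of_nonneg_right f9 (add_nonneg hu0 hv0)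
    have h2 : d * (u + v) ≤ d * 4 := mul_le_mul_of_nonneg_left (by linarith) hd
    have h3 : |G| * (u + v) ^ 2 = |G| * (u + v) * (u + v) := by ring
    rw [h3]; linarith
  have f11 : T * (u + v) ^ 2 ≤ 1616 * d := by
    have h2 : d * (u + v) ≤ d * 4 := mul_le_mul_of_nonneg_left (by linarith) hd
    linarith
  have f12 : N ≤ 11 / 10 * T + 327 / 100 * |G| := by linarith only [hN, e10, e11, hT, abs_nonneg G]
  have f13 := mul_le_mul_of_nonneg_right f12 (sq_nonneg (u + v))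
  linarith

theorem fa_lower {a b : ℝ} (x y z : ℝ) (ha : |a| ≤ 1) (hb : |b| ≤ 1) :
    99 / 100 * |x| ≤ |Fa x y z a b| + 2 / 100 * |y| + |z| := by
  have ha2 := sq_le_one_of_abs ha
  have hb2 := sq_le_one_of_abs hb
  have h1 : (1 + (b ^ 2 - a ^ 2) / 100) * x = Fa x y z a b - a * b / 50 * y - b * z := by
    unfold Fa; ring
  have h2 : |(1 + (b ^ 2 - a ^ 2) / 100) * x| ≤ |Fa x y z a b| + |a * b / 50 * y| + |b * z| := by
    rw [h1]
    exact (abs_sub _ _).trans (add_le_add (abs_sub _ _) le_rfl)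
  rw [abs_mul, abs_mul, abs_mul] at h2
  have h3 : 99 / 100 ≤ |1 + (b ^ 2 - a ^ 2) / 100| := by
    refine le_trans ?_ (le_abs_self _)
    linarith [sq_nonneg b]
  have h4 : |a * b / 50| ≤ 2 / 100 := by
    have : (a + b) ^ 2 = a ^ 2 + 2 * (a * b) + b ^ 2 := by ring
    have : (a - b) ^ 2 = a ^ 2 - 2 * (a * b) + b ^ 2 := by ring
    rw [abs_le]; constructor <;> linarith [sq_nonneg (a + b), sq_nonneg (a - b)]
  have h5 := mul_le_mul_of_nonneg_right h3 (abs_nonneg x)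
  have h6 := mul_le_mul_of_nonneg_right h4 (abs_nonneg y)
  have h7 := mul_le_mul_of_nonneg_right hb (abs_nonneg z)
  linarith

theorem fb_lower {a b : ℝ} (x y z : ℝ) (ha : |a| ≤ 1) (hb : |b| ≤ 1) :
    99 / 100 * |y| ≤ |Fb x y z a b| + 2 / 100 * |x| + |z| := by
  have h := fa_lower y x z hb ha
  have e : Fa y x z b a = Fb x y z a b := by unfold Fa Fb; ring
  rwa [e] at h

theorem z_upper {a b A B : ℝ} (x y z : ℝ) (ha : |a| ≤ 1) (hb : |b| ≤ 1) (hA : |A| ≤ 1) (hB : |B| ≤ 1) :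
    |z| ≤ |z + (x * (b + B) + y * (a + A)) / 100| + 2 / 100 * (|x| + |y|) := by
  have h1 : |z| ≤ |z + (x * (b + B) + y * (a + A)) / 100| + |(x * (b + B) + y * (a + A)) / 100| := by
    have := abs_sub (z + (x * (b + B) + y * (a + A)) / 100) ((x * (b + B) + y * (a + A)) / 100)
    rwa [add_sub_cancel_right] at this
  have h2 : |(x * (b + B) + y * (a + A)) / 100| ≤ 2 / 100 * (|x| + |y|) := by
    rw [abs_div, abs_of_pos (by norm_num : (0:ℝ) < 100)]
    have h3 : |x * (b + B) + y * (a + A)| ≤ |x| * |b + B| + |y| * |a + A| := by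
      rw [← abs_mul, ← abs_mul]; exact abs_add_le _ _
    have h4 : |b + B| ≤ 2 := (abs_add_le _ _).trans (by linarith)
    have h5 : |a + A| ≤ 2 := (abs_add_le _ _).trans (by linarith)
    have h6 := mul_le_mul_of_nonneg_left h4 (abs_nonneg x)
    have h7 := mul_le_mul_of_nonneg_left h5 (abs_nonneg y)
    linarith
  linarith

theorem holder_full (hX : Sol x y z a b) (hY : Sol x' y' z' A B) :
    (|x| + |y| + |z|) * (|A - a| + |B - b|) ^ 2 ≤ 5000 * (|x' - x| + |y' - y| + |z' - z|) := by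
  obtain ⟨α, β, S, T, dα, dβ, dS, e1, e2, e3, e4, e5, e6, e7, e8, e9, e10⟩ := core hX hY
  set d := |x' - x| + |y' - y| + |z' - z| with hd
  have ha := hX.abs_a
  have hb := hX.abs_b
  have ha2 := sq_le_one_of_abs ha
  have hb2 := sq_le_one_of_abs hb
  have n1 := abs_nonneg (Fa x y z a b)
  have n2 := abs_nonneg (Fb x y z a b)
  have hT : 0 ≤ T := by linarith
  have hu2 : |A - a| ≤ 2 := by
    rw [abs_le]; constructor <;> linarith [hX.a1, hX.a2, hY.a1, hY.a2]
  have hv2 : |B - b| ≤ 2 := by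
    rw [abs_le]; constructor <;> linarith [hX.b1, hX.b2, hY.b1, hY.b2]
  have hd0 : 0 ≤ d := by positivity
  have g8 : (z + (x * (b + B) + y * (a + A)) / 100) * (B - b) = α - S / 100 * (A - a) := by
    rw [dα, dS]; unfold Fa; ring
  have g9 : (z + (x * (b + B) + y * (a + A)) / 100) * (A - a) = β + S / 100 * (B - b) := by
    rw [dβ, dS]; unfold Fb; ring
  have r1 := z_upper x y z ha hb hY.abs_a hY.abs_b
  have r2 := fa_lower x y z ha hb
  have r3 := fb_lower x y z ha hb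
  have r4 : 97 / 100 * (|x| + |y|) ≤ T + 2 * |z| := by linarith only [r2, r3, e10]
  exact (holder_aux (u := |A - a|) (v := |B - b|) (T := T) (α := α) (β := β) (S := S)
    (G := z + (x * (b + B) + y * (a + A)) / 100) rfl rfl hu2 hv2 hd0 hT e1 e2 e5 e6 e7 e8 e9 g8 g9 rfl
    r4 r1).2

theorem FF_sub_abs (x y z : ℝ) (ha : |a| ≤ 1) (hb : |b| ≤ 1) (hA : |A| ≤ 1) (hB : |B| ≤ 1) :
    |FF x y z A B - FF x y z a b| ≤ 2 * (|x| + |y| + |z|) * (|A - a| + |B - b|) := by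
  have ha2 := sq_le_one_of_abs ha
  have hb2 := sq_le_one_of_abs hb
  have hA2 := sq_le_one_of_abs hA
  have hB2 := sq_le_one_of_abs hB
  have gen : ∀ a b A B : ℝ, a ^ 2 ≤ 1 → b ^ 2 ≤ 1 → A ^ 2 ≤ 1 → B ^ 2 ≤ 1 →
      |(A - a) * (1 + (B ^ 2 - (A ^ 2 + A * a + a ^ 2) / 3) / 100) + (B - b) * (a * (B + b) / 100)|
        ≤ 2 * (|A - a| + |B - b|) := by
    intro a b A B ha2 hb2 hA2 hB2
    have e1 : |1 + (B ^ 2 - (A ^ 2 + A * a + a ^ 2) / 3) / 100| ≤ 2 := by
      rw [abs_le]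
      constructor <;> nlinarith [sq_nonneg A, sq_nonneg a, sq_nonneg B, sq_nonneg (A - a), sq_nonneg (A + a)]
    have e2 : |a * (B + b) / 100| ≤ 2 := by
      rw [abs_le]
      constructor <;> nlinarith [sq_nonneg (a + B), sq_nonneg (a - B), sq_nonneg (a + b), sq_nonneg (a - b)]
    have h := abs_add_le ((A - a) * (1 + (B ^ 2 - (A ^ 2 + A * a + a ^ 2) / 3) / 100))
      ((B - b) * (a * (B + b) / 100))
    rw [abs_mul, abs_mul] at h
    have h1 := mul_le_mul_of_nonneg_left e1 (abs_nonneg (A - a))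
    have h2 := mul_le_mul_of_nonneg_left e2 (abs_nonneg (B - b))
    linarith
  have i1 : g1 A B - g1 a b =
      (A - a) * (1 + (B ^ 2 - (A ^ 2 + A * a + a ^ 2) / 3) / 100) + (B - b) * (a * (B + b) / 100) := by
    unfold g1; ring
  have i2 : g2 A B - g2 a b =
      (B - b) * (1 + (A ^ 2 - (B ^ 2 + B * b + b ^ 2) / 3) / 100) + (A - a) * (b * (A + a) / 100) := by
    unfold g2; ring
  have i3 : g3 A B - g3 a b = (A - a) * b + (B - b) * A := by
    unfold g3; ring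
  have k1 := gen a b A B ha2 hb2 hA2 hB2
  have k2 := gen b a B A hb2 ha2 hB2 hA2
  rw [← i1] at k1
  rw [← i2] at k2
  have k3 : |g3 A B - g3 a b| ≤ 2 * (|A - a| + |B - b|) := by
    rw [i3]
    have h := abs_add_le ((A - a) * b) ((B - b) * A)
    rw [abs_mul, abs_mul] at h
    have h1 := mul_le_mul_of_nonneg_left hb (abs_nonneg (A - a))
    have h2 := mul_le_mul_of_nonneg_left hA (abs_nonneg (B - b))
    have := abs_nonneg (A - a)
    have := abs_nonneg (B - b)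
    linarith
  have e : FF x y z A B - FF x y z a b
      = (g1 A B - g1 a b) * x + (g2 A B - g2 a b) * y + (g3 A B - g3 a b) * z := by
    unfold FF; ring
  rw [e]
  refine (lin3 x y z k1 (by rw [add_comm |A - a|]; exact k2) k3).trans ?_
  apply le_of_eq; ring

theorem master_aux {e X1 X2 Y1 Y2 Z G u v : ℝ} (he : e = u + v) (hu : 0 ≤ u) (hv : 0 ≤ v)
    (h1 : 0 ≤ X1) (h2 : X1 ≤ 2 * u - Y1) (h3 : -(2 * v) - Y2 ≤ X2) (h4 : X2 ≤ 0)
    (h7 : -(3 * e) ≤ Y1) (h8 : Y2 ≤ 3 * e)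
    (h9 : |Z| ≤ 5000 * e) (h10 : |G| ≤ 2 * e) :
    |G + (X1 + X2 + (Y1 + Y2) / 2 + Z / 600)| ≤ 30 * e := by
  have k1 := abs_le.mp h9
  have k2 := abs_le.mp h10
  obtain ⟨k3, k4⟩ := k1
  obtain ⟨k5, k6⟩ := k2
  rw [abs_le]
  constructor <;> linarith

theorem cubic_bound (x y z h k : ℝ) :
    |x * (h ^ 3 - 3 * h * k ^ 2) - y * (3 * h ^ 2 * k - k ^ 3)|
      ≤ (|x| + |y| + |z|) * (|h| + |k|) ^ 2 * (|h| + |k|) := by
  have hu := abs_nonneg h
  have hv := abs_nonneg k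
  have h1 : |h ^ 3 - 3 * h * k ^ 2| ≤ (|h| + |k|) ^ 3 := by
    refine (abs_sub _ _).trans ?_
    rw [abs_pow, abs_mul, abs_mul, abs_pow, abs_of_pos (by norm_num : (0:ℝ) < 3)]
    have : 0 ≤ 3 * |h| ^ 2 * |k| + |k| ^ 3 := by positivity
    linarith only [this, show (|h| + |k|) ^ 3 = |h| ^ 3 + 3 * |h| * |k| ^ 2
      + (3 * |h| ^ 2 * |k| + |k| ^ 3) by ring]
  have h2 : |3 * h ^ 2 * k - k ^ 3| ≤ (|h| + |k|) ^ 3 := by
    refine (abs_sub _ _).trans ?_
    rw [abs_pow, abs_mul, abs_mul, abs_pow, abs_of_pos (by norm_num : (0:ℝ) < 3)]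
    have : 0 ≤ |h| ^ 3 + 3 * |h| * |k| ^ 2 := by positivity
    linarith only [this, show (|h| + |k|) ^ 3 = (3 * |h| ^ 2 * |k| + |k| ^ 3)
      + (|h| ^ 3 + 3 * |h| * |k| ^ 2) by ring]
  have h3 := mul_le_mul_of_nonneg_left h1 (abs_nonneg x)
  have h4 := mul_le_mul_of_nonneg_left h2 (abs_nonneg y)
  refine (abs_sub _ _).trans ?_
  rw [abs_mul, abs_mul]
  have h5 : 0 ≤ |z| * (|h| + |k|) ^ 3 := by positivity
  linarith only [h3, h4, h5, show (|x| + |y| + |z|) * (|h| + |k|) ^ 2 * (|h| + |k|)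
    = |x| * (|h| + |k|) ^ 3 + |y| * (|h| + |k|) ^ 3 + |z| * (|h| + |k|) ^ 3 by ring]

/-- The master inequality: it says at once that `u = FF · q` is Lipschitz and differentiable with
gradient `(g1 q, g2 q, g3 q)`. -/
theorem master (hX : Sol x y z a b) (hY : Sol x' y' z' A B) :
    |FF x' y' z' A B - FF x' y' z' a b|
      ≤ 30 * (|x' - x| + |y' - y| + |z' - z|) * (|A - a| + |B - b|) := by
  have hold := holder_full hX hY
  have hsub := FF_sub_abs (x' - x) (y' - y) (z' - z) hX.abs_a hX.abs_b hY.abs_a hY.abs_b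
  obtain ⟨α, β, S, T, dα, dβ, dS, e1, e2, e3, e4, e5, e6, e7, e8, e9, e10⟩ := core hX hY
  have v1 := hX.vi_a hY.a1 hY.a2
  have v2 := hX.vi_b hY.b1 hY.b2
  set d := |x' - x| + |y' - y| + |z' - z| with hd
  have hd0 : 0 ≤ d := by positivity
  have hT : 0 ≤ T := by linarith [abs_nonneg (Fa x y z a b), abs_nonneg (Fb x y z a b)]
  set u := |A - a| with hu
  set v := |B - b| with hv
  have hu0 : 0 ≤ u := abs_nonneg _
  have hv0 : 0 ≤ v := abs_nonneg _
  have hu2 : u ≤ 2 := by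
    rw [hu, abs_le]; constructor <;> linarith [hX.a1, hX.a2, hY.a1, hY.a2]
  have hv2 : v ≤ 2 := by
    rw [hv, abs_le]; constructor <;> linarith [hX.b1, hX.b2, hY.b1, hY.b2]
  have hu' : u ^ 2 = (A - a) ^ 2 := by rw [hu, sq_abs]
  have hv' : v ^ 2 = (B - b) ^ 2 := by rw [hv, sq_abs]
  have id1 : FF x' y' z' A B - FF x' y' z' a b =
      (FF (x' - x) (y' - y) (z' - z) A B - FF (x' - x) (y' - y) (z' - z) a b)
      + (Fa x y z a b * (A - a) + Fb x y z a b * (B - b) + (α * (A - a) + β * (B - b)) / 2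
        + (x * ((A - a) ^ 3 - 3 * (A - a) * (B - b) ^ 2)
            - y * (3 * (A - a) ^ 2 * (B - b) - (B - b) ^ 3)) / 600) := by
    rw [dα, dβ]; unfold FF Fa Fb g1 g2 g3; ring
  have c0 := cubic_bound x y z (A - a) (B - b)
  have c1 := mul_le_mul_of_nonneg_right hold (add_nonneg hu0 hv0)
  have f1 : -d * (u ^ 2 + v ^ 2) ≤ S * (u ^ 2 + v ^ 2) :=
    mul_le_mul_of_nonneg_right (by linarith only [e8, hT]) (by positivity)
  have f3 : u ^ 2 + v ^ 2 ≤ 2 * (u + v) := by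
    nlinarith only [mul_nonneg hu0 (sub_nonneg.mpr hu2), mul_nonneg hv0 (sub_nonneg.mpr hv2)]
  have f3' := mul_le_mul_of_nonneg_left f3 hd0
  rw [← hu', ← hv'] at e5
  have w1 : α * (A - a) ≤ 2 * d * u := e1
  have w2 : -(2 * d * v) ≤ β * (B - b) := e2
  have du : 0 ≤ d * u := mul_nonneg hd0 hu0
  have dv : 0 ≤ d * v := mul_nonneg hd0 hv0
  have w5 : -(d * (2 * (u + v))) ≤ S * (u ^ 2 + v ^ 2) := by linarith only [f1, f3']
  have w6 : α * (A - a) - β * (B - b) = S * (u ^ 2 + v ^ 2) / 100 := by linarith only [e5]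
  have w3 : -(3 * (d * (u + v))) ≤ α * (A - a) := by linarith only [w5, w6, w2, du, dv]
  have w4 : β * (B - b) ≤ 3 * (d * (u + v)) := by linarith only [w5, w6, w1, du, dv]
  rw [id1, show 30 * d * (u + v) = 30 * (d * u + d * v) by ring]
  refine master_aux rfl du dv v1 ?_ ?_ v2 ?_ ?_ ?_ ?_
  · linarith only [e3]
  · linarith only [e4]
  · linarith only [w3]
  · linarith only [w4]
  · refine c0.trans (c1.trans ?_)
    linarith only
  · refine hsub.trans ?_
    linarith only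

end Pool.Agent.H231.R3
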