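import Pool.Agent.H231.R3.Ineq0

set_option autoImplicit false

namespace Pool.Agent.H231.R3

/-- squared distance of two points of the gradient surface -/
noncomputable def dg (a b A B : ℝ) : ℝ :=
  (g1 A B - g1 a b) ^ 2 + (g2 A B - g2 a b) ^ 2 + (g3 A B - g3 a b) ^ 2

theorem dg_nonneg (a b A B : ℝ) : 0 ≤ dg a b A B := by
  unfold dg; positivity

theorem cs2 (p q h k c : ℝ) (hpq : p ^ 2 + q ^ 2 ≤ c) : (h * p + k * q) ^ 2 ≤ c * (h ^ 2 + k ^ 2) := by
  have h1 : (h * p + k * q) ^ 2 ≤ (p ^ 2 + q ^ 2) * (h ^ 2 + k ^ 2) := by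
    nlinarith [sq_nonneg (p * k - q * h)]
  have h2 : (p ^ 2 + q ^ 2) * (h ^ 2 + k ^ 2) ≤ c * (h ^ 2 + k ^ 2) :=
    mul_le_mul_of_nonneg_right hpq (by positivity)
  linarith

theorem dg_le {a b A B : ℝ} (ha : |a| ≤ 1) (hb : |b| ≤ 1) (hA : |A| ≤ 1) (hB : |B| ≤ 1) :
    dg a b A B ≤ 8 * ((A - a) ^ 2 + (B - b) ^ 2) := by
  have ha2 : a ^ 2 ≤ 1 := by rw [← sq_abs]; exact pow_le_one₀ (abs_nonneg _) ha
  have hb2 : b ^ 2 ≤ 1 := by rw [← sq_abs]; exact pow_le_one₀ (abs_nonneg _) hb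
  have hA2 : A ^ 2 ≤ 1 := by rw [← sq_abs]; exact pow_le_one₀ (abs_nonneg _) hA
  have hB2 : B ^ 2 ≤ 1 := by rw [← sq_abs]; exact pow_le_one₀ (abs_nonneg _) hB
  have key : ∀ a b A B : ℝ, a ^ 2 ≤ 1 → b ^ 2 ≤ 1 → A ^ 2 ≤ 1 → B ^ 2 ≤ 1 →
      ((A - a) * (1 + (B ^ 2 - (A ^ 2 + A * a + a ^ 2) / 3) / 100) + (B - b) * (a * (B + b) / 100)) ^ 2
        ≤ 3 * ((A - a) ^ 2 + (B - b) ^ 2) := by
    intro a b A B ha2 hb2 hA2 hB2
    apply cs2
    have e1 : |1 + (B ^ 2 - (A ^ 2 + A * a + a ^ 2) / 3) / 100| ≤ 102 / 100 := by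
      rw [abs_le]
      constructor <;> nlinarith [sq_nonneg A, sq_nonneg a, sq_nonneg B, sq_nonneg (A - a), sq_nonneg (A + a)]
    have e2 : |a * (B + b) / 100| ≤ 2 / 100 := by
      rw [abs_le]
      constructor <;> nlinarith [sq_nonneg (a + B), sq_nonneg (a - B), sq_nonneg (a + b), sq_nonneg (a - b)]
    have f1 := pow_le_pow_left₀ (abs_nonneg _) e1 2
    have f2 := pow_le_pow_left₀ (abs_nonneg _) e2 2
    rw [sq_abs] at f1 f2
    linarith
  have k1 := key a b A B ha2 hb2 hA2 hB2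
  have k2 := key b a B A hb2 ha2 hB2 hA2
  have k3 : ((A - a) * b + (B - b) * A) ^ 2 ≤ 2 * ((A - a) ^ 2 + (B - b) ^ 2) := by
    apply cs2; linarith
  have i1 : g1 A B - g1 a b =
      (A - a) * (1 + (B ^ 2 - (A ^ 2 + A * a + a ^ 2) / 3) / 100) + (B - b) * (a * (B + b) / 100) := by
    unfold g1; ring
  have i2 : g2 A B - g2 a b =
      (B - b) * (1 + (A ^ 2 - (B ^ 2 + B * b + b ^ 2) / 3) / 100) + (A - a) * (b * (A + a) / 100) := by
    unfold g2; ring
  have i3 : g3 A B - g3 a b = (A - a) * b + (B - b) * A := by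
    unfold g3; ring
  unfold dg
  rw [i1, i2, i3]
  linarith

theorem cap_ineq {a b A B : ℝ} (ha : |a| ≤ 1) (hb : |b| ≤ 1) (hA : |A| ≤ 1) (hB : |B| ≤ 1) :
    el a b + (c1 a b * (g1 A B - g1 a b) + c2 a b * (g2 A B - g2 a b) + c3 a b * (g3 A B - g3 a b))
      + 1 / 1000000 * dg a b A B ^ 2 ≤ el A B := by
  obtain ⟨QA, QC, h, hA', hC'⟩ : ∃ QA QC : ℝ,
      el A B - el a b - (c1 a b * (g1 A B - g1 a b) + c2 a b * (g2 A B - g2 a b)
        + c3 a b * (g3 A B - g3 a b)) = (A - a) ^ 2 * QA + (B - b) ^ 2 * QC ∧ 2 / 5 ≤ QA ∧ 2 / 5 ≤ QC :=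
    ⟨_, _, cap_id a b A B, capA ha hb hA hB, capC ha hb hA hB⟩
  have m1 := mul_le_mul_of_nonneg_left hA' (sq_nonneg (A - a))
  have m2 := mul_le_mul_of_nonneg_left hC' (sq_nonneg (B - b))
  have d1 := dg_le ha hb hA hB
  have d0 := dg_nonneg a b A B
  have hs : (A - a) ^ 2 + (B - b) ^ 2 ≤ 8 := by
    obtain ⟨x1, x2⟩ := abs_le.mp ha
    obtain ⟨x3, x4⟩ := abs_le.mp hb
    obtain ⟨x5, x6⟩ := abs_le.mp hA
    obtain ⟨x7, x8⟩ := abs_le.mp hB
    have y1 : (A - a) ^ 2 ≤ 4 := by nlinarith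
    have y2 : (B - b) ^ 2 ≤ 4 := by nlinarith
    linarith
  have d2 : dg a b A B ^ 2 ≤ 8 * 8 * (8 * ((A - a) ^ 2 + (B - b) ^ 2)) := by
    have : dg a b A B ≤ 8 * 8 := by linarith
    rw [pow_two]
    exact mul_le_mul this d1 d0 (by norm_num)
  linarith

theorem band_ineq {a A B : ℝ} (ha : |a| ≤ 1) (hA : |A| ≤ 1) (hB : |B| ≤ 1) :
    el a 1 + (s1 a * (g1 A B - g1 a 1) + s2 a * (g2 A B - g2 a 1) + s3 a * (g3 A B - g3 a 1))
      + 1 / 1000000 * dg a 1 A B ^ 2 ≤ el A B := by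
  have hb : |(1:ℝ)| ≤ 1 := by norm_num
  obtain ⟨QA, QC, h, hA', hC'⟩ : ∃ QA QC : ℝ,
      el A B - el a 1 - (s1 a * (g1 A B - g1 a 1) + s2 a * (g2 A B - g2 a 1)
        + s3 a * (g3 A B - g3 a 1)) = (A - a) ^ 4 * QA + (1 - B) * QC ∧ 1 / 1000 ≤ QA ∧ 1 ≤ QC :=
    ⟨_, _, band_id a A B, bandQ1 ha hb hA hB, bandQ2 ha hb hA hB⟩
  have hB1 := (abs_le.mp hB)
  have m1 := mul_le_mul_of_nonneg_left hA' (show 0 ≤ (A - a) ^ 4 by positivity)
  have m2 := mul_le_mul_of_nonneg_left hC' (show 0 ≤ 1 - B by linarith [hB1.2])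
  have d1 := dg_le ha hb hA hB
  have d0 := dg_nonneg a 1 A B
  have d2 : dg a 1 A B ^ 2 ≤ (8 * ((A - a) ^ 2 + (B - 1) ^ 2)) ^ 2 := pow_le_pow_left₀ d0 d1 2
  have d3 : ((A - a) ^ 2 + (B - 1) ^ 2) ^ 2 ≤ 2 * ((A - a) ^ 4 + (B - 1) ^ 4) := by
    nlinarith [sq_nonneg ((A - a) ^ 2 - (B - 1) ^ 2)]
  have d4 : (B - 1) ^ 4 ≤ 8 * (1 - B) := by
    have e1 : 0 ≤ 1 - B := by linarith [hB1.2]
    have e2 : 1 - B ≤ 2 := by linarith [hB1.1]
    have e3 : (1 - B) ^ 3 ≤ 2 ^ 3 := pow_le_pow_left₀ e1 e2 3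
    have e4 : (B - 1) ^ 4 = (1 - B) ^ 3 * (1 - B) := by ring
    rw [e4]
    have := mul_le_mul_of_nonneg_right e3 e1
    linarith
  have d5 : (8 * ((A - a) ^ 2 + (B - 1) ^ 2)) ^ 2 = 64 * ((A - a) ^ 2 + (B - 1) ^ 2) ^ 2 := by ring
  rw [d5] at d2
  have e0 : 0 ≤ (A - a) ^ 4 := by positivity
  have e1 : 0 ≤ 1 - B := by linarith [hB1.2]
  linarith

/-- first component of the momentum selection -/
noncomputable def m1 (a b : ℝ) : ℝ :=
  if |a| < 1 ∧ ¬ |b| < 1 then s1 a else if ¬ |a| < 1 ∧ |b| < 1 then a * s2 b else c1 a b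
/-- second component of the momentum selection -/
noncomputable def m2 (a b : ℝ) : ℝ :=
  if |a| < 1 ∧ ¬ |b| < 1 then b * s2 a else if ¬ |a| < 1 ∧ |b| < 1 then s1 b else c2 a b
/-- third component of the momentum selection -/
noncomputable def m3 (a b : ℝ) : ℝ :=
  if |a| < 1 ∧ ¬ |b| < 1 then b * s3 a else if ¬ |a| < 1 ∧ |b| < 1 then a * s3 b else c3 a b

theorem abs_cases_one {b : ℝ} (hb : |b| ≤ 1) (h : ¬ |b| < 1) : b = 1 ∨ b = -1 := by
  have : |b| = 1 := le_antisymm hb (not_lt.mp h)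
  rcases abs_eq (by norm_num : (0:ℝ) ≤ 1) |>.mp this with h | h
  · left; exact h
  · right; exact h

/-- The fundamental inequality for the data. -/
theorem main_ineq {a b A B : ℝ} (ha : |a| ≤ 1) (hb : |b| ≤ 1) (hA : |A| ≤ 1) (hB : |B| ≤ 1) :
    el a b + (m1 a b * (g1 A B - g1 a b) + m2 a b * (g2 A B - g2 a b) + m3 a b * (g3 A B - g3 a b))
      + 1 / 1000000 * dg a b A B ^ 2 ≤ el A B := by
  by_cases h1 : |a| < 1 ∧ ¬ |b| < 1
  · simp only [m1, m2, m3, if_pos h1]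
    rcases abs_cases_one hb h1.2 with rfl | rfl
    · have := band_ineq ha hA hB
      linarith
    · have := band_ineq (a := a) (A := A) (B := -B) ha hA (by rwa [abs_neg])
      have e1 : el a (-1) = el a 1 := by unfold el; ring
      have e2 : el A (-B) = el A B := by unfold el; ring
      have e3 : g1 A (-B) = g1 A B := by unfold g1; ring
      have e4 : g1 a (-1) = g1 a 1 := by unfold g1; ring
      have e5 : g2 A (-B) = - g2 A B := by unfold g2; ring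
      have e6 : g2 a (-1) = - g2 a 1 := by unfold g2; ring
      have e7 : g3 A (-B) = - g3 A B := by unfold g3; ring
      have e8 : g3 a (-1) = - g3 a 1 := by unfold g3; ring
      have e9 : dg a 1 A (-B) = dg a (-1) A B := by
        unfold dg; rw [e3, e4, e5, e6, e7, e8]; ring
      rw [e9, e2, e3, e5, e7] at this
      rw [e1, e4, e6, e8]
      linarith
  · by_cases h2 : ¬ |a| < 1 ∧ |b| < 1
    · simp only [m1, m2, m3, if_neg h1, if_pos h2]
      have s1' : ∀ x y : ℝ, g1 x y = g2 y x := by intro x y; unfold g1 g2; ring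
      have s2' : ∀ x y : ℝ, g2 x y = g1 y x := by intro x y; unfold g1 g2; ring
      have s3' : ∀ x y : ℝ, g3 x y = g3 y x := by intro x y; unfold g3; ring
      have s4' : ∀ x y : ℝ, el x y = el y x := by intro x y; unfold el; ring
      rcases abs_cases_one ha h2.1 with rfl | rfl
      · have := band_ineq hb hB hA
        have e9 : dg b 1 B A = dg 1 b A B := by
          unfold dg; rw [s1' B A, s1' b 1, s2' B A, s2' b 1, s3' B A, s3' b 1]; ring
        rw [e9, s4' B A, s4' b 1, s1' B A, s1' b 1, s2' B A, s2' b 1, s3' B A, s3' b 1] at this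
        linarith
      · have := band_ineq (a := b) (A := B) (B := -A) hb hB (by rwa [abs_neg])
        have e1 : el b 1 = el (-1) b := by unfold el; ring
        have e2 : el B (-A) = el A B := by unfold el; ring
        have e3 : g1 B (-A) = g2 A B := by unfold g1 g2; ring
        have e4 : g1 b 1 = g2 (-1) b := by unfold g1 g2; ring
        have e5 : g2 B (-A) = - g1 A B := by unfold g1 g2; ring
        have e6 : g2 b 1 = - g1 (-1) b := by unfold g1 g2; ring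
        have e7 : g3 B (-A) = - g3 A B := by unfold g3; ring
        have e8 : g3 b 1 = - g3 (-1) b := by unfold g3; ring
        have e9 : dg b 1 B (-A) = dg (-1) b A B := by
          unfold dg; rw [e3, e4, e5, e6, e7, e8]; ring
        rw [e9, e1, e2, e3, e4, e5, e6, e7, e8] at this
        linarith
    · simp only [m1, m2, m3, if_neg h1, if_neg h2]
      exact cap_ineq ha hb hA hB

end Pool.Agent.H231.R3
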