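import Pool.Agent.H231.R3.Defs

set_option autoImplicit false

namespace Pool.Agent.H231.R3

theorem mono {a b A B : ℝ} (ha : |a| ≤ 1) (hb : |b| ≤ 1) (hA : |A| ≤ 1) (hB : |B| ≤ 1)
    (i j k l : ℕ) : |a ^ i * b ^ j * A ^ k * B ^ l| ≤ 1 := by
  rw [abs_mul, abs_mul, abs_mul, abs_pow, abs_pow, abs_pow, abs_pow]
  have h1 := pow_le_one₀ (n := i) (abs_nonneg a) ha
  have h2 := pow_le_one₀ (n := j) (abs_nonneg b) hb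
  have h3 := pow_le_one₀ (n := k) (abs_nonneg A) hA
  have h4 := pow_le_one₀ (n := l) (abs_nonneg B) hB
  have p1 := pow_nonneg (abs_nonneg a) i
  have p2 := pow_nonneg (abs_nonneg b) j
  have p3 := pow_nonneg (abs_nonneg A) k
  have p4 := pow_nonneg (abs_nonneg B) l
  have h12 : |a| ^ i * |b| ^ j ≤ 1 := mul_le_one₀ h1 p2 h2
  have h123 : |a| ^ i * |b| ^ j * |A| ^ k ≤ 1 := mul_le_one₀ h12 p3 h3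
  exact mul_le_one₀ h123 p4 h4

theorem capA {a b A B : ℝ} (ha : |a| ≤ 1) (hb : |b| ≤ 1) (hA : |A| ≤ 1) (hB : |B| ≤ 1) :
    (2/5 : ℝ) ≤ (-1/36000:ℝ)*a^4 + (-1/18000:ℝ)*a^3*A + (-1/4800:ℝ)*a^2*b^2 + (1/4000:ℝ)*a^2*b*B + (-1/12000:ℝ)*a^2*A^2 + (-1/8000:ℝ)*a^2*B^2 + (7/600:ℝ)*a^2 + (-1/12000:ℝ)*a*b^2*A + (-1/6000:ℝ)*a*b*A*B + (-1/18000:ℝ)*a*A^3 + (-1/12000:ℝ)*a*A*B^2 + (1/150:ℝ)*a*A + (1/8000:ℝ)*b^4 + (-1/3000:ℝ)*b^3*B + (1/24000:ℝ)*b^2*A^2 + (-3/200:ℝ)*b^2 + (-1/12000:ℝ)*b*A^2*B + (1/50:ℝ)*b*B + (-1/36000:ℝ)*A^4 + (-1/24000:ℝ)*A^2*B^2 + (1/600:ℝ)*A^2 + (-1/24000:ℝ)*B^4 + (3/200:ℝ)*B^2 + (1/2:ℝ) := by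
  have h1 := abs_le.mp (mono ha hb hA hB 0 0 0 2)
  obtain ⟨h1a, h1b⟩ := h1
  have h2 := abs_le.mp (mono ha hb hA hB 0 0 0 4)
  obtain ⟨h2a, h2b⟩ := h2
  have h3 := abs_le.mp (mono ha hb hA hB 0 0 2 0)
  obtain ⟨h3a, h3b⟩ := h3
  have h4 := abs_le.mp (mono ha hb hA hB 0 0 2 2)
  obtain ⟨h4a, h4b⟩ := h4
  have h5 := abs_le.mp (mono ha hb hA hB 0 0 4 0)
  obtain ⟨h5a, h5b⟩ := h5
  have h6 := abs_le.mp (mono ha hb hA hB 0 1 0 1)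
  obtain ⟨h6a, h6b⟩ := h6
  have h7 := abs_le.mp (mono ha hb hA hB 0 1 2 1)
  obtain ⟨h7a, h7b⟩ := h7
  have h8 := abs_le.mp (mono ha hb hA hB 0 2 0 0)
  obtain ⟨h8a, h8b⟩ := h8
  have h9 := abs_le.mp (mono ha hb hA hB 0 2 2 0)
  obtain ⟨h9a, h9b⟩ := h9
  have h10 := abs_le.mp (mono ha hb hA hB 0 3 0 1)
  obtain ⟨h10a, h10b⟩ := h10
  have h11 := abs_le.mp (mono ha hb hA hB 0 4 0 0)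
  obtain ⟨h11a, h11b⟩ := h11
  have h12 := abs_le.mp (mono ha hb hA hB 1 0 1 0)
  obtain ⟨h12a, h12b⟩ := h12
  have h13 := abs_le.mp (mono ha hb hA hB 1 0 1 2)
  obtain ⟨h13a, h13b⟩ := h13
  have h14 := abs_le.mp (mono ha hb hA hB 1 0 3 0)
  obtain ⟨h14a, h14b⟩ := h14
  have h15 := abs_le.mp (mono ha hb hA hB 1 1 1 1)
  obtain ⟨h15a, h15b⟩ := h15
  have h16 := abs_le.mp (mono ha hb hA hB 1 2 1 0)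
  obtain ⟨h16a, h16b⟩ := h16
  have h17 := abs_le.mp (mono ha hb hA hB 2 0 0 0)
  obtain ⟨h17a, h17b⟩ := h17
  have h18 := abs_le.mp (mono ha hb hA hB 2 0 0 2)
  obtain ⟨h18a, h18b⟩ := h18
  have h19 := abs_le.mp (mono ha hb hA hB 2 0 2 0)
  obtain ⟨h19a, h19b⟩ := h19
  have h20 := abs_le.mp (mono ha hb hA hB 2 1 0 1)
  obtain ⟨h20a, h20b⟩ := h20
  have h21 := abs_le.mp (mono ha hb hA hB 2 2 0 0)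
  obtain ⟨h21a, h21b⟩ := h21
  have h22 := abs_le.mp (mono ha hb hA hB 3 0 1 0)
  obtain ⟨h22a, h22b⟩ := h22
  have h23 := abs_le.mp (mono ha hb hA hB 4 0 0 0)
  obtain ⟨h23a, h23b⟩ := h23
  simp only [pow_zero, pow_one, one_mul, mul_one] at *
  linarith

theorem capC {a b A B : ℝ} (ha : |a| ≤ 1) (hb : |b| ≤ 1) (hA : |A| ≤ 1) (hB : |B| ≤ 1) :
    (2/5 : ℝ) ≤ (1/8000:ℝ)*a^4 + (-1/3000:ℝ)*a^3*A + (-1/4800:ℝ)*a^2*b^2 + (-1/12000:ℝ)*a^2*b*B + (1/24000:ℝ)*a^2*B^2 + (-3/200:ℝ)*a^2 + (1/4000:ℝ)*a*b^2*A + (-1/6000:ℝ)*a*b*A*B + (-1/12000:ℝ)*a*A*B^2 + (1/50:ℝ)*a*A + (-1/36000:ℝ)*b^4 + (-1/18000:ℝ)*b^3*B + (-1/8000:ℝ)*b^2*A^2 + (-1/12000:ℝ)*b^2*B^2 + (7/600:ℝ)*b^2 + (-1/12000:ℝ)*b*A^2*B + (-1/18000:ℝ)*b*B^3 + (1/150:ℝ)*b*B + (-1/24000:ℝ)*A^4 + (-1/24000:ℝ)*A^2*B^2 + (3/200:ℝ)*A^2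 + (-1/36000:ℝ)*B^4 + (1/600:ℝ)*B^2 + (1/2:ℝ) := by
  have h1 := abs_le.mp (mono ha hb hA hB 0 0 0 2)
  obtain ⟨h1a, h1b⟩ := h1
  have h2 := abs_le.mp (mono ha hb hA hB 0 0 0 4)
  obtain ⟨h2a, h2b⟩ := h2
  have h3 := abs_le.mp (mono ha hb hA hB 0 0 2 0)
  obtain ⟨h3a, h3b⟩ := h3
  have h4 := abs_le.mp (mono ha hb hA hB 0 0 2 2)
  obtain ⟨h4a, h4b⟩ := h4
  have h5 := abs_le.mp (mono ha hb hA hB 0 0 4 0)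
  obtain ⟨h5a, h5b⟩ := h5
  have h6 := abs_le.mp (mono ha hb hA hB 0 1 0 1)
  obtain ⟨h6a, h6b⟩ := h6
  have h7 := abs_le.mp (mono ha hb hA hB 0 1 0 3)
  obtain ⟨h7a, h7b⟩ := h7
  have h8 := abs_le.mp (mono ha hb hA hB 0 1 2 1)
  obtain ⟨h8a, h8b⟩ := h8
  have h9 := abs_le.mp (mono ha hb hA hB 0 2 0 0)
  obtain ⟨h9a, h9b⟩ := h9
  have h10 := abs_le.mp (mono ha hb hA hB 0 2 0 2)
  obtain ⟨h10a, h10b⟩ := h10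
  have h11 := abs_le.mp (mono ha hb hA hB 0 2 2 0)
  obtain ⟨h11a, h11b⟩ := h11
  have h12 := abs_le.mp (mono ha hb hA hB 0 3 0 1)
  obtain ⟨h12a, h12b⟩ := h12
  have h13 := abs_le.mp (mono ha hb hA hB 0 4 0 0)
  obtain ⟨h13a, h13b⟩ := h13
  have h14 := abs_le.mp (mono ha hb hA hB 1 0 1 0)
  obtain ⟨h14a, h14b⟩ := h14
  have h15 := abs_le.mp (mono ha hb hA hB 1 0 1 2)
  obtain ⟨h15a, h15b⟩ := h15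
  have h16 := abs_le.mp (mono ha hb hA hB 1 1 1 1)
  obtain ⟨h16a, h16b⟩ := h16
  have h17 := abs_le.mp (mono ha hb hA hB 1 2 1 0)
  obtain ⟨h17a, h17b⟩ := h17
  have h18 := abs_le.mp (mono ha hb hA hB 2 0 0 0)
  obtain ⟨h18a, h18b⟩ := h18
  have h19 := abs_le.mp (mono ha hb hA hB 2 0 0 2)
  obtain ⟨h19a, h19b⟩ := h19
  have h20 := abs_le.mp (mono ha hb hA hB 2 1 0 1)
  obtain ⟨h20a, h20b⟩ := h20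
  have h21 := abs_le.mp (mono ha hb hA hB 2 2 0 0)
  obtain ⟨h21a, h21b⟩ := h21
  have h22 := abs_le.mp (mono ha hb hA hB 3 0 1 0)
  obtain ⟨h22a, h22b⟩ := h22
  have h23 := abs_le.mp (mono ha hb hA hB 4 0 0 0)
  obtain ⟨h23a, h23b⟩ := h23
  simp only [pow_zero, pow_one, one_mul, mul_one] at *
  linarith

theorem cap_id (a b A B : ℝ) :
    el A B - el a b - (c1 a b * (g1 A B - g1 a b) + c2 a b * (g2 A B - g2 a b) + c3 a b * (g3 A B - g3 a b)) =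
    (A - a) ^ 2 * ((-1/36000:ℝ)*a^4 + (-1/18000:ℝ)*a^3*A + (-1/4800:ℝ)*a^2*b^2 + (1/4000:ℝ)*a^2*b*B + (-1/12000:ℝ)*a^2*A^2 + (-1/8000:ℝ)*a^2*B^2 + (7/600:ℝ)*a^2 + (-1/12000:ℝ)*a*b^2*A + (-1/6000:ℝ)*a*b*A*B + (-1/18000:ℝ)*a*A^3 + (-1/12000:ℝ)*a*A*B^2 + (1/150:ℝ)*a*A + (1/8000:ℝ)*b^4 + (-1/3000:ℝ)*b^3*B + (1/24000:ℝ)*b^2*A^2 + (-3/200:ℝ)*b^2 + (-1/12000:ℝ)*b*A^2*B + (1/50:ℝ)*b*B + (-1/36000:ℝ)*A^4 + (-1/24000:ℝ)*A^2*B^2 + (1/600:ℝ)*A^2 + (-1/24000:ℝ)*B^4 + (3/200:ℝ)*B^2 + (1/2:ℝ)) + (B - b) ^ 2 * ((1/8000:ℝ)*a^4 + (-1/3000:ℝ)*a^3*A + (-1/4800:ℝ)*a^2*b^2 + (-1/12000:ℝ)*a^2*b*B + (1/24000:ℝ)*a^2*B^2 + (-3/200:ℝ)*a^2 + (1/4000:ℝ)*a*b^2*A + (-1/6000:ℝ)*a*b*A*B + (-1/12000:ℝ)*a*A*B^2 + (1/50:ℝ)*a*A + (-1/36000:ℝ)*b^4 + (-1/18000:ℝ)*b^3*B + (-1/8000:ℝ)*b^2*A^2 + (-1/12000:ℝ)*b^2*B^2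 + (7/600:ℝ)*b^2 + (-1/12000:ℝ)*b*A^2*B + (-1/18000:ℝ)*b*B^3 + (1/150:ℝ)*b*B + (-1/24000:ℝ)*A^4 + (-1/24000:ℝ)*A^2*B^2 + (3/200:ℝ)*A^2 + (-1/36000:ℝ)*B^4 + (1/600:ℝ)*B^2 + (1/2:ℝ)) := by
  unfold el c1 c2 c3 g1 g2 g3
  ring

theorem bandQ1 {a b A B : ℝ} (ha : |a| ≤ 1) (hb : |b| ≤ 1) (hA : |A| ≤ 1) (hB : |B| ≤ 1) :
    (1/1000 : ℝ) ≤ (-1/3600:ℝ)*a^2 + (-1/9000:ℝ)*a*A + (-1/36000:ℝ)*A^2 + (19/12000:ℝ) := by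
  have h1 := abs_le.mp (mono ha hb hA hB 0 0 2 0)
  obtain ⟨h1a, h1b⟩ := h1
  have h2 := abs_le.mp (mono ha hb hA hB 1 0 1 0)
  obtain ⟨h2a, h2b⟩ := h2
  have h3 := abs_le.mp (mono ha hb hA hB 2 0 0 0)
  obtain ⟨h3a, h3b⟩ := h3
  simp only [pow_zero, pow_one, one_mul, mul_one] at *
  linarith

theorem bandQ2 {a b A B : ℝ} (ha : |a| ≤ 1) (hb : |b| ≤ 1) (hA : |A| ≤ 1) (hB : |B| ≤ 1) :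
    (1 : ℝ) ≤ (-1/1000:ℝ)*a^5*A + (1/800:ℝ)*a^4*A^2 + (-1/2400:ℝ)*a^4*B^2 + (-1/2400:ℝ)*a^4*B + (299/2400:ℝ)*a^4 + (1/600:ℝ)*a^3*A*B + (-481/3000:ℝ)*a^3*A + (-19/2000:ℝ)*a^2*A^2 + (19/6000:ℝ)*a^2*B^2 + (19/6000:ℝ)*a^2*B + (-5681/6000:ℝ)*a^2 + (-19/1000:ℝ)*a*A*B + (19/10:ℝ)*a*A + (1/12000:ℝ)*A^4*B + (1/12000:ℝ)*A^4 + (1/12000:ℝ)*A^2*B^3 + (1/12000:ℝ)*A^2*B^2 + (-359/12000:ℝ)*A^2*B + (1/2:ℝ)*A^2 + (1/36000:ℝ)*B^5 + (1/36000:ℝ)*B^4 + (-59/36000:ℝ)*B^3 + (-3209/18000:ℝ)*B^2 + (-12209/18000:ℝ)*B + (941641/18000:ℝ) := by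
  have h1 := abs_le.mp (mono ha hb hA hB 0 0 0 1)
  obtain ⟨h1a, h1b⟩ := h1
  have h2 := abs_le.mp (mono ha hb hA hB 0 0 0 2)
  obtain ⟨h2a, h2b⟩ := h2
  have h3 := abs_le.mp (mono ha hb hA hB 0 0 0 3)
  obtain ⟨h3a, h3b⟩ := h3
  have h4 := abs_le.mp (mono ha hb hA hB 0 0 0 4)
  obtain ⟨h4a, h4b⟩ := h4
  have h5 := abs_le.mp (mono ha hb hA hB 0 0 0 5)
  obtain ⟨h5a, h5b⟩ := h5
  have h6 := abs_le.mp (mono ha hb hA hB 0 0 2 0)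
  obtain ⟨h6a, h6b⟩ := h6
  have h7 := abs_le.mp (mono ha hb hA hB 0 0 2 1)
  obtain ⟨h7a, h7b⟩ := h7
  have h8 := abs_le.mp (mono ha hb hA hB 0 0 2 2)
  obtain ⟨h8a, h8b⟩ := h8
  have h9 := abs_le.mp (mono ha hb hA hB 0 0 2 3)
  obtain ⟨h9a, h9b⟩ := h9
  have h10 := abs_le.mp (mono ha hb hA hB 0 0 4 0)
  obtain ⟨h10a, h10b⟩ := h10
  have h11 := abs_le.mp (mono ha hb hA hB 0 0 4 1)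
  obtain ⟨h11a, h11b⟩ := h11
  have h12 := abs_le.mp (mono ha hb hA hB 1 0 1 0)
  obtain ⟨h12a, h12b⟩ := h12
  have h13 := abs_le.mp (mono ha hb hA hB 1 0 1 1)
  obtain ⟨h13a, h13b⟩ := h13
  have h14 := abs_le.mp (mono ha hb hA hB 2 0 0 0)
  obtain ⟨h14a, h14b⟩ := h14
  have h15 := abs_le.mp (mono ha hb hA hB 2 0 0 1)
  obtain ⟨h15a, h15b⟩ := h15
  have h16 := abs_le.mp (mono ha hb hA hB 2 0 0 2)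
  obtain ⟨h16a, h16b⟩ := h16
  have h17 := abs_le.mp (mono ha hb hA hB 2 0 2 0)
  obtain ⟨h17a, h17b⟩ := h17
  have h18 := abs_le.mp (mono ha hb hA hB 3 0 1 0)
  obtain ⟨h18a, h18b⟩ := h18
  have h19 := abs_le.mp (mono ha hb hA hB 3 0 1 1)
  obtain ⟨h19a, h19b⟩ := h19
  have h20 := abs_le.mp (mono ha hb hA hB 4 0 0 0)
  obtain ⟨h20a, h20b⟩ := h20
  have h21 := abs_le.mp (mono ha hb hA hB 4 0 0 1)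
  obtain ⟨h21a, h21b⟩ := h21
  have h22 := abs_le.mp (mono ha hb hA hB 4 0 0 2)
  obtain ⟨h22a, h22b⟩ := h22
  have h23 := abs_le.mp (mono ha hb hA hB 4 0 2 0)
  obtain ⟨h23a, h23b⟩ := h23
  have h24 := abs_le.mp (mono ha hb hA hB 5 0 1 0)
  obtain ⟨h24a, h24b⟩ := h24
  simp only [pow_zero, pow_one, one_mul, mul_one] at *
  linarith

theorem band_id (a A B : ℝ) :
    el A B - el a 1 - (s1 a * (g1 A B - g1 a 1) + s2 a * (g2 A B - g2 a 1) + s3 a * (g3 A B - g3 a 1)) =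
    (A - a) ^ 4 * ((-1/3600:ℝ)*a^2 + (-1/9000:ℝ)*a*A + (-1/36000:ℝ)*A^2 + (19/12000:ℝ)) + (1 - B) * ((-1/1000:ℝ)*a^5*A + (1/800:ℝ)*a^4*A^2 + (-1/2400:ℝ)*a^4*B^2 + (-1/2400:ℝ)*a^4*B + (299/2400:ℝ)*a^4 + (1/600:ℝ)*a^3*A*B + (-481/3000:ℝ)*a^3*A + (-19/2000:ℝ)*a^2*A^2 + (19/6000:ℝ)*a^2*B^2 + (19/6000:ℝ)*a^2*B + (-5681/6000:ℝ)*a^2 + (-19/1000:ℝ)*a*A*B + (19/10:ℝ)*a*A + (1/12000:ℝ)*A^4*B + (1/12000:ℝ)*A^4 + (1/12000:ℝ)*A^2*B^3 + (1/12000:ℝ)*A^2*B^2 + (-359/12000:ℝ)*A^2*B + (1/2:ℝ)*A^2 + (1/36000:ℝ)*B^5 + (1/36000:ℝ)*B^4 + (-59/36000:ℝ)*B^3 + (-3209/18000:ℝ)*B^2 + (-12209/18000:ℝ)*B + (941641/18000:ℝ)) := by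
  unfold el s1 s2 s3 g1 g2 g3
  ring

end Pool.Agent.H231.R3
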