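import Pool.Agent.H231.R3.Field
import Pool.Agent.H231.R3.Ineq

set_option autoImplicit false

namespace Pool.Agent.H231.R3

/-- clamp to `[-1, 1]` -/
noncomputable def cl (s : ℝ) : ℝ := max (-1) (min 1 s)
/-- the normal part of a number with respect to `[-1, 1]` -/
noncomputable def nn (s : ℝ) : ℝ := s - cl s
/-- indicator of the open interval -/
noncomputable def al (s : ℝ) : ℝ := if |s| < 1 then 1 else 0

theorem cl_ge (s : ℝ) : -1 ≤ cl s := le_max_left _ _
theorem cl_le (s : ℝ) : cl s ≤ 1 := max_le (by norm_num) (min_le_left _ _)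
theorem cl_of_le {s : ℝ} (h : s ≤ -1) : cl s = -1 := by
  unfold cl
  rw [min_eq_right (by linarith), max_eq_left h]
theorem cl_of_ge {s : ℝ} (h : 1 ≤ s) : cl s = 1 := by
  unfold cl
  rw [min_eq_left h, max_eq_right (by norm_num)]
theorem cl_of_mem {s : ℝ} (h1 : -1 ≤ s) (h2 : s ≤ 1) : cl s = s := by
  unfold cl
  rw [min_eq_right h2, max_eq_right h1]

theorem cl_abs (s : ℝ) : |cl s| ≤ 1 := abs_le.mpr ⟨cl_ge s, cl_le s⟩

theorem nn_a1 (s : ℝ) : nn s * (1 - cl s) ≤ 0 := by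
  unfold nn
  rcases le_total s (-1) with h | h
  · rw [cl_of_le h]; nlinarith
  rcases le_total s 1 with h' | h'
  · rw [cl_of_mem h h']; simp
  · rw [cl_of_ge h']; simp

theorem nn_a2 (s : ℝ) : 0 ≤ nn s * (1 + cl s) := by
  unfold nn
  rcases le_total s (-1) with h | h
  · rw [cl_of_le h]; simp
  rcases le_total s 1 with h' | h'
  · rw [cl_of_mem h h']; simp
  · rw [cl_of_ge h']; nlinarith

/-- parametrization, first component -/
noncomputable def P0 (t p r : ℝ) : ℝ := -(t * cl r) - nn p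
/-- parametrization, second component -/
noncomputable def P1 (t p r : ℝ) : ℝ := -(t * cl p) + nn r
/-- parametrization, third component -/
noncomputable def P2 (t p r : ℝ) : ℝ :=
  t * (1 + (cl p ^ 2 + cl r ^ 2) / 100) + (cl r * nn p - cl p * nn r) / 50

theorem Fa_P (t p r : ℝ) : Fa (P0 t p r) (P1 t p r) (P2 t p r) (cl p) (cl r)
    = -((1 - (cl p ^ 2 + cl r ^ 2) / 100) * nn p) := by
  unfold Fa P0 P1 P2; ring

theorem Fb_P (t p r : ℝ) : Fb (P0 t p r) (P1 t p r) (P2 t p r) (cl p) (cl r)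
    = (1 - (cl p ^ 2 + cl r ^ 2) / 100) * nn r := by
  unfold Fb P0 P1 P2; ring

theorem K_ge {a b : ℝ} (ha : |a| ≤ 1) (hb : |b| ≤ 1) : 98 / 100 ≤ 1 - (a ^ 2 + b ^ 2) / 100 := by
  have h1 := sq_le_one_of_abs ha
  have h2 := sq_le_one_of_abs hb
  linarith

theorem Sol_P (t p r : ℝ) : Sol (P0 t p r) (P1 t p r) (P2 t p r) (cl p) (cl r) := by
  have hK := K_ge (cl_abs p) (cl_abs r)
  have a1 := nn_a1 p
  have a2 := nn_a2 p
  have b1 := nn_a1 r
  have b2 := nn_a2 r
  set K := 1 - (cl p ^ 2 + cl r ^ 2) / 100 with hKdef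
  have hK0 : 0 ≤ K := by linarith
  refine ⟨cl_ge p, cl_le p, cl_ge r, cl_le r, ?_, ?_, ?_, ?_⟩
  · rw [Fa_P, ← hKdef]
    have := mul_nonneg hK0 (neg_nonneg.mpr a1)
    linarith
  · rw [Fa_P, ← hKdef]
    have := mul_nonneg hK0 a2
    linarith
  · rw [Fb_P, ← hKdef]
    have := mul_nonneg hK0 (neg_nonneg.mpr b1)
    linarith
  · rw [Fb_P, ← hKdef]
    have := mul_nonneg hK0 b2
    linarith

theorem P_bound (t p r : ℝ) :
    |t| ≤ 3 * (|P0 t p r| + |P1 t p r| + |P2 t p r|) ∧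
    |nn p| ≤ 3 * (|P0 t p r| + |P1 t p r| + |P2 t p r|) ∧
    |nn r| ≤ 3 * (|P0 t p r| + |P1 t p r| + |P2 t p r|) := by
  have hK := K_ge (cl_abs p) (cl_abs r)
  have fa := Fa_abs (P0 t p r) (P1 t p r) (P2 t p r) (cl_abs p) (cl_abs r)
  have fb := Fb_abs (P0 t p r) (P1 t p r) (P2 t p r) (cl_abs p) (cl_abs r)
  rw [Fa_P, abs_neg, abs_mul] at fa
  rw [Fb_P, abs_mul] at fb
  rw [abs_of_nonneg (by linarith : 0 ≤ 1 - (cl p ^ 2 + cl r ^ 2) / 100)] at fa fb
  have h1 := mul_le_mul_of_nonneg_right hK (abs_nonneg (nn p))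
  have h2 := mul_le_mul_of_nonneg_right hK (abs_nonneg (nn r))
  have n0 := abs_nonneg (P0 t p r)
  have n1 := abs_nonneg (P1 t p r)
  have n2 := abs_nonneg (P2 t p r)
  have hp : |nn p| ≤ 21 / 10 * (|P0 t p r| + |P1 t p r| + |P2 t p r|) := by linarith
  have hr : |nn r| ≤ 21 / 10 * (|P0 t p r| + |P1 t p r| + |P2 t p r|) := by linarith
  refine ⟨?_, by linarith, by linarith⟩
  have h3 : t * (1 + (cl p ^ 2 + cl r ^ 2) / 100) = P2 t p r - (cl r * nn p - cl p * nn r) / 50 := by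
    unfold P2; ring
  have h4 : |t| ≤ |t * (1 + (cl p ^ 2 + cl r ^ 2) / 100)| := by
    rw [abs_mul]
    have : 1 ≤ |1 + (cl p ^ 2 + cl r ^ 2) / 100| := by
      refine le_trans ?_ (le_abs_self _)
      nlinarith [sq_nonneg (cl p), sq_nonneg (cl r)]
    nlinarith [abs_nonneg t]
  rw [h3] at h4
  have h5 := abs_sub (P2 t p r) ((cl r * nn p - cl p * nn r) / 50)
  have h6 : |(cl r * nn p - cl p * nn r) / 50| ≤ (|nn p| + |nn r|) / 50 := by
    rw [abs_div, abs_of_pos (by norm_num : (0:ℝ) < 50)]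
    apply div_le_div_of_nonneg_right _ (by norm_num)
    refine (abs_sub _ _).trans ?_
    rw [abs_mul, abs_mul]
    have := mul_le_mul_of_nonneg_right (cl_abs r) (abs_nonneg (nn p))
    have := mul_le_mul_of_nonneg_right (cl_abs p) (abs_nonneg (nn r))
    linarith
  linarith

theorem P_inj {t p r t' p' r' : ℝ} (h0 : P0 t p r = P0 t' p' r') (h1 : P1 t p r = P1 t' p' r')
    (h2 : P2 t p r = P2 t' p' r') (hpos : 0 < |P0 t p r| + |P1 t p r| + |P2 t p r|) :
    t = t' ∧ p = p' ∧ r = r' := by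
  have s1 := Sol_P t p r
  have s2 := Sol_P t' p' r'
  rw [← h0, ← h1, ← h2] at s2
  obtain ⟨e1, e2⟩ := sol_unique s1 s2 hpos
  have fa1 := Fa_P t p r
  have fa2 := Fa_P t' p' r'
  have fb1 := Fb_P t p r
  have fb2 := Fb_P t' p' r'
  rw [← h0, ← h1, ← h2, e1, e2, fa1] at fa2
  rw [← h0, ← h1, ← h2, e1, e2, fb1] at fb2
  have hK := K_ge (cl_abs p) (cl_abs r)
  have hK0 : (1 - (cl p ^ 2 + cl r ^ 2) / 100) ≠ 0 := by
    intro h; linarith
  have g1 : nn p = nn p' := by
    have := neg_injective fa2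
    exact mul_left_cancel₀ hK0 this
  have g2 : nn r = nn r' := mul_left_cancel₀ hK0 fb2
  have g3 : p = p' := by unfold nn at g1; linarith
  have g4 : r = r' := by unfold nn at g2; linarith
  refine ⟨?_, g3, g4⟩
  subst g3; subst g4
  unfold P2 at h2
  have h3 : t * (1 + (cl p ^ 2 + cl r ^ 2) / 100) = t' * (1 + (cl p ^ 2 + cl r ^ 2) / 100) := by linarith
  have : (1 + (cl p ^ 2 + cl r ^ 2) / 100) ≠ 0 := by positivity
  exact mul_right_cancel₀ this h3

theorem P_surj (x y z : ℝ) : ∃ t p r, P0 t p r = x ∧ P1 t p r = y ∧ P2 t p r = z := by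
  have hs := q_sol x y z
  set a := qa x y z
  set b := qb x y z
  have hK := K_ge hs.abs_a hs.abs_b
  set K := 1 - (a ^ 2 + b ^ 2) / 100 with hKdef
  have hK0 : 0 < K := by linarith
  have ha2 := sq_le_one_of_abs hs.abs_a
  have hb2 := sq_le_one_of_abs hs.abs_b
  -- normal parts
  obtain ⟨n1, hn1⟩ : ∃ n1, Fa x y z a b = -(K * n1) := ⟨-(Fa x y z a b / K), by field_simp⟩
  obtain ⟨n2, hn2⟩ : ∃ n2, Fb x y z a b = K * n2 := ⟨Fb x y z a b / K, by field_simp⟩
  have cp : cl (a + n1) = a := by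
    rcases lt_trichotomy n1 0 with h | h | h
    · have hF : 0 < Fa x y z a b := by rw [hn1]; nlinarith
      have : a = -1 := by
        have h1 : 1 + a ≤ 0 := by
          by_contra hc
          have := mul_pos hF (not_le.mp hc)
          linarith [hs.fa2]
        linarith [hs.a1]
      rw [this]; exact cl_of_le (by linarith)
    · rw [h, add_zero]; exact cl_of_mem hs.a1 hs.a2
    · have hF : Fa x y z a b < 0 := by rw [hn1]; nlinarith
      have : a = 1 := by
        have h1 : 1 - a ≤ 0 := by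
          by_contra hc
          have := mul_neg_of_neg_of_pos hF (not_le.mp hc)
          linarith [hs.fa1]
        linarith [hs.a2]
      rw [this]; exact cl_of_ge (by linarith)
  have cr : cl (b + n2) = b := by
    rcases lt_trichotomy n2 0 with h | h | h
    · have hF : Fb x y z a b < 0 := by rw [hn2]; nlinarith
      have : b = -1 := by
        have h1 : 1 + b ≤ 0 := by
          by_contra hc
          have := mul_neg_of_neg_of_pos hF (not_le.mp hc)
          linarith [hs.fb2]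
        linarith [hs.b1]
      rw [this]; exact cl_of_le (by linarith)
    · rw [h, add_zero]; exact cl_of_mem hs.b1 hs.b2
    · have hF : 0 < Fb x y z a b := by rw [hn2]; nlinarith
      have : b = 1 := by
        have h1 : 1 - b ≤ 0 := by
          by_contra hc
          have := mul_pos hF (not_le.mp hc)
          linarith [hs.fb1]
        linarith [hs.b2]
      rw [this]; exact cl_of_ge (by linarith)
  have np : nn (a + n1) = n1 := by unfold nn; rw [cp]; ring
  have nr : nn (b + n2) = n2 := by unfold nn; rw [cr]; ring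
  have hw : (1 + (a ^ 2 + b ^ 2) / 100) ≠ 0 := by positivity
  obtain ⟨t, ht⟩ : ∃ t, t * (1 + (a ^ 2 + b ^ 2) / 100) = z - (b * n1 - a * n2) / 50 :=
    ⟨(z - (b * n1 - a * n2) / 50) / (1 + (a ^ 2 + b ^ 2) / 100), by field_simp⟩
  refine ⟨t, a + n1, b + n2, ?_⟩
  have e2 : P2 t (a + n1) (b + n2) = z := by
    unfold P2; rw [cp, cr, np, nr]; linarith
  have fa := Fa_P t (a + n1) (b + n2)
  have fb := Fb_P t (a + n1) (b + n2)
  rw [cp, cr, np, ← hKdef, e2, ← hn1] at fa
  rw [cp, cr, nr, ← hKdef, e2, ← hn2] at fb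
  set X0 := P0 t (a + n1) (b + n2)
  set X1 := P1 t (a + n1) (b + n2)
  have l1 : (1 + (b ^ 2 - a ^ 2) / 100) * (X0 - x) + a * b / 50 * (X1 - y) = 0 := by
    unfold Fa at fa; linarith
  have l2 : a * b / 50 * (X0 - x) + (1 + (a ^ 2 - b ^ 2) / 100) * (X1 - y) = 0 := by
    unfold Fb at fb; linarith
  have hdet : 0 < 1 - ((a ^ 2 + b ^ 2) / 100) ^ 2 := by nlinarith [sq_nonneg a, sq_nonneg b]
  have l3 : (1 - ((a ^ 2 + b ^ 2) / 100) ^ 2) * (X0 - x) = 0 := by
    linear_combination (1 + (a ^ 2 - b ^ 2) / 100) * l1 - a * b / 50 * l2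
  have l4 : (1 - ((a ^ 2 + b ^ 2) / 100) ^ 2) * (X1 - y) = 0 := by
    linear_combination (1 + (b ^ 2 - a ^ 2) / 100) * l2 - a * b / 50 * l1
  have l5 := (mul_eq_zero.mp l3).resolve_left hdet.ne'
  have l6 := (mul_eq_zero.mp l4).resolve_left hdet.ne'
  exact ⟨by linarith, by linarith, e2⟩

theorem P_pos {t p r : ℝ} (ht : t ≠ 0) : 0 < |P0 t p r| + |P1 t p r| + |P2 t p r| := by
  have h := (P_bound t p r).1
  have := abs_pos.mpr ht
  linarith

end Pool.Agent.H231.R3
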