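import Pool.Agent.H231.R3.Param

set_option autoImplicit false

namespace Pool.Agent.H231.R3

open MeasureTheory Set

/-- Fubini in one chosen direction combined with the fundamental theorem of calculus off `{1, -1}`. -/
theorem slice_zero (D : (Fin 3 → ℝ) → ℝ) (hD : Integrable D) (i : Fin 3) (g : (Fin 2 → ℝ) → ℝ → ℝ)
    (R : ℝ) (hcont : ∀ y, Continuous (g y))
    (hder : ∀ (y : Fin 2 → ℝ) (s : ℝ), s ≠ 1 → s ≠ -1 →
      HasDerivAt (g y) (D (i.insertNth (α := fun _ => ℝ) s y)) s)
    (hzero : ∀ (y : Fin 2 → ℝ) (s : ℝ), R < |s| →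
      D (i.insertNth (α := fun _ => ℝ) s y) = 0 ∧ g y s = 0) :
    ∫ m, D m = 0 := by
  have mp := (volume_preserving_piFinSuccAbove (fun _ : Fin 3 => ℝ) i).symm
  rw [← mp.integral_comp' D, Measure.volume_eq_prod]
  have hI : Integrable (fun p : ℝ × (Fin 2 → ℝ) =>
      D ((MeasurableEquiv.piFinSuccAbove (fun _ : Fin 3 => ℝ) i).symm p)) (volume.prod volume) := by
    have := (mp.integrable_comp_emb (MeasurableEquiv.measurableEmbedding _) (g := D)).mpr hD
    rw [Measure.volume_eq_prod] at this
    exact this
  rw [integral_prod_symm _ hI]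
  have hae := hI.prod_left_ae
  apply integral_eq_zero_of_ae
  filter_upwards [hae] with y hy
  have key : ∀ s : ℝ, (MeasurableEquiv.piFinSuccAbove (fun _ : Fin 3 => ℝ) i).symm (s, y)
      = i.insertNth (α := fun _ => ℝ) s y := fun s => rfl
  simp only [key] at hy ⊢
  set f : ℝ → ℝ := fun s => D (i.insertNth (α := fun _ => ℝ) s y) with hf
  set T : ℝ := |R| + 1 with hT
  have hT0 : 0 < T := by positivity
  have hRT : R < T := by have := le_abs_self R; linarith
  have hsupp : Function.support f ⊆ Ioc (-T) T := by
    intro s hs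
    by_contra hc
    apply hs
    apply (hzero y s _).1
    rw [mem_Ioc, not_and_or] at hc
    rcases hc with hc | hc
    · have : T ≤ |s| := by
        have := neg_le_abs s
        linarith [not_lt.mp hc]
      linarith
    · have : T ≤ |s| := by
        have := le_abs_self s
        linarith [not_le.mp hc]
      linarith
  have h1 : ∫ s, f s = ∫ s in (-T)..T, f s :=
    (intervalIntegral.integral_eq_integral_of_support_subset hsupp).symm
  change ∫ s, f s = 0
  rw [h1, integral_eq_of_hasDerivAt_off_countable_of_le (g y) f (by linarith)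
    (Set.Countable.insert 1 (Set.countable_singleton (-1:ℝ))) (hcont y).continuousOn ?_
    hy.intervalIntegrable]
  · have e1 := (hzero y T (by rw [abs_of_pos hT0]; exact hRT)).2
    have e2 := (hzero y (-T) (by rw [abs_neg, abs_of_pos hT0]; exact hRT)).2
    rw [e1, e2, sub_zero]
  · intro s hs
    have hs2 := hs.2
    simp only [mem_insert_iff, mem_singleton_iff, not_or] at hs2
    exact hder y s hs2.1 hs2.2

theorem al_cases (s : ℝ) : al s = 1 ∨ al s = 0 := by
  unfold al; split_ifs <;> simp

/-- Integrability of functions that are continuous with compact support on each of the patterns. -/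
theorem integrable_pat (F : ℝ → ℝ → (Fin 3 → ℝ) → ℝ) (hc : ∀ α β, Continuous (F α β))
    (hs : ∀ α β, HasCompactSupport (F α β)) :
    Integrable (fun m => F (al (m 1)) (al (m 2)) m) := by
  classical
  have hI : ∀ α β, Integrable (F α β) := fun α β => (hc α β).integrable_of_hasCompactSupport (hs α β)
  have m1 : MeasurableSet {m : Fin 3 → ℝ | |m 1| < 1} :=
    (isOpen_lt (by fun_prop) continuous_const).measurableSet
  have m2 : MeasurableSet {m : Fin 3 → ℝ | |m 2| < 1} :=
    (isOpen_lt (by fun_prop) continuous_const).measurableSet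
  have e : (fun m : Fin 3 → ℝ => F (al (m 1)) (al (m 2)) m) =
      {m : Fin 3 → ℝ | |m 1| < 1}.piecewise
        ({m : Fin 3 → ℝ | |m 2| < 1}.piecewise (F 1 1) (F 1 0))
        ({m : Fin 3 → ℝ | |m 2| < 1}.piecewise (F 0 1) (F 0 0)) := by
    funext m
    by_cases h1 : |m 1| < 1 <;> by_cases h2 : |m 2| < 1 <;>
      simp [Set.piecewise, al, h1, h2]
  rw [e]
  exact Integrable.piecewise m1
    (Integrable.piecewise m2 (hI 1 1).integrableOn (hI 1 0).integrableOn).integrableOn
    (Integrable.piecewise m2 (hI 0 1).integrableOn (hI 0 0).integrableOn).integrableOn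

end Pool.Agent.H231.R3
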